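import Pool.Agent.Lib.MP_0a5adf_nt.WT.Defs

/-!
Row BLK: the proportions in the dyadic blocks agree.
-/

set_option autoImplicit false

namespace Pool.Agent.Lib.MP_0a5adf_nt.WT

open Finset Pool.Agent.Lib.MP_0a5adf_nt.H89 Pool.Agent.Lib.MP_edb5be_nt.ND

theorem T_true' : Pool.Agent.Lib.MP_0a5adf_nt.TP.T true = T := by
  funext n
  unfold Pool.Agent.Lib.MP_0a5adf_nt.TP.T T
  simp

theorem Gd_eq_P (B : Set ℕ) (L : ℕ) : Gd B (L : ℝ) = P L B := by
  unfold Gd P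
  have h1 : (2 : ℝ) ^ ((L : ℝ)) = 2 ^ L := Real.rpow_natCast 2 L
  have h2 : (2 : ℝ) ^ ((L : ℝ) + 1) = 2 ^ (L + 1) := by
    rw [← Real.rpow_natCast 2 (L + 1)]; push_cast; rfl
  rw [h1, h2]
  congr 2
  congr 1
  ext n
  simp only [Set.mem_setOf_eq]
  constructor
  · rintro ⟨h3, h4, h5⟩
    exact ⟨by exact_mod_cast h4, by exact_mod_cast h5, h3⟩
  · rintro ⟨h3, h4, h5⟩
    exact ⟨h5, by exact_mod_cast h3, by exact_mod_cast h4⟩

theorem blk (h : ConvStatement) : BlkStatement := by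
  obtain ⟨C, u₀, hC, h⟩ := h
  refine ⟨2 * C, max 1 ⌈u₀⌉₊, by linarith, le_max_left _ _, ?_⟩
  intro B lo L L' hB hL hLL' hlo
  have hInv : InvA true B lo := by
    intro n hn
    rw [T_true']
    exact hB n hn
  obtain ⟨D, -, -, hD⟩ := h true B lo hInv
  have hL1 : (1 : ℕ) ≤ L := le_trans (le_max_left _ _) hL
  have hL2 : u₀ ≤ (L : ℝ) :=
    le_trans (Nat.le_ceil u₀) (by exact_mod_cast le_trans (le_max_right _ _) hL)
  have hLR : (L : ℝ) ≤ L' := by exact_mod_cast hLL'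
  have hloR : (lo : ℝ) ≤ 83 / 100 * L := by
    have : (100 : ℝ) * lo ≤ 83 * L := by exact_mod_cast hlo
    linarith
  have h1 := hD L hL2 hloR
  have h2 := hD L' (le_trans hL2 hLR) (by linarith)
  rw [Gd_eq_P] at h1 h2
  have hLpos : (0 : ℝ) < L := by exact_mod_cast hL1
  have h3 : (L' : ℝ) ^ (-(1 / 38) : ℝ) ≤ (L : ℝ) ^ (-(1 / 38) : ℝ) :=
    Real.rpow_le_rpow_of_nonpos hLpos hLR (by norm_num)
  have h4 : P L' B - P L B = (P L' B - D) - (P L B - D) := by ring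
  rw [h4]
  have h6 : C * (L' : ℝ) ^ (-(1 / 38) : ℝ) ≤ C * (L : ℝ) ^ (-(1 / 38) : ℝ) :=
    mul_le_mul_of_nonneg_left h3 hC.le
  have h7 : |(P L' B - D) - (P L B - D)| ≤ |P L' B - D| + |P L B - D| := by
    rw [abs_le]
    constructor
    · linarith [neg_abs_le (P L' B - D), le_abs_self (P L B - D)]
    · linarith [le_abs_self (P L' B - D), neg_abs_le (P L B - D)]
  linarith

end Pool.Agent.Lib.MP_0a5adf_nt.WT
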