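import Pool.Agent.Lib.MP_0a5adf_nt.WT.Defs

/-!
# Row CTS (MP_0a5adf_nt WT): from dyadic blocks to counts (helper25)
-/

set_option autoImplicit false

namespace Pool.Agent.Lib.MP_0a5adf_nt.WT

open Finset Pool.Agent.Lib.MP_0a5adf_nt.H89

/-- Row CTS, first half. -/
theorem cts1 (B : Set ℕ) (ε X : ℝ) (hX : 1 ≤ X) (hε : 0 ≤ ε)
    (h : ∀ L : ℕ, (2 : ℝ) ^ L ≤ X → P L B ≤ ε) : ct B X ≤ 2 * ε * X := by
  classical
  set N : ℕ := ⌊X⌋₊ with hN
  have hN1 : 1 ≤ N := by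
    rw [hN]; exact Nat.one_le_floor_iff X |>.2 hX
  set K : ℕ := Nat.log 2 N with hK
  have hK1 : 2 ^ K ≤ N := Nat.pow_log_le_self 2 (by omega)
  have hK2 : N < 2 ^ (K + 1) := Nat.lt_pow_succ_log_self (by norm_num) N
  have hNX : (N : ℝ) ≤ X := Nat.floor_le (by linarith)
  have h2K : (2 : ℝ) ^ K ≤ X := by
    have : ((2 ^ K : ℕ) : ℝ) ≤ N := by exact_mod_cast hK1
    push_cast at this
    linarith
  -- the blocks
  have hblk : ∀ L ∈ range (K + 1),
      (({n : ℕ | 2 ^ L ≤ n ∧ n < 2 ^ (L + 1) ∧ n ∈ B}.ncard : ℕ) : ℝ) ≤ ε * 2 ^ L := by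
    intro L hL
    have hLK : L ≤ K := by
      have := Finset.mem_range.1 hL
      omega
    have hLX : (2 : ℝ) ^ L ≤ X :=
      le_trans (pow_le_pow_right₀ (by norm_num) hLK) h2K
    have := h L hLX
    unfold P at this
    rwa [div_le_iff₀ (by positivity)] at this
  -- the set is covered by the blocks
  have hsub : {n : ℕ | n ∈ B ∧ 1 ≤ n ∧ (n : ℝ) ≤ X} ⊆
      ((range (K + 1)).biUnion fun L =>
        (Finset.Ico (2 ^ L) (2 ^ (L + 1))).filter fun n => n ∈ B : Finset ℕ) := by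
    rintro n ⟨hnB, hn1, hnX⟩
    have hnN : n ≤ N := Nat.le_floor hnX
    simp only [Finset.coe_biUnion, Set.mem_iUnion, Finset.mem_coe, Finset.mem_filter,
      Finset.mem_Ico, Finset.mem_range]
    refine ⟨Nat.log 2 n, ?_, ⟨Nat.pow_log_le_self 2 (by omega),
      Nat.lt_pow_succ_log_self (by norm_num) n⟩, hnB⟩
    have : Nat.log 2 n ≤ K := Nat.log_mono_right hnN
    omega
  have hc : ∀ L : ℕ, (((Finset.Ico (2 ^ L) (2 ^ (L + 1))).filter fun n => n ∈ B).card) =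
      {n : ℕ | 2 ^ L ≤ n ∧ n < 2 ^ (L + 1) ∧ n ∈ B}.ncard := by
    intro L
    rw [← Set.ncard_coe_finset]
    congr 1
    ext n
    simp [and_assoc]
  have h1 : ct B X ≤ ∑ L ∈ range (K + 1), ε * 2 ^ L := by
    unfold ct
    have h2 : ({n : ℕ | n ∈ B ∧ 1 ≤ n ∧ (n : ℝ) ≤ X}.ncard) ≤
        ∑ L ∈ range (K + 1), (((Finset.Ico (2 ^ L) (2 ^ (L + 1))).filter fun n => n ∈ B).card) := by
      calc _ ≤ (((range (K + 1)).biUnion fun L =>
        (Finset.Ico (2 ^ L) (2 ^ (L + 1))).filter fun n => n ∈ B : Finset ℕ) : Set ℕ).ncard :=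
            Set.ncard_le_ncard hsub (Finset.finite_toSet _)
        _ = ((range (K + 1)).biUnion fun L =>
        (Finset.Ico (2 ^ L) (2 ^ (L + 1))).filter fun n => n ∈ B).card :=
            Set.ncard_coe_finset _
        _ ≤ _ := Finset.card_biUnion_le
    calc (({n : ℕ | n ∈ B ∧ 1 ≤ n ∧ (n : ℝ) ≤ X}.ncard : ℕ) : ℝ)
        ≤ ((∑ L ∈ range (K + 1),
          (((Finset.Ico (2 ^ L) (2 ^ (L + 1))).filter fun n => n ∈ B).card) : ℕ) : ℝ) := by
            exact_mod_cast h2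
      _ = ∑ L ∈ range (K + 1),
          ((((Finset.Ico (2 ^ L) (2 ^ (L + 1))).filter fun n => n ∈ B).card : ℕ) : ℝ) := by
            push_cast; rfl
      _ ≤ ∑ L ∈ range (K + 1), ε * 2 ^ L := by
            apply Finset.sum_le_sum
            intro L hL
            rw [hc L]
            exact hblk L hL
  have h3 : ∑ L ∈ range (K + 1), ε * (2 : ℝ) ^ L = ε * (2 ^ (K + 1) - 1) := by
    rw [← Finset.mul_sum, geom_sum_eq (by norm_num)]
    norm_num
  calc ct B X ≤ ε * (2 ^ (K + 1) - 1) := by rw [← h3]; exact h1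
    _ ≤ ε * (2 * X) := by
        apply mul_le_mul_of_nonneg_left _ hε
        rw [pow_succ]
        linarith
    _ = 2 * ε * X := by ring

/-- Row CTS, second half. -/
theorem cts2 (ψ : ℝ → ℝ) (l L : ℕ) (hL : L < l) : P L (EvI ψ l) = 0 := by
  have : {n : ℕ | 2 ^ L ≤ n ∧ n < 2 ^ (L + 1) ∧ n ∈ EvI ψ l} = ∅ := by
    apply Set.eq_empty_of_forall_notMem
    rintro n ⟨-, hn, b, hb, i, ⟨-, hfp⟩, hst⟩
    have hnb : n < 2 ^ b := lt_of_lt_of_le hn (Nat.pow_le_pow_right (by norm_num) (by omega))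
    have hi : i = 0 := by
      by_contra h0
      have := hfp 0 (by omega)
      have h4 : (2 : ℕ) ^ b ≤ 2 ^ (b + 1) := Nat.pow_le_pow_right (by norm_num) (by omega)
      simp only [Function.iterate_zero, id_eq] at this
      omega
    subst hi
    have := hst.1
    simp only [Function.iterate_zero, id_eq] at this
    omega
  unfold P
  rw [this]
  simp

/-- Row CTS. -/
theorem cts : CtsStatement :=
  ⟨fun B ε X hX hε h => cts1 B ε X hX hε h, fun ψ l L hL => cts2 ψ l L hL⟩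

end Pool.Agent.Lib.MP_0a5adf_nt.WT
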