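import Pool.Agent.Lib.MP_0a5adf_nt.WT.Det

/-!
ROW DEC: `Tame ψ` is the complement of `Hs ψ l` up to `EvI ψ l` (helper38).
-/

set_option autoImplicit false

namespace Pool.Agent.Lib.MP_0a5adf_nt.WT

open Finset Pool.Agent.Lib.MP_0a5adf_nt.H89

theorem T_iterate_pos {n : ℕ} (hn : 1 ≤ n) (k : ℕ) : 1 ≤ T^[k] n := by
  induction k generalizing n with
  | zero => simpa using hn
  | succ k ih =>
    rw [Function.iterate_succ_apply]
    exact ih (by unfold T; split_ifs <;> omega)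

theorem dec : DecStatement := by
  intro ψ l n hψ hn
  refine ⟨fun h1 h2 i j hij => ?_, fun ⟨i, j, hij, h1, h2⟩ h3 => ?_, fun h => falls h⟩
  · by_contra hcon
    push Not at hcon
    by_cases h : ∀ k ≤ j, 2 ^ l ≤ T^[k] n
    · exact absurd (det ψ l n hψ h1 i j hij h) (not_lt.2 hcon.le)
    · push Not at h
      obtain ⟨k, hk, hkl⟩ := h
      by_cases hi : T^[i] n < 2 ^ l
      · exact h2 ⟨i, j, hij, hi, hcon⟩
      · push Not at hi
        refine h2 ⟨k, j, hk, hkl, ?_⟩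
        have h4 : (1 : ℝ) ≤ (T^[k] n : ℝ) := by exact_mod_cast T_iterate_pos hn k
        have h5 : (T^[k] n : ℝ) ≤ (T^[i] n : ℝ) := by exact_mod_cast (hkl.le.trans hi)
        have h6 := hψ.mono _ _ h4 h5
        have h7 := hψ.pos _ h4
        calc (T^[k] n : ℝ) * ψ (T^[k] n) ≤ T^[i] n * ψ (T^[i] n) := by gcongr
          _ < T^[j] n := hcon
  · exact absurd (h3 i j hij) (not_le.2 h2)

end Pool.Agent.Lib.MP_0a5adf_nt.WT
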