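import Pool.Agent.Lib.MP_0a5adf_nt.H89.Final
import Pool.Agent.Lib.MP_edb5be_nt.ND.Iface

/-!
# Whole trajectories of the 3x+1 map (MP_0a5adf_nt, helper38)

Gauges `ψ`: `t(m) ≤ m ψ(m)` for all terms `m` of the trajectory of `n`. A row that needs another row
takes its statement as a hypothesis.
-/

set_option autoImplicit false

namespace Pool.Agent.Lib.MP_0a5adf_nt.WT

open Finset Pool.Agent.Lib.MP_0a5adf_nt.H89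

/-- A gauge: positive and nondecreasing on `[1, ∞)`. -/
structure Gauge (ψ : ℝ → ℝ) : Prop where
  mono : ∀ x y : ℝ, 1 ≤ x → x ≤ y → ψ x ≤ ψ y
  pos : ∀ x : ℝ, 1 ≤ x → 0 < ψ x

/-- The numbers of the dyadic block `[2 ^ b, 2 ^ (b + 1))` that do not fall below `2 ^ b`, or rise
by the factor `ψ (2 ^ b) / 2`, within `b / 100` steps. -/
def St (ψ : ℝ → ℝ) (b : ℕ) : Set ℕ :=
  {m : ℕ | 2 ^ b ≤ m ∧ m < 2 ^ (b + 1) ∧ ((∀ k ≤ b / 100, 2 ^ b ≤ T^[k] m) ∨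
    ∃ k ≤ b / 100, ψ (2 ^ b) / 2 * m ≤ (T^[k] m : ℝ))}

/-- Some first passage below `2 ^ (b + 1)`, `l ≤ b < lo`, lies in `St ψ b`. -/
def Ev (ψ : ℝ → ℝ) (l lo : ℕ) : Set ℕ :=
  {n : ℕ | ∃ b, l ≤ b ∧ b < lo ∧ ∃ i, FP n (b + 1) i ∧ T^[i] n ∈ St ψ b}

/-- Some first passage below `2 ^ (b + 1)`, `l ≤ b`, lies in `St ψ b`. -/
def EvI (ψ : ℝ → ℝ) (l : ℕ) : Set ℕ :=
  {n : ℕ | ∃ b, l ≤ b ∧ ∃ i, FP n (b + 1) i ∧ T^[i] n ∈ St ψ b}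

/-- The proportion of `B` in the dyadic block `[2 ^ L, 2 ^ (L + 1))`. -/
noncomputable def P (L : ℕ) (B : Set ℕ) : ℝ :=
  ({n : ℕ | 2 ^ L ≤ n ∧ n < 2 ^ (L + 1) ∧ n ∈ B}.ncard : ℝ) / 2 ^ L

/-- Invariance above `2 ^ lo`. -/
def Inv (B : Set ℕ) (lo : ℕ) : Prop := ∀ n : ℕ, 2 ^ lo ≤ n → (n ∈ B ↔ T n ∈ B)

/-! ## Rows -/

/-- ROW DET (deterministic): off `EvI ψ l` the bound `T^j n < T^i n · ψ(T^i n)`, `i ≤ j`, holds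
until the trajectory falls below `2 ^ l`. Proof: `2 ^ b ≤ min_{k ≤ j} T^k n < 2 ^ (b + 1)`; the first
passage `m` below `2 ^ (b + 1)` is at most `b / 100` steps before `j`, `m < 2 ^ (b + 1)`, and
`T^j n < ψ(2 ^ b) / 2 · m ≤ ψ(2 ^ b) · 2 ^ b ≤ ψ(T^i n) · T^i n`. -/
def DetStatement : Prop :=
  ∀ (ψ : ℝ → ℝ) (l n : ℕ), Gauge ψ → n ∉ EvI ψ l → ∀ i j : ℕ, i ≤ j →
    (∀ k ≤ j, 2 ^ l ≤ T^[k] n) → (T^[j] n : ℝ) < T^[i] n * ψ (T^[i] n)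

/-- ROW INV: exact invariance; and `Ev ψ l lo ⊆ Ev ψ l' lo'`-type facts are left to the users. -/
def InvStatement : Prop :=
  ∀ (ψ : ℝ → ℝ) (l lo : ℕ), Inv (Ev ψ l lo) lo

/-- ROW CONV (from `ND.ConvStatement`): the proportions in all blocks of scale `≥ lo / 0.83` agree
up to `C L ^ (-1/38)`. -/
def BlkStatement : Prop :=
  ∃ (C : ℝ) (L₀ : ℕ), 0 < C ∧ 1 ≤ L₀ ∧ ∀ (B : Set ℕ) (lo L L' : ℕ), Inv B lo → L₀ ≤ L → L ≤ L' →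
    100 * lo ≤ 83 * L → |P L' B - P L B| ≤ C * (L : ℝ) ^ (-(1 / 38) : ℝ)

/-- ROW RISE: the first `L` parities of `N` in the block are free, so a rise by `lam` between the
times `i ≤ i + k ≤ L` has probability at most `1 / lam` for the product `W` of the factors. -/
def RiseStatement : Prop :=
  (∀ (L i : ℕ) (lam : ℝ), i ≤ L → 0 < lam →
    (({N : ℕ | 2 ^ L ≤ N ∧ N < 2 ^ (L + 1) ∧ ∃ k, i + k ≤ L ∧ lam ≤ W k (T^[i] N)}.ncard : ℕ) : ℝ) ≤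
      2 ^ L / lam) ∧
  ∀ (L i k : ℕ) (lam : ℝ), i + k ≤ L → 0 < lam →
    (({N : ℕ | 2 ^ L ≤ N ∧ N < 2 ^ (L + 1) ∧ lam ≤ W k (T^[i] N)}.ncard : ℕ) : ℝ) ≤
      2 ^ L / lam ^ (1 / 2 : ℝ) * (Mh / 2) ^ k

/-- ROW FREE (from RISE): levels `b ≥ 0.82 L` from the block `L`: everything happens within the
first `0.91 L` steps. -/
def FreeStatement : Prop :=
  ∃ c C : ℝ, 0 < c ∧ 0 < C ∧ ∀ (ψ : ℝ → ℝ) (L l : ℕ), Gauge ψ → 82 * L ≤ 100 * l →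
    P L (EvI ψ l) ≤ C * L / ψ (2 ^ l) + C * (2 : ℝ) ^ (-(c * L))

/-- ROW UP (from INV, BLK, FREE): all levels `b ≥ l`, in every block. -/
def UpStatement : Prop :=
  ∃ C : ℝ, 0 < C ∧ ∀ (ψ : ℝ → ℝ) (l L : ℕ), Gauge ψ → 1 ≤ l →
    P L (EvI ψ l) ≤ C * (∑ b ∈ Icc (8 * l / 10) L, 1 / ψ (2 ^ b) + (l : ℝ) ^ (-(1 / 38) : ℝ))

/-- ROW POW (from INV, BLK, UP and `H89.card_Thr_le`, `H89.card_Exc_le`): powers of `y`. -/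
def PowStatement : Prop :=
  ∀ κ : ℝ, 0 < κ → ∃ c C : ℝ, 0 < c ∧ 0 < C ∧ ∀ l L : ℕ,
    P L (EvI (fun x => x ^ κ) l) ≤ C * (2 : ℝ) ^ (-(c * l))

/-! ## The limit law -/

/-- All terms `m` of the trajectory of `n` satisfy `t(m) ≤ m ψ(m)`. -/
def Tame (ψ : ℝ → ℝ) : Set ℕ :=
  {n : ℕ | ∀ i j : ℕ, i ≤ j → (T^[j] n : ℝ) ≤ T^[i] n * ψ (T^[i] n)}

/-- The trajectory is bounded. -/
def Bdd : Set ℕ := {n : ℕ | ∃ R : ℕ, ∀ k, T^[k] n ≤ R}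

/-- Number of the `n ∈ B` with `1 ≤ n ≤ X`. -/
noncomputable def ct (B : Set ℕ) (X : ℝ) : ℝ := ({n : ℕ | n ∈ B ∧ 1 ≤ n ∧ (n : ℝ) ≤ X}.ncard : ℝ)

/-- Natural density. -/
def HasD (B : Set ℕ) (D : ℝ) : Prop :=
  Filter.Tendsto (fun X : ℝ => ct B X / X) Filter.atTop (nhds D)

/-- Some term below `2 ^ l` violates the bound. -/
def Hs (ψ : ℝ → ℝ) (l : ℕ) : Set ℕ :=
  {n : ℕ | ∃ i j : ℕ, i ≤ j ∧ T^[i] n < 2 ^ l ∧ (T^[i] n : ℝ) * ψ (T^[i] n) < T^[j] n}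

/-- ROW DEC (from DET): `Tame ψ` is the complement of `Hs ψ l` up to `EvI ψ l`. Proof of (1): if
`T^i n · ψ(T^i n) < T^j n` and `n ∉ EvI ψ l` then some term `T^k n`, `k ≤ j`, is below `2 ^ l` (DET), and
`(k, j)` is a witness for `Hs ψ l`, or `T^i n < 2 ^ l`. Proof of (3): if all terms were `≥ 2 ^ l`, let
`2 ^ b ≤ min < 2 ^ (b + 1)`; the first passage below `2 ^ (b + 1)` is not in `St ψ b`. -/
def DecStatement : Prop :=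
  ∀ (ψ : ℝ → ℝ) (l n : ℕ), Gauge ψ → 1 ≤ n →
    (n ∉ EvI ψ l → n ∉ Hs ψ l → n ∈ Tame ψ) ∧ (n ∈ Hs ψ l → n ∉ Tame ψ) ∧
    (n ∉ EvI ψ l → ∃ k, T^[k] n < 2 ^ l)

/-- ROW HIN: `Hs ψ l` is invariant above `2 ^ l`; `Bdd` is invariant. -/
def HinStatement : Prop := (∀ (ψ : ℝ → ℝ) (l : ℕ), Inv (Hs ψ l) l) ∧ Inv Bdd 0

/-- ROW CTS: from blocks to counts; `EvI ψ l` has no elements below `2 ^ l`. -/
def CtsStatement : Prop :=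
  (∀ (B : Set ℕ) (ε X : ℝ), 1 ≤ X → 0 ≤ ε → (∀ L : ℕ, (2 : ℝ) ^ L ≤ X → P L B ≤ ε) →
    ct B X ≤ 2 * ε * X) ∧
  ∀ (ψ : ℝ → ℝ) (l L : ℕ), L < l → P L (EvI ψ l) = 0

/-- ROW LAW (from DEC, HIN, CTS, UP and `ND.CountStatement`): the limit law for a gauge with
`∑ 1 / ψ(2 ^ b) < ∞`, with an error term, and its distance from `Bdd`. -/
def LawStatement : Prop :=
  ∃ C : ℝ, 0 < C ∧ ∃ D : ℝ, HasD Bdd D ∧ ∀ ψ : ℝ → ℝ, Gauge ψ →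
    Summable (fun b : ℕ => 1 / ψ (2 ^ b)) → ∃ F : ℝ, F ≤ D ∧ HasD (Tame ψ) F ∧
      (∀ (X : ℝ) (l : ℕ), 2 ≤ X → 1 ≤ l → |ct (Tame ψ) X - F * X| ≤
        C * (X * (Real.log X ^ (-(1 / 38) : ℝ) + (l : ℝ) ^ (-(1 / 38) : ℝ) +
          ∑' b : ℕ, (if 8 * l / 10 ≤ b then 1 / ψ (2 ^ b) else 0)) + 4 ^ l)) ∧
      (∀ l : ℕ, 1 ≤ l → (∀ m ∈ Bdd, 1 ≤ m → m < 2 ^ l → m ∈ Tame ψ) →
        D - F ≤ C * ((l : ℝ) ^ (-(1 / 38) : ℝ) +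
          ∑' b : ℕ, (if 8 * l / 10 ≤ b then 1 / ψ (2 ^ b) else 0)))

/-- ROW IFF (from LAW, DEC, CTS, UP and `XT.pre_count`): the support of the limit law. (3) If
`T^j m > m ψ(m)` and `3 ∤ m`, all `n` through `m` are outside `Tame ψ`: at least `c X / m` of the
`n ≤ X`. (⇐) `n ∉ Tame ψ` implies `n ∈ EvI ψ l` or a term below `2 ^ l` divisible by `3` (so
`n = 2 ^ a * m`, `m < 2 ^ l`: at most `2 ^ l * (log X + 1)` values). -/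
def IffStatement : Prop :=
  ∃ c : ℝ, 0 < c ∧ ∀ ψ : ℝ → ℝ, Gauge ψ → Summable (fun b : ℕ => 1 / ψ (2 ^ b)) →
    ∀ F : ℝ, HasD (Tame ψ) F →
      (F = 1 ↔ ∀ m j : ℕ, 1 ≤ m → ¬ 3 ∣ m → (T^[j] m : ℝ) ≤ m * ψ m) ∧
      ∀ m j : ℕ, 1 ≤ m → ¬ 3 ∣ m → m * ψ m < (T^[j] m : ℝ) → F ≤ 1 - c / m

/-- ROW DIV (divergent half). -/
def DivStatement : Prop :=
  ∀ ψ : ℝ → ℝ, Gauge ψ → ¬ Summable (fun b : ℕ => 1 / ψ (2 ^ b)) → HasD (Tame ψ) 0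

end Pool.Agent.Lib.MP_0a5adf_nt.WT
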