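import Pool.Agent.Lib.MP_0a5adf_nt.WT.Defs

/-!
ROW DET: off `EvI ψ l` the trajectory obeys the gauge until it falls below `2 ^ l`, and it does fall
below `2 ^ l` (helper38).
-/

set_option autoImplicit false

namespace Pool.Agent.Lib.MP_0a5adf_nt.WT

open Finset Pool.Agent.Lib.MP_0a5adf_nt.H89

/-- The running minimum and its dyadic block: a first passage point `m` in the block of the minimum,
at a time `i' ≤ j`. -/
theorem exists_block {n l j : ℕ} (h : ∀ k ≤ j, 2 ^ l ≤ T^[k] n) :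
    ∃ b i' : ℕ, l ≤ b ∧ i' ≤ j ∧ FP n (b + 1) i' ∧ (∀ k ≤ j, 2 ^ b ≤ T^[k] n) := by
  classical
  -- the minimum
  obtain ⟨k₀, hk₀, hmin⟩ := exists_min_image (range (j + 1)) (fun k => T^[k] n) ⟨0, by simp⟩
  have hk₀j : k₀ ≤ j := by simpa [Nat.lt_succ_iff] using mem_range.1 hk₀
  set μ := T^[k₀] n with hμ
  have hmin' : ∀ k ≤ j, μ ≤ T^[k] n := fun k hk => hmin k (mem_range.2 (by omega))
  have hμl : 2 ^ l ≤ μ := h k₀ hk₀j
  have hμ0 : μ ≠ 0 := by
    have : 0 < 2 ^ l := by positivity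
    omega
  have h1 : 2 ^ (Nat.log 2 μ) ≤ μ := Nat.pow_log_le_self 2 hμ0
  have h2 : μ < 2 ^ (Nat.log 2 μ + 1) := Nat.lt_pow_succ_log_self (by norm_num) μ
  obtain ⟨i', hi', hFP⟩ := FP_of_lt (n := n) (l := Nat.log 2 μ + 1) (j := k₀) h2
  exact ⟨Nat.log 2 μ, i', (Nat.le_log_iff_pow_le (by norm_num) hμ0).2 hμl, hi'.trans hk₀j, hFP,
    fun k hk => h1.trans (hmin' k hk)⟩

/-- Off `St ψ b`. -/
theorem not_mem_St {ψ : ℝ → ℝ} {b m : ℕ} (h1 : 2 ^ b ≤ m) (h2 : m < 2 ^ (b + 1))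
    (h : m ∉ St ψ b) : (∃ k ≤ b / 100, T^[k] m < 2 ^ b) ∧
      ∀ k ≤ b / 100, (T^[k] m : ℝ) < ψ (2 ^ b) / 2 * m := by
  simp only [St, Set.mem_setOf_eq, not_and, not_or, not_forall, not_exists, not_le] at h
  obtain ⟨h3, h4⟩ := h h1 h2
  exact ⟨by obtain ⟨k, hk, h5⟩ := h3; exact ⟨k, hk, h5⟩, fun k hk => h4 k hk⟩

/-- The first passage point is at most `b / 100` steps before `j`. -/
theorem step {ψ : ℝ → ℝ} {l n j : ℕ} (hn : n ∉ EvI ψ l) (h : ∀ k ≤ j, 2 ^ l ≤ T^[k] n) :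
    ∃ b i' : ℕ, l ≤ b ∧ i' ≤ j ∧ j < i' + b / 100 ∧ (∀ k ≤ j, 2 ^ b ≤ T^[k] n) ∧
      FP n (b + 1) i' ∧ (T^[j] n : ℝ) < ψ (2 ^ b) / 2 * T^[i'] n ∧ 2 ^ b ≤ n := by
  obtain ⟨b, i', hlb, hi', hFP, hb⟩ := exists_block h
  have hSt : T^[i'] n ∉ St ψ b := fun hc => hn ⟨b, hlb, i', hFP, hc⟩
  obtain ⟨⟨k, hk, h5⟩, h6⟩ := not_mem_St (hb i' hi') hFP.1 hSt
  have h7 : j < i' + k := by
    by_contra hcon
    push Not at hcon
    have := hb (i' + k) hcon
    rw [show i' + k = k + i' by ring, Function.iterate_add_apply] at this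
    omega
  refine ⟨b, i', hlb, hi', by omega, hb, hFP, ?_, by simpa using hb 0 (Nat.zero_le _)⟩
  have h8 := h6 (j - i') (by omega)
  rwa [← Function.iterate_add_apply, Nat.sub_add_cancel hi'] at h8

theorem det : DetStatement := by
  intro ψ l n hψ hn i j hij h
  obtain ⟨b, i', _, hi', _, hb, h1, h2, _⟩ := step hn h
  have h2b : (1 : ℝ) ≤ 2 ^ b := one_le_pow₀ (by norm_num)
  have hpos := hψ.pos _ h2b
  have hx : (2 : ℝ) ^ b ≤ (T^[i] n : ℝ) := by exact_mod_cast hb i hij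
  have hm : (T^[i'] n : ℝ) < 2 ^ (b + 1) := by exact_mod_cast h1.1
  have h3 := hψ.mono _ _ h2b hx
  calc (T^[j] n : ℝ) < ψ (2 ^ b) / 2 * T^[i'] n := h2
    _ ≤ ψ (2 ^ b) / 2 * 2 ^ (b + 1) := by gcongr
    _ = 2 ^ b * ψ (2 ^ b) := by rw [pow_succ]; ring
    _ ≤ T^[i] n * ψ (T^[i] n) := by gcongr

/-- Off `EvI ψ l` the trajectory falls below `2 ^ l`. -/
theorem falls {ψ : ℝ → ℝ} {l n : ℕ} (hn : n ∉ EvI ψ l) : ∃ k, T^[k] n < 2 ^ l := by
  by_contra hcon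
  push Not at hcon
  -- first passage times are bounded
  have key : ∀ b : ℕ, ∃ I : ℕ, ∀ b' ≤ b, ∀ i, FP n (b' + 1) i → i ≤ I := by
    intro b
    induction b with
    | zero =>
      by_cases h : ∃ i, FP n 1 i
      · obtain ⟨i, hi⟩ := h
        exact ⟨i, fun b' hb' i' h' => by
          obtain rfl : b' = 0 := by omega
          exact (h'.unique hi).le⟩
      · exact ⟨0, fun b' hb' i' h' => by
          obtain rfl : b' = 0 := by omega
          exact absurd ⟨i', h'⟩ h⟩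
    | succ b ih =>
      obtain ⟨I, hI⟩ := ih
      by_cases h : ∃ i, FP n (b + 1 + 1) i
      · obtain ⟨i, hi⟩ := h
        refine ⟨max I i, fun b' hb' i' h' => ?_⟩
        rcases Nat.lt_or_ge b' (b + 1) with h1 | h1
        · exact (hI b' (by omega) i' h').trans (le_max_left _ _)
        · obtain rfl : b' = b + 1 := by omega
          exact (h'.unique hi).le.trans (le_max_right _ _)
      · refine ⟨I, fun b' hb' i' h' => ?_⟩
        rcases Nat.lt_or_ge b' (b + 1) with h1 | h1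
        · exact hI b' (by omega) i' h'
        · obtain rfl : b' = b + 1 := by omega
          exact absurd ⟨i', h'⟩ h
  obtain ⟨I, hI⟩ := key (Nat.log 2 n)
  obtain ⟨b, i', _, hi', h1, hb, h2, _, h3⟩ :=
    step (j := I + Nat.log 2 n + 1) hn (fun k _ => hcon k)
  have hn0 : n ≠ 0 := by
    rintro rfl
    have : 0 < 2 ^ b := by positivity
    omega
  have hbn : b ≤ Nat.log 2 n := (Nat.le_log_iff_pow_le (by norm_num) hn0).2 h3
  have := hI b hbn i' h2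
  omega

end Pool.Agent.Lib.MP_0a5adf_nt.WT
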