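import Pool.Agent.Lib.MP_0a5adf_nt.WT.Defs

/-!
# Row RISE: rises between the times `i` and `i + k ≤ L`
-/

set_option autoImplicit false

namespace Pool.Agent.Lib.MP_0a5adf_nt.WT

open Finset Pool.Agent.Lib.MP_0a5adf_nt.H89

namespace Rise

theorem per_mul {g : ℕ → ℝ} {K : ℕ} (hg : ∀ n, g (n + K) = g n) (a n : ℕ) :
    g (n + K * a) = g n := by
  induction a with
  | zero => simp
  | succ a ih => rw [mul_add, mul_one, ← add_assoc, hg, ih]

theorem per_mod {g : ℕ → ℝ} {K : ℕ} (hg : ∀ n, g (n + K) = g n) (n : ℕ) :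
    g (n % K) = g n := by
  conv_rhs => rw [← Nat.mod_add_div n K]
  rw [per_mul hg]

theorem sum_range_mul {g : ℕ → ℝ} {K : ℕ} (hg : ∀ n, g (n + K) = g n) (t : ℕ) :
    ∑ n ∈ range (K * t), g n = t * ∑ n ∈ range K, g n := by
  induction t with
  | zero => simp
  | succ t ih =>
    rw [mul_add, mul_one, sum_range_add, ih]
    have : ∑ n ∈ range K, g (K * t + n) = ∑ n ∈ range K, g n := by
      refine sum_congr rfl fun n _ => ?_
      rw [add_comm, per_mul hg]
    rw [this]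
    push_cast
    ring

theorem sum_block {g : ℕ → ℝ} {p L : ℕ} (hg : ∀ n, g (n + 2 ^ p) = g n) (hp : p ≤ L) :
    ∑ n ∈ Ico (2 ^ L) (2 ^ (L + 1)), g n = 2 ^ (L - p) * ∑ n ∈ range (2 ^ p), g n := by
  rw [sum_Ico_eq_sum_range]
  have h1 : 2 ^ (L + 1) - 2 ^ L = 2 ^ p * 2 ^ (L - p) := by
    rw [← pow_add, Nat.add_sub_cancel' hp, pow_succ]; omega
  have h2 : 2 ^ L = 2 ^ p * 2 ^ (L - p) := by
    rw [← pow_add, Nat.add_sub_cancel' hp]
  rw [h1]
  have h3 : ∑ n ∈ range (2 ^ p * 2 ^ (L - p)), g (2 ^ L + n) =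
      ∑ n ∈ range (2 ^ p * 2 ^ (L - p)), g n := by
    refine sum_congr rfl fun n _ => ?_
    rw [add_comm, h2, per_mul hg]
  rw [h3, sum_range_mul hg]
  push_cast
  ring

/-- The odd branch permutes the residues. -/
theorem sum_odd {f : ℕ → ℝ} {M : ℕ} (hf : ∀ n, f (n + 2 ^ M) = f n) :
    ∑ m ∈ range (2 ^ M), f (3 * m + 2) = ∑ m ∈ range (2 ^ M), f m := by
  have hK : 0 < 2 ^ M := by positivity
  have hinj : Set.InjOn (fun m => (3 * m + 2) % 2 ^ M) (range (2 ^ M) : Set ℕ) := by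
    intro a ha b hb hab
    simp only [coe_range, Set.mem_Iio] at ha hb
    have h1 : 3 * a + 2 ≡ 3 * b + 2 [MOD 2 ^ M] := hab
    have h2 : 3 * a ≡ 3 * b [MOD 2 ^ M] := Nat.ModEq.add_right_cancel' 2 h1
    have h3 : a ≡ b [MOD 2 ^ M] := by
      apply Nat.ModEq.cancel_left_of_coprime _ h2
      exact Nat.Coprime.pow_left M (by norm_num)
    have h4 := Nat.ModEq.eq_of_lt_of_lt h3 ha hb
    exact h4
  have himg : (range (2 ^ M)).image (fun m => (3 * m + 2) % 2 ^ M) = range (2 ^ M) := by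
    apply eq_of_subset_of_card_le
    · intro x hx
      rw [mem_image] at hx
      obtain ⟨m, -, rfl⟩ := hx
      exact mem_range.2 (Nat.mod_lt _ hK)
    · rw [card_image_of_injOn hinj]
  conv_rhs => rw [← himg]
  rw [sum_image hinj]
  refine sum_congr rfl fun m _ => ?_
  rw [per_mod hf]

theorem T_even (m : ℕ) : T (2 * m) = m := by unfold T; rw [if_pos (by omega)]; omega

theorem T_odd (m : ℕ) : T (2 * m + 1) = 3 * m + 2 := by unfold T; rw [if_neg (by omega)]; omega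

theorem per_T {f : ℕ → ℝ} {M : ℕ} (hf : ∀ n, f (n + 2 ^ M) = f n) (n : ℕ) :
    f (T (n + 2 ^ (M + 1))) = f (T n) := by
  rcases Nat.mod_two_eq_zero_or_one n with h | h
  · rw [pow_succ, mul_comm, T_add_even _ _ h, hf]
  · rw [pow_succ, mul_comm (2 ^ M), T_add_odd _ _ h, mul_comm 3, per_mul hf]

theorem sum_T {f : ℕ → ℝ} {M : ℕ} (hf : ∀ n, f (n + 2 ^ M) = f n) :
    ∑ n ∈ range (2 ^ (M + 1)), f (T n) = 2 * ∑ m ∈ range (2 ^ M), f m := by
  have h1 : ∀ t : ℕ, ∑ n ∈ range (2 * t), f (T n) =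
      ∑ m ∈ range t, (f (T (2 * m)) + f (T (2 * m + 1))) := by
    intro t
    induction t with
    | zero => simp
    | succ t ih =>
      rw [show 2 * (t + 1) = 2 * t + 1 + 1 by ring, sum_range_succ, sum_range_succ, ih,
        sum_range_succ]
      ring
  rw [pow_succ, mul_comm, h1, sum_add_distrib]
  simp only [T_even, T_odd]
  rw [sum_odd hf]
  ring

theorem per_iter {f : ℕ → ℝ} {M : ℕ} (hf : ∀ n, f (n + 2 ^ M) = f n) (i : ℕ) :
    ∀ n, f (T^[i] (n + 2 ^ (M + i))) = f (T^[i] n) := by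
  induction i with
  | zero => intro n; simpa using hf n
  | succ i ih =>
    intro n
    have := per_T (f := fun n => f (T^[i] n)) ih n
    rw [← add_assoc]
    simpa [Function.iterate_succ_apply] using this

theorem sum_iter {f : ℕ → ℝ} {M : ℕ} (hf : ∀ n, f (n + 2 ^ M) = f n) (i : ℕ) :
    ∑ n ∈ range (2 ^ (M + i)), f (T^[i] n) = 2 ^ i * ∑ m ∈ range (2 ^ M), f m := by
  induction i with
  | zero => simp
  | succ i ih =>
    have h1 := sum_T (f := fun n => f (T^[i] n)) (per_iter hf i)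
    rw [ih] at h1
    rw [← add_assoc]
    simp only [Function.iterate_succ_apply]
    rw [h1]
    ring

/-- The mean of a function of `T^i N` over the block. -/
theorem sum_main {f : ℕ → ℝ} {M : ℕ} (hf : ∀ n, f (n + 2 ^ M) = f n) {i L : ℕ}
    (h : M + i ≤ L) :
    ∑ N ∈ Ico (2 ^ L) (2 ^ (L + 1)), f (T^[i] N) =
      2 ^ (L - M) * ∑ m ∈ range (2 ^ M), f m := by
  rw [sum_block (g := fun n => f (T^[i] n)) (per_iter hf i) h, sum_iter hf, ← mul_assoc,
    ← pow_add]
  congr 2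
  omega

open Classical in
theorem ncard_eq (L : ℕ) (Q : ℕ → Prop) :
    (({N : ℕ | 2 ^ L ≤ N ∧ N < 2 ^ (L + 1) ∧ Q N}.ncard : ℕ) : ℝ) =
      ∑ N ∈ Ico (2 ^ L) (2 ^ (L + 1)), if Q N then (1 : ℝ) else 0 := by
  have h1 : {N : ℕ | 2 ^ L ≤ N ∧ N < 2 ^ (L + 1) ∧ Q N} =
      ((Ico (2 ^ L) (2 ^ (L + 1))).filter Q : Finset ℕ) := by
    ext N
    simp [and_assoc]
  rw [h1, Set.ncard_coe_finset, sum_ite]
  simp

end Rise

open Rise

/-- Row RISE. -/
theorem rise : RiseStatement := by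
  classical
  constructor
  · intro L i lam hi hlam
    rw [ncard_eq L (fun N => ∃ k, i + k ≤ L ∧ lam ≤ W k (T^[i] N))]
    have h1 : ∀ N, (∃ k, i + k ≤ L ∧ lam ≤ W k (T^[i] N)) ↔ Hit lam (L - i) (T^[i] N) := by
      intro N
      unfold Hit
      constructor
      · rintro ⟨k, h1, h2⟩; exact ⟨k, by omega, h2⟩
      · rintro ⟨k, h1, h2⟩; exact ⟨k, by omega, h2⟩
    simp only [h1]
    have hper : ∀ n, (if Hit lam (L - i) (n + 2 ^ (L - i)) then (1 : ℝ) else 0) =
        if Hit lam (L - i) n then (1 : ℝ) else 0 := by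
      intro n
      rw [add_comm]
      simp only [Hit_shift]
    rw [sum_main (f := fun n => if Hit lam (L - i) n then (1 : ℝ) else 0) hper
      (by omega : L - i + i ≤ L)]
    have h2 := ville lam (L - i)
    have h3 : (∑ n ∈ range (2 ^ (L - i)), if Hit lam (L - i) n then W (L - i) n else 0) ≤
        2 ^ (L - i) := by
      rw [← total (L - i)]
      apply sum_le_sum
      intro n _
      have := W_pos (L - i) n
      split_ifs <;> linarith
    rw [le_div_iff₀ hlam]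
    have h4 : (2 : ℝ) ^ L = 2 ^ (L - (L - i)) * 2 ^ (L - i) := by
      rw [← pow_add]; congr 1; omega
    rw [h4, mul_assoc]
    apply mul_le_mul_of_nonneg_left _ (by positivity)
    linarith
  · intro L i k lam hik hlam
    rw [ncard_eq L (fun N => lam ≤ W k (T^[i] N))]
    have hper : ∀ n, (if lam ≤ W k (n + 2 ^ k) then (1 : ℝ) else 0) =
        if lam ≤ W k n then (1 : ℝ) else 0 := by
      intro n
      rw [add_comm, W_shift]
    rw [sum_main (f := fun n => if lam ≤ W k n then (1 : ℝ) else 0) hper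
      (by omega : k + i ≤ L)]
    have h1 : ∑ m ∈ range (2 ^ k), (if lam ≤ W k m then (1 : ℝ) else 0) ≤
        Mh ^ k / lam ^ (1 / 2 : ℝ) := by
      have h2 := moment (1 / 2) k
      rw [← show Mh = (3 / 2 : ℝ) ^ (1 / 2 : ℝ) + (1 / 2 : ℝ) ^ (1 / 2 : ℝ) from rfl] at h2
      rw [← h2, sum_div]
      apply sum_le_sum
      intro m _
      have hW := W_pos k m
      have hl : 0 < lam ^ (1 / 2 : ℝ) := by positivity
      split_ifs with h
      · rw [le_div_iff₀ hl, one_mul]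
        exact Real.rpow_le_rpow hlam.le h (by norm_num)
      · positivity
    have h4 : (2 : ℝ) ^ L = 2 ^ (L - k) * 2 ^ k := by
      rw [← pow_add]; congr 1; omega
    calc (2 : ℝ) ^ (L - k) * ∑ m ∈ range (2 ^ k), (if lam ≤ W k m then (1 : ℝ) else 0)
        ≤ 2 ^ (L - k) * (Mh ^ k / lam ^ (1 / 2 : ℝ)) :=
          mul_le_mul_of_nonneg_left h1 (by positivity)
      _ = 2 ^ L / lam ^ (1 / 2 : ℝ) * (Mh / 2) ^ k := by
          rw [h4, div_pow]
          field_simp

end Pool.Agent.Lib.MP_0a5adf_nt.WT
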