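import Pool.Agent.Lib.MP_0a5adf_nt.WT.Defs
import Pool.Agent.Lib.MP_0a5adf_nt.TP.Interfaces
import Pool.Agent.Lib.MP_edb5be_nt.CO.Rows

/-!
# The divergent half of the integral test for whole trajectories (MP_0a5adf_nt, helper57)

Rows of the proof of `DivStatement`. `P`, `Inv`, `Tame`, `Gauge`, `HasD` are in `WT/Defs.lean`; `T`,
`W`, `Mh` are those of `H89`; `Phi`, `TP.T`, `sg` those of `TP/Defs.lean`. A row that needs another row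
takes its statement as a hypothesis.
-/

set_option autoImplicit false

namespace Pool.Agent.Lib.MP_0a5adf_nt.WT.Div

open Finset Pool.Agent.Lib.MP_0a5adf_nt.H89

/-- The numbers that rise by more than the factor `lam` within `j` steps (multiplicative part);
depends on the residue modulo `2 ^ j` only. -/
def Vr (lam : ℝ) (j : ℕ) : Set ℕ := {M : ℕ | ∃ t ≤ j, lam < W t M}

/-- The number of steps looked at in the window of scale `z`. -/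
noncomputable def jz (z : ℕ) : ℕ := ⌊(z : ℝ) ^ (1 / 8 : ℝ)⌋₊

/-- The levels of the window of scale `z`. -/
def lv (z : ℕ) : Finset ℕ := (range z).filter fun b => 815 * z ≤ 1000 * b ∧ 1000 * b < 825 * z

/-- The points of the window: some level `b ∈ lv z`. -/
def Win (z : ℕ) : Set ℕ := {M : ℕ | ∃ b ∈ lv z, 2 ^ b ≤ M ∧ M < 2 ^ (b + 1)}

/-- `D` is the limit of the proportions in the dyadic blocks. -/
def Lim (B : Set ℕ) (D : ℝ) : Prop := Filter.Tendsto (fun L : ℕ => P L B) Filter.atTop (nhds D)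

/-- The numbers whose trajectory visits a point of `Vr lam (jz z)` in the window, before it falls below
`2 ^ lo`. -/
def H (z lo : ℕ) (lam : ℝ) : Set ℕ :=
  {n : ℕ | ∃ i, (∀ k ≤ i, 2 ^ lo ≤ T^[k] n) ∧ T^[i] n ∈ Vr lam (jz z) ∧ T^[i] n ∈ Win z}

open Classical in
/-- Number of visits to `E` before time `n`. -/
noncomputable def vis (E : Set ℕ) (n N : ℕ) : ℕ := ((range n).filter fun i => T^[i] N ∈ E).card

/-! ## Rows -/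

/-- ROW SEC (second moment). Words: the parities of `N` at the times `< z` are free and uniform on
`[2 ^ z, 2 ^ (z + 1))`; `T^i N ∈ Vr lam j` depends on the parities at the times `i, ..., i + j - 1`. For
`i ≤ i'`, `e = i' - i`: if both are visits then the rise from `i` by more than `lam` happens within `e`
steps (probability `≤ 1 / lam`, independent of the second event, probability `≤ 1 / lam`), or it happens
after time `i'`, so `x * max W_t(T^i' N) > lam` and `max W_t (T^i' N) > lam` with `x = W e (T^i N)`: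
probability `≤ E min(x, 1) / lam ≤ E x ^ (1/2) / lam = (Mh / 2) ^ e / lam`. Sum over `i ≤ i' < n`,
`∑ (Mh/2)^e ≤ 30`. -/
def SecStatement : Prop :=
  ∀ (z j n : ℕ) (lam : ℝ), 1 ≤ lam → n + j ≤ z →
    ∑ N ∈ Ico (2 ^ z) (2 ^ (z + 1)), (vis (Vr lam j) n N : ℝ) ^ 2 ≤
      60 * 2 ^ z * ((n : ℝ) / lam + ((n : ℝ) / lam) ^ 2)

open Classical in
/-- ROW LOW (Cramer lower bound): the walk rises by more than `lam ≥ 1` within `K (1 + log lam)` steps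
with probability at least `c / lam`. From the known `F(lam) ≥ c / lam` (XT/Walk, XT/Law) minus
`∑_{t > j} P(W_t > lam) ≤ 30 lam^(-1/2) (Mh/2)^j`. -/
def LowStatement : Prop :=
  ∃ c K : ℝ, 0 < c ∧ 0 < K ∧ ∀ (lam : ℝ) (j : ℕ), 1 ≤ lam → K * (1 + Real.log lam) ≤ j →
    c / lam * 2 ^ j ≤ (((range (2 ^ j)).filter fun r => r ∈ Vr lam j).card : ℝ)

/-- ROW CLS (from `CO.T4Statement` and `ND.ConvStatement`): an invariant set `S` above `2 ^ lo`,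
`10 lo ≤ 4 b`, is equidistributed in the classes modulo `2 ^ j * 3 ^ m` on the block `b`, if `j, m` are at
most `b ^ (1/8)`. Proof: `M = K q + a`, `K = 2 ^ j * 3 ^ m`; `q ∈ S ↔ K q + a ∈ S` for all but
`C (X (j + m + log K)/√(log X) + 2 ^ lo √X + 2 ^ lo)` of the `q ≤ X = 2 ^ (b + 1) / K` (T4), and
`#{q ∈ S : 2 ^ u ≤ q < 2 ^ (u + 1)} = 2 ^ u Gd S u ≥ 2 ^ u (D - C u^(-1/38))`, `2 ^ u = 2 ^ b / K`. -/
def ClsStatement : Prop :=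
  ∃ (C : ℝ) (b₀ : ℕ), 0 < C ∧ ∀ (S : Set ℕ) (D : ℝ) (lo b j m a : ℕ), b₀ ≤ b → Inv S lo → Lim S D →
    10 * lo ≤ 4 * b → (j : ℝ) ≤ (b : ℝ) ^ (1 / 7 : ℝ) → (m : ℝ) ≤ (b : ℝ) ^ (1 / 7 : ℝ) →
    a < 2 ^ j * 3 ^ m →
    2 ^ b / (2 ^ j * 3 ^ m) * (D - C * (b : ℝ) ^ (-(1 / 38) : ℝ)) ≤
      ({M : ℕ | 2 ^ b ≤ M ∧ M < 2 ^ (b + 1) ∧ M ∈ S ∧ M % (2 ^ j * 3 ^ m) = a}.ncard : ℝ)

/-- ROW PVP (first moment of the visits, power error): copy of `ND/H72/PV1.lean` with other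
constants. `I = {i : 0.8 z ≤ i ≤ 0.92 z}`; the passage from `3 ^ s` to `3 ^ m` costs
`Josc n ≤ C_A / n ^ A` (`JoscStatement` with `A`), so `m` may be as small as `z ^ (1/8)`. -/
def PvpStatement : Prop :=
  ∃ c : ℝ, 0 < c ∧ ∀ A : ℕ, ∃ (C : ℝ) (z₀ : ℕ), 0 < C ∧ ∀ (z b m : ℕ) (E : Finset ℕ), z₀ ≤ z →
    b ∈ lv z → 1 ≤ m → 400 * m ≤ z → E ⊆ Ico (2 ^ b) (2 ^ (b + 1)) →
    2 ^ z * (c * ((∑ M ∈ E, TP.Phi m ((M : ℕ) : ℤ)) / 2 ^ b) - C * (z : ℝ) ^ 4 / (m : ℝ) ^ A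
        - C / (z : ℝ) ^ 4) ≤
      ∑ N ∈ Ico (2 ^ z) (2 ^ (z + 1)), (vis (↑E) (95 * z / 100) N : ℝ)

/-- ROW PHM: the mean of `Phi m`. From `TP.PhiStatement`, `ND.FFAStatement` (2), (3). -/
def PhmStatement : Prop :=
  ∀ m : ℕ, 2 ≤ m → (1 / 2 : ℝ) * 3 ^ m ≤ ∑ x ∈ range (3 ^ m), TP.Phi m ((x : ℕ) : ℤ) ∧
    ∀ x y : ℕ, x % 3 ^ m = y % 3 ^ m → TP.Phi m ((x : ℕ) : ℤ) = TP.Phi m ((y : ℕ) : ℤ)

/-- ROW FST (from LOW, CLS, PVP, PHM): first moment of the visits to `Vr ∩ S` in the window. CRT for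
the classes modulo `2 ^ j * 3 ^ m`, `j = m = jz z`. -/
def FstStatement : Prop :=
  ∃ (c C : ℝ) (z₀ : ℕ), 0 < c ∧ 0 < C ∧ ∀ (S : Set ℕ) (D lam : ℝ) (lo z : ℕ), z₀ ≤ z → Inv S lo →
    Lim S D → 10 * lo ≤ 3 * z → 1 ≤ lam → lam ≤ (z : ℝ) ^ 2 →
    2 ^ z * (c * ((z : ℝ) / lam) * (D - C * (z : ℝ) ^ (-(1 / 38) : ℝ)) - C / (z : ℝ) ^ 2) ≤
      ∑ N ∈ Ico (2 ^ z) (2 ^ (z + 1)),
        (vis (Vr lam (jz z) ∩ S ∩ Win z) (95 * z / 100) N : ℝ)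

/-- ROW DIP (from RISE (1)): a trajectory does not return from `2 ^ lo`, `lo ≤ 0.3 z`, to the window
within the first `0.95 z` steps, with few exceptions. Proof: `k' < i` the last time with
`T^k' N < 2 ^ ⌊z / 2⌋`; after it all terms are `≥ 2 ^ ⌊z / 2⌋`, so `W (i - k' - 1) (T^(k'+1) N)` is at least
`2 ^ (0.3 z)`. -/
def DipStatement : Prop :=
  ∃ (C : ℝ) (z₀ : ℕ), 0 < C ∧ ∀ z lo : ℕ, z₀ ≤ z → 10 * lo ≤ 3 * z →
    (({N : ℕ | 2 ^ z ≤ N ∧ N < 2 ^ (z + 1) ∧ ∃ i < 95 * z / 100, T^[i] N ∈ Win z ∧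
      ∃ k ≤ i, T^[k] N < 2 ^ lo}.ncard : ℕ) : ℝ) ≤ C * 2 ^ z / (z : ℝ) ^ 4

/-- ROW HNV: invariance. `l' = 825 z / 1000 + 1` bounds the window. -/
def HnvStatement : Prop :=
  ∀ (z lo : ℕ) (lam : ℝ), 10 * lo ≤ 8 * z → Inv (H z lo lam) (825 * z / 1000 + 1)

/-- ROW CSZ (from FST, SEC, DIP): Cauchy–Schwarz on the block `z`. If `N` visits
`Vr ∩ S ∩ Win` at time `i` without falling below `2 ^ lo` before, then `N ∈ H ∩ S` (invariance of `S`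
above `2 ^ lo` along the path). -/
def CszStatement : Prop :=
  ∃ (c C : ℝ) (z₀ : ℕ), 0 < c ∧ 0 < C ∧ ∀ (S : Set ℕ) (D lam : ℝ) (lo z : ℕ), z₀ ≤ z → Inv S lo →
    Lim S D → 10 * lo ≤ 3 * z → 1 ≤ lam → lam ≤ (z : ℝ) ^ 2 →
    c * min 1 ((z : ℝ) / lam) * max 0 (D - C * (z : ℝ) ^ (-(1 / 38) : ℝ)) ^ 2 ≤
      P z (H z lo lam ∩ S)

/-- ROW STP (from CSZ, HNV, BLK / `ND.ConvStatement`): one window. -/
def StpStatement : Prop :=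
  ∃ (c C : ℝ) (z₀ : ℕ), 0 < c ∧ 0 < C ∧ ∀ (S : Set ℕ) (D lam : ℝ) (lo z : ℕ), z₀ ≤ z → Inv S lo →
    Lim S D → 10 * lo ≤ 3 * z → 1 ≤ lam → lam ≤ (z : ℝ) ^ 2 →
    ∃ D' : ℝ, Lim (S \ H z lo lam) D' ∧ 0 ≤ D' ∧ D' ≤ D ∧
      D' ≤ D - c * min 1 ((z : ℝ) / lam) * D ^ 2 + C * (z : ℝ) ^ (-(1 / 38) : ℝ) ∧
      Inv (S \ H z lo lam) (825 * z / 1000 + 1)

/-- ROW REC (pure): the recursion along `z_k = 4 ^ k * z₀`. -/
def RecStatement : Prop :=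
  ∀ (c C : ℝ) (z₀ : ℕ) (p lam : ℕ → ℝ), 0 < c → 0 < C → 1 ≤ z₀ →
    (∀ k, 0 ≤ p k ∧ p k ≤ 1 ∧ p (k + 1) ≤ p k) →
    (∀ k, 1 ≤ lam k ∧ lam k ≤ lam (k + 1)) →
    (∀ k, lam k ≤ ((4 ^ k * z₀ : ℕ) : ℝ) ^ 2 → p (k + 1) ≤
      p k - c * min 1 (((4 ^ k * z₀ : ℕ) : ℝ) / lam k) * p k ^ 2 +
        C * (((4 ^ k * z₀ : ℕ) : ℝ)) ^ (-(1 / 38) : ℝ)) →
    ¬ Summable (fun k : ℕ => ((4 ^ k * z₀ : ℕ) : ℝ) / lam k) →
    Filter.Tendsto p Filter.atTop (nhds 0)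

/-- ROW CND (pure): condensation. -/
def CndStatement : Prop :=
  ∀ (ψ : ℝ → ℝ) (z₀ : ℕ), Gauge ψ → 1 ≤ z₀ → ¬ Summable (fun b : ℕ => 1 / ψ (2 ^ b)) →
    ¬ Summable (fun k : ℕ => ((4 ^ k * z₀ : ℕ) : ℝ) / max 1 (ψ (2 ^ (4 ^ k * z₀))))

/-- ROW VIO: a visit is a violation; `Tame ψ` avoids all `H z lo lam` with `ψ (2 ^ z) ≤ lam`. -/
def VioStatement : Prop :=
  ∀ (ψ : ℝ → ℝ) (z lo n : ℕ) (lam : ℝ), Gauge ψ → ψ (2 ^ z) ≤ lam → 1 ≤ lam → 1 ≤ n →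
    n ∈ H z lo lam → n ∉ Tame ψ

end Pool.Agent.Lib.MP_0a5adf_nt.WT.Div
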