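import Pool.Agent.Lib.MP_0a5adf_nt.WT.Dec

/-!
Theorem WT, part (i): from the rows POW, CTS (and DET) (helper38).
-/

set_option autoImplicit false

namespace Pool.Agent.Lib.MP_0a5adf_nt.WT

open Finset Pool.Agent.Lib.MP_0a5adf_nt.H89

theorem gauge_rpow {κ : ℝ} (hκ : 0 < κ) : Gauge (fun x => x ^ κ) where
  mono x y hx hxy := Real.rpow_le_rpow (by linarith) hxy hκ.le
  pos x hx := Real.rpow_pos_of_pos (by linarith) _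

theorem gauge_mul {ψ : ℝ → ℝ} (h : Gauge ψ) {lam : ℝ} (hl : 0 < lam) : Gauge (fun x => lam * ψ x) where
  mono x y hx hxy := mul_le_mul_of_nonneg_left (h.mono x y hx hxy) hl.le
  pos x hx := mul_pos hl (h.pos x hx)

theorem T_iter_ge {n : ℕ} (hn : 1 ≤ n) (k : ℕ) : (1 : ℝ) ≤ (T^[k] n : ℝ) := by
  exact_mod_cast T_iterate_pos hn k

/-- Part (i). -/
theorem part_i (hP : PowStatement) (hC : CtsStatement) :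
    ∀ κ : ℝ, 0 < κ → ∃ c C : ℝ, 0 < c ∧ 0 < C ∧ ∀ X y : ℝ, 1 ≤ X → 1 ≤ y →
      ({n : ℕ | 1 ≤ n ∧ (n : ℝ) ≤ X ∧ ¬ ((∃ k : ℕ, (T^[k] n : ℝ) < y) ∧ ∀ i j : ℕ, i ≤ j →
        (∀ k ≤ j, y ≤ (T^[k] n : ℝ)) → (T^[j] n : ℝ) < (T^[i] n : ℝ) ^ (1 + κ))}.ncard : ℝ) ≤
          C * X / y ^ c := by
  intro κ hκ
  obtain ⟨c, C, hc, hC0, hP⟩ := hP κ hκ
  refine ⟨c, 2 * C * 2 ^ c, hc, by positivity, fun X y hX hy => ?_⟩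
  set l := Nat.log 2 ⌊y⌋₊ with hl
  have hy0 : ⌊y⌋₊ ≠ 0 := (Nat.floor_pos.2 hy).ne'
  have h1 : (2 : ℝ) ^ l ≤ y := by
    calc (2 : ℝ) ^ l ≤ (⌊y⌋₊ : ℝ) := by exact_mod_cast Nat.pow_log_le_self 2 hy0
      _ ≤ y := Nat.floor_le (by linarith)
  have h2 : y ≤ (2 : ℝ) ^ (l + 1) := by
    have h3 : ⌊y⌋₊ + 1 ≤ 2 ^ (l + 1) := Nat.lt_pow_succ_log_self (by norm_num) _
    calc y ≤ (⌊y⌋₊ : ℝ) + 1 := (Nat.lt_floor_add_one y).le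
      _ ≤ (2 : ℝ) ^ (l + 1) := by exact_mod_cast h3
  have h4 := hC.1 (EvI (fun x => x ^ κ) l) (C * (2 : ℝ) ^ (-(c * l))) X hX (by positivity)
    fun L _ => hP l L
  have hsub : {n : ℕ | 1 ≤ n ∧ (n : ℝ) ≤ X ∧ ¬ ((∃ k : ℕ, (T^[k] n : ℝ) < y) ∧ ∀ i j : ℕ, i ≤ j →
        (∀ k ≤ j, y ≤ (T^[k] n : ℝ)) → (T^[j] n : ℝ) < (T^[i] n : ℝ) ^ (1 + κ))} ⊆
      {n : ℕ | n ∈ EvI (fun x => x ^ κ) l ∧ 1 ≤ n ∧ (n : ℝ) ≤ X} := by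
    rintro n ⟨hn1, hnX, hn⟩
    refine ⟨?_, hn1, hnX⟩
    by_contra hcon
    refine hn ⟨?_, fun i j hij hk => ?_⟩
    · obtain ⟨k, hk⟩ := falls hcon
      refine ⟨k, lt_of_lt_of_le ?_ h1⟩
      exact_mod_cast hk
    · have h5 := det _ l n (gauge_rpow hκ) hcon i j hij fun k hkj => by
        have := h1.trans (hk k hkj)
        exact_mod_cast this
      rwa [show (T^[i] n : ℝ) * (T^[i] n : ℝ) ^ κ = (T^[i] n : ℝ) ^ (1 + κ) by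
        rw [Real.rpow_add (by linarith [T_iter_ge hn1 i]), Real.rpow_one]] at h5
  have hfin : {n : ℕ | n ∈ EvI (fun x => x ^ κ) l ∧ 1 ≤ n ∧ (n : ℝ) ≤ X}.Finite :=
    (Set.finite_Iic ⌊X⌋₊).subset fun n hn => Nat.le_floor hn.2.2
  have h6 : (({n : ℕ | 1 ≤ n ∧ (n : ℝ) ≤ X ∧ ¬ ((∃ k : ℕ, (T^[k] n : ℝ) < y) ∧ ∀ i j : ℕ, i ≤ j →
        (∀ k ≤ j, y ≤ (T^[k] n : ℝ)) → (T^[j] n : ℝ) < (T^[i] n : ℝ) ^ (1 + κ))}.ncard : ℕ) : ℝ) ≤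
      ct (EvI (fun x => x ^ κ) l) X := by
    unfold ct
    exact_mod_cast Set.ncard_le_ncard hsub hfin
  have h7 : (2 : ℝ) ^ (-(c * l)) ≤ 2 ^ c / y ^ c := by
    rw [le_div_iff₀ (Real.rpow_pos_of_pos (by linarith) _)]
    have h8 : y ^ c ≤ ((2 : ℝ) ^ (l + 1)) ^ c := Real.rpow_le_rpow (by linarith) h2 hc.le
    calc (2 : ℝ) ^ (-(c * l)) * y ^ c ≤ (2 : ℝ) ^ (-(c * l)) * ((2 : ℝ) ^ (l + 1)) ^ c := by gcongr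
      _ = (2 : ℝ) ^ c := by
        rw [← Real.rpow_natCast 2 (l + 1), ← Real.rpow_mul (by norm_num),
          ← Real.rpow_add (by norm_num)]
        congr 1
        push_cast
        ring
  calc _ ≤ ct (EvI (fun x => x ^ κ) l) X := h6
    _ ≤ 2 * (C * (2 : ℝ) ^ (-(c * l))) * X := h4
    _ ≤ 2 * (C * (2 ^ c / y ^ c)) * X := by gcongr
    _ = 2 * C * 2 ^ c * X / y ^ c := by ring

end Pool.Agent.Lib.MP_0a5adf_nt.WT
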