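import Pool.Agent.Lib.MP_0a5adf_nt.WT.Fin1
import Pool.Agent.Lib.MP_0a5adf_nt.XT.Uni

/-!
Theorem WT, parts (ii), (iii), (iv): from the rows LAW and IFF (helper38).
-/

set_option autoImplicit false

namespace Pool.Agent.Lib.MP_0a5adf_nt.WT

open Finset Pool.Agent.Lib.MP_0a5adf_nt.H89 Filter

/-! ## Counting -/

theorem ct_nonneg (B : Set ℕ) (X : ℝ) : 0 ≤ ct B X := by unfold ct; positivity

theorem ct_le (B : Set ℕ) {X : ℝ} (hX : 0 ≤ X) : ct B X ≤ X := by
  have h1 : {n : ℕ | n ∈ B ∧ 1 ≤ n ∧ (n : ℝ) ≤ X} ⊆ ((Icc 1 ⌊X⌋₊ : Finset ℕ) : Set ℕ) := by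
    rintro n ⟨-, h1, h2⟩
    simp only [coe_Icc, Set.mem_Icc]
    exact ⟨h1, Nat.le_floor h2⟩
  have h2 := Set.ncard_le_ncard h1 (finite_toSet _)
  rw [Set.ncard_coe_finset, Nat.card_Icc, Nat.add_sub_cancel] at h2
  calc ct B X ≤ (⌊X⌋₊ : ℝ) := by unfold ct; exact_mod_cast h2
    _ ≤ X := Nat.floor_le hX

theorem ct_mono {A B : Set ℕ} (h : A ⊆ B) (X : ℝ) : ct A X ≤ ct B X := by
  have hfin : {n : ℕ | n ∈ B ∧ 1 ≤ n ∧ (n : ℝ) ≤ X}.Finite :=
    (Set.finite_Iic ⌊X⌋₊).subset fun n hn => Nat.le_floor hn.2.2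
  have hsub : {n : ℕ | n ∈ A ∧ 1 ≤ n ∧ (n : ℝ) ≤ X} ⊆ {n : ℕ | n ∈ B ∧ 1 ≤ n ∧ (n : ℝ) ≤ X} :=
    fun n hn => ⟨h hn.1, hn.2⟩
  unfold ct
  exact_mod_cast Set.ncard_le_ncard hsub hfin

theorem HasD.unique {B : Set ℕ} {D D' : ℝ} (h : HasD B D) (h' : HasD B D') : D = D' :=
  tendsto_nhds_unique h h'

theorem HasD.nonneg {B : Set ℕ} {D : ℝ} (h : HasD B D) : 0 ≤ D := by
  refine ge_of_tendsto h ?_
  filter_upwards [eventually_gt_atTop (0 : ℝ)] with X hX
  exact div_nonneg (ct_nonneg B X) hX.le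

theorem HasD.le_one {B : Set ℕ} {D : ℝ} (h : HasD B D) : D ≤ 1 := by
  refine le_of_tendsto h ?_
  filter_upwards [eventually_gt_atTop (0 : ℝ)] with X hX
  exact (div_le_one hX).2 (ct_le B hX.le)

/-! ## The bounded trajectories -/

theorem Bdd_pos {D : ℝ} (h : HasD Bdd D) : 0 < D := by
  obtain ⟨c, hc, hU⟩ := XT.ucount
  have h1 : c ≤ D := by
    refine ge_of_tendsto h ?_
    filter_upwards [eventually_ge_atTop (1 : ℝ)] with X hX
    rw [le_div_iff₀ (by linarith)]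
    have h2 := XT.pre_count hU 1 le_rfl (by norm_num) X (by simpa using hX)
      {n : ℕ | n ∈ Bdd ∧ 1 ≤ n ∧ (n : ℝ) ≤ X} ?_ fun n hn => hn.2.2
    · simpa [ct] using h2
    · rintro n hn1 hnX ⟨k, hk⟩
      refine ⟨?_, hn1, hnX⟩
      -- the trajectory is bounded
      have h12 : ∀ j : ℕ, T^[j] 1 ≤ 2 := by
        have : ∀ j : ℕ, T^[j] 1 = 1 ∨ T^[j] 1 = 2 := by
          intro j
          induction j with
          | zero => left; rfl
          | succ j ih =>
            rw [Function.iterate_succ_apply']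
            rcases ih with h | h <;> rw [h]
            · right; rfl
            · left; rfl
        intro j
        rcases this j with h | h <;> omega
      refine ⟨(∑ j ∈ range (k + 1), T^[j] n) + 2, fun j => ?_⟩
      rcases Nat.lt_or_ge j (k + 1) with hj | hj
      · have h9 : T^[j] n ≤ ∑ j ∈ range (k + 1), T^[j] n :=
          single_le_sum (f := fun j => T^[j] n) (fun i _ => Nat.zero_le _) (mem_range.2 hj)
        omega
      · obtain ⟨i, rfl⟩ : ∃ i, j = i + k := ⟨j - k, by omega⟩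
        rw [Function.iterate_add_apply]
        have hk' : T^[k] n = 1 := hk
        rw [hk']
        have := h12 i
        omega
  linarith

/-! ## The law -/

/-- The density of `Tame ψ` (if it exists). -/
noncomputable def Fd (ψ : ℝ → ℝ) : ℝ := limUnder atTop (fun X : ℝ => ct (Tame ψ) X / X)

theorem Fd_eq {ψ : ℝ → ℝ} {F : ℝ} (h : HasD (Tame ψ) F) : Fd ψ = F := h.limUnder_eq

/-- The error term with `l = ⌈log X / 3⌉`. -/
theorem error_bound {C : ℝ} (hC : 0 < C) {ψ : ℝ → ℝ} (hψ : Gauge ψ)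
    (hS : Summable (fun b : ℕ => 1 / ψ (2 ^ b))) {F : ℝ} (hF : HasD (Tame ψ) F)
    (h : ∀ (X : ℝ) (l : ℕ), 2 ≤ X → 1 ≤ l → |ct (Tame ψ) X - F * X| ≤
        C * (X * (Real.log X ^ (-(1 / 38) : ℝ) + (l : ℝ) ^ (-(1 / 38) : ℝ) +
          ∑' b : ℕ, (if 8 * l / 10 ≤ b then 1 / ψ (2 ^ b) else 0)) + 4 ^ l)) (X : ℝ) (hX : 2 ≤ X) :
    |ct (Tame ψ) X - F * X| ≤ (7 * C + 2) * X * (Real.log X ^ (-(1 / 38) : ℝ) +
      ∑' b : ℕ, (if Real.log X / 4 ≤ (b : ℝ) then 1 / ψ (2 ^ b) else 0)) := by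
  have hlog : 0 < Real.log X := Real.log_pos (by linarith)
  have hψpos : ∀ b : ℕ, 0 < ψ (2 ^ b) := fun b => hψ.pos _ (one_le_pow₀ (by norm_num))
  have hS1 : ∀ P : ℕ → Prop, ∀ [DecidablePred P], Summable (fun b : ℕ => if P b then 1 / ψ (2 ^ b) else 0) := by
    intro P _
    refine Summable.of_nonneg_of_le (fun b => ?_) (fun b => ?_) hS
    · have := hψpos b
      split_ifs <;> positivity
    · have := hψpos b
      split_ifs
      · exact le_rfl
      · positivity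
  have htail : 0 ≤ ∑' b : ℕ, (if Real.log X / 4 ≤ (b : ℝ) then 1 / ψ (2 ^ b) else 0) :=
    tsum_nonneg fun b => by
      have := hψpos b
      split_ifs <;> positivity
  have hlp : 0 < Real.log X ^ (-(1 / 38) : ℝ) := Real.rpow_pos_of_pos hlog _
  rcases lt_or_ge (Real.log X) 60 with h60 | h60
  · -- trivial
    have h1 := ct_le (Tame ψ) (show 0 ≤ X by linarith)
    have h2 := ct_nonneg (Tame ψ) X
    have h3 := hF.nonneg
    have h4 := hF.le_one
    have h5 : |ct (Tame ψ) X - F * X| ≤ X := by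
      rw [abs_le]
      constructor <;> nlinarith
    have h6 : (1 : ℝ) / 2 ≤ Real.log X ^ (-(1 / 38) : ℝ) := by
      have h7 : (60 : ℝ) ^ (-(1 / 38) : ℝ) ≤ Real.log X ^ (-(1 / 38) : ℝ) :=
        Real.rpow_le_rpow_of_nonpos hlog h60.le (by norm_num)
      refine le_trans ?_ h7
      rw [Real.rpow_neg (by norm_num), one_div]
      refine inv_anti₀ (by positivity) ?_
      calc (60 : ℝ) ^ (1 / 38 : ℝ) ≤ ((2 : ℝ) ^ (38 : ℕ)) ^ (1 / 38 : ℝ) :=
            Real.rpow_le_rpow (by norm_num) (by norm_num) (by norm_num)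
        _ = 2 := by
          rw [← Real.rpow_natCast, ← Real.rpow_mul (by norm_num)]
          norm_num
    calc |ct (Tame ψ) X - F * X| ≤ X := h5
      _ = 2 * X * (1 / 2) := by ring
      _ ≤ (7 * C + 2) * X * (Real.log X ^ (-(1 / 38) : ℝ) +
        ∑' b : ℕ, (if Real.log X / 4 ≤ (b : ℝ) then 1 / ψ (2 ^ b) else 0)) := by
        gcongr
        · linarith
        · linarith
  · set l := ⌈Real.log X / 3⌉₊ with hl
    have hl1 : 1 ≤ l := Nat.ceil_pos.2 (by positivity)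
    have hl2 : Real.log X / 3 ≤ l := Nat.le_ceil _
    have hl3 : (l : ℝ) < Real.log X / 3 + 1 := Nat.ceil_lt_add_one (by positivity)
    have h1 := h X l hX hl1
    have h2 : (l : ℝ) ^ (-(1 / 38) : ℝ) ≤ 2 * Real.log X ^ (-(1 / 38) : ℝ) := by
      calc (l : ℝ) ^ (-(1 / 38) : ℝ) ≤ (Real.log X / 3) ^ (-(1 / 38) : ℝ) :=
            Real.rpow_le_rpow_of_nonpos (by positivity) hl2 (by norm_num)
        _ = (3 : ℝ) ^ (1 / 38 : ℝ) * Real.log X ^ (-(1 / 38) : ℝ) := by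
          rw [Real.div_rpow hlog.le (by norm_num), Real.rpow_neg (by norm_num : (0 : ℝ) ≤ 3),
            div_inv_eq_mul, mul_comm]
        _ ≤ 2 * Real.log X ^ (-(1 / 38) : ℝ) := by
          gcongr
          calc (3 : ℝ) ^ (1 / 38 : ℝ) ≤ ((2 : ℝ) ^ (38 : ℕ)) ^ (1 / 38 : ℝ) :=
                Real.rpow_le_rpow (by norm_num) (by norm_num) (by norm_num)
            _ = 2 := by
              rw [← Real.rpow_natCast, ← Real.rpow_mul (by norm_num)]
              norm_num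
    have h3 : ∑' b : ℕ, (if 8 * l / 10 ≤ b then 1 / ψ (2 ^ b) else 0) ≤
        ∑' b : ℕ, (if Real.log X / 4 ≤ (b : ℝ) then 1 / ψ (2 ^ b) else 0) := by
      refine Summable.tsum_le_tsum (fun b => ?_) (hS1 _) (hS1 _)
      have := hψpos b
      split_ifs with h4 h5
      · exact le_rfl
      · exfalso
        apply h5
        have h6 : (8 * l : ℝ) / 10 - 1 ≤ b := by
          have h7 : 8 * l ≤ 10 * b + 9 := by omega
          have h8 : (8 : ℝ) * l ≤ 10 * b + 9 := by exact_mod_cast h7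
          linarith
        linarith
      · positivity
      · exact le_rfl
    have h4 : (4 : ℝ) ^ l ≤ 4 * (X * Real.log X ^ (-(1 / 38) : ℝ)) := by
      have h5 : (4 : ℝ) ^ l ≤ 4 * X ^ (1 / 2 : ℝ) := by
        calc (4 : ℝ) ^ l = (4 : ℝ) ^ (l : ℝ) := (Real.rpow_natCast _ _).symm
          _ ≤ (4 : ℝ) ^ (Real.log X / 3 + 1) :=
            Real.rpow_le_rpow_of_exponent_le (by norm_num) hl3.le
          _ = 4 * (4 : ℝ) ^ (Real.log X / 3) := by
            rw [Real.rpow_add (by norm_num), Real.rpow_one, mul_comm]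
          _ ≤ 4 * X ^ (1 / 2 : ℝ) := by
            gcongr
            rw [Real.rpow_def_of_pos (by norm_num), Real.rpow_def_of_pos (by linarith)]
            refine Real.exp_le_exp.2 ?_
            have h6 : Real.log 4 ≤ 3 / 2 := by
              have h7 : Real.log 4 = 2 * Real.log 2 := by
                rw [show (4 : ℝ) = 2 ^ 2 by norm_num, Real.log_pow]
                norm_num
              rw [h7]
              have := Real.log_two_lt_d9
              linarith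
            nlinarith
      have h6 : Real.log X ^ (1 / 38 : ℝ) ≤ X ^ (1 / 2 : ℝ) := by
        calc Real.log X ^ (1 / 38 : ℝ) ≤ X ^ (1 / 38 : ℝ) :=
              Real.rpow_le_rpow hlog.le (by linarith [Real.log_le_sub_one_of_pos (show 0 < X by linarith)])
                (by norm_num)
          _ ≤ X ^ (1 / 2 : ℝ) := Real.rpow_le_rpow_of_exponent_le (by linarith) (by norm_num)
      calc (4 : ℝ) ^ l ≤ 4 * X ^ (1 / 2 : ℝ) := h5
        _ = 4 * (X ^ (1 / 2 : ℝ) * (Real.log X ^ (1 / 38 : ℝ) * Real.log X ^ (-(1 / 38) : ℝ))) := by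
          rw [← Real.rpow_add hlog]
          norm_num
        _ ≤ 4 * (X ^ (1 / 2 : ℝ) * (X ^ (1 / 2 : ℝ) * Real.log X ^ (-(1 / 38) : ℝ))) := by
          gcongr
        _ = 4 * (X * Real.log X ^ (-(1 / 38) : ℝ)) := by
          rw [← mul_assoc (X ^ (1 / 2 : ℝ)), ← Real.rpow_add (by linarith)]
          norm_num
    have hX0 : 0 < X := by linarith
    calc |ct (Tame ψ) X - F * X| ≤ _ := h1
      _ ≤ C * (X * (Real.log X ^ (-(1 / 38) : ℝ) + 2 * Real.log X ^ (-(1 / 38) : ℝ) +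
          ∑' b : ℕ, (if Real.log X / 4 ≤ (b : ℝ) then 1 / ψ (2 ^ b) else 0)) +
            4 * (X * Real.log X ^ (-(1 / 38) : ℝ))) := by gcongr
      _ = C * X * (7 * Real.log X ^ (-(1 / 38) : ℝ) +
          ∑' b : ℕ, (if Real.log X / 4 ≤ (b : ℝ) then 1 / ψ (2 ^ b) else 0)) := by ring
      _ ≤ _ := by
        have h8 : 0 < C * X := by positivity
        have h9 := mul_nonneg hX0.le htail
        have h10 := mul_nonneg hX0.le hlp.le
        have h11 := mul_nonneg h8.le htail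
        nlinarith

/-- The limit `λ → ∞`. -/
theorem limit_lam {C D : ℝ} (hC : 0 < C) {ψ : ℝ → ℝ} (hψ : Gauge ψ)
    (hS : Summable (fun b : ℕ => 1 / ψ (2 ^ b))) (hD : ∀ lam : ℝ, 0 < lam → Fd (fun x => lam * ψ x) ≤ D)
    (h : ∀ lam : ℝ, 0 < lam → ∀ l : ℕ, 1 ≤ l →
      (∀ m ∈ Bdd, 1 ≤ m → m < 2 ^ l → m ∈ Tame (fun x => lam * ψ x)) →
        D - Fd (fun x => lam * ψ x) ≤ C * ((l : ℝ) ^ (-(1 / 38) : ℝ) +
          ∑' b : ℕ, (if 8 * l / 10 ≤ b then 1 / (lam * ψ (2 ^ b)) else 0))) :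
    Tendsto (fun lam : ℝ => Fd (fun x => lam * ψ x)) atTop (nhds D) := by
  have hψpos : ∀ b : ℕ, 0 < ψ (2 ^ b) := fun b => hψ.pos _ (one_le_pow₀ (by norm_num))
  have h1pos : 0 < ψ 1 := hψ.pos 1 le_rfl
  rw [Metric.tendsto_atTop]
  intro ε hε
  -- choice of `l`
  have hlim : Tendsto (fun l : ℕ => C * (l : ℝ) ^ (-(1 / 38) : ℝ)) atTop (nhds (C * 0)) :=
    ((tendsto_rpow_neg_atTop (by norm_num : (0 : ℝ) < 1 / 38)).comp
      tendsto_natCast_atTop_atTop).const_mul C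
  rw [mul_zero] at hlim
  obtain ⟨l, hl1, hl⟩ := ((eventually_ge_atTop 1).and
    (hlim.eventually (gt_mem_nhds (half_pos hε)))).exists
  -- a common bound for the bounded trajectories from below `2 ^ l`
  have hR : ∃ R : ℕ, ∀ m ∈ Bdd, m < 2 ^ l → ∀ k, T^[k] m ≤ R := by
    classical
    have h2 : ∀ m : ℕ, ∃ R : ℕ, m ∈ Bdd → ∀ k, T^[k] m ≤ R := by
      intro m
      by_cases hm : m ∈ Bdd
      · obtain ⟨R, hR⟩ := hm
        exact ⟨R, fun _ => hR⟩
      · exact ⟨0, fun h => absurd h hm⟩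
    choose R hR using h2
    refine ⟨∑ m ∈ range (2 ^ l), R m, fun m hm hml k => (hR m hm k).trans ?_⟩
    exact single_le_sum (f := R) (fun i _ => Nat.zero_le _) (mem_range.2 hml)
  obtain ⟨R, hR⟩ := hR
  set S := ∑' b : ℕ, 1 / ψ (2 ^ b) with hSdef
  have hS0 : 0 ≤ S := tsum_nonneg fun b => by
    have := hψpos b
    positivity
  refine ⟨max (max 1 (R / ψ 1)) (2 * C * (S + 1) / ε), fun lam hlam => ?_⟩
  have hlam1 : 1 ≤ lam := ((le_max_left _ _).trans (le_max_left _ _)).trans hlam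
  have hlam0 : 0 < lam := by linarith
  have hlam2 : (R : ℝ) ≤ lam * ψ 1 := by
    rw [← div_le_iff₀ h1pos]
    exact ((le_max_right _ _).trans (le_max_left _ _)).trans hlam
  have hlam3 : 2 * C * (S + 1) / ε ≤ lam := (le_max_right _ _).trans hlam
  have h3 : ∀ m ∈ Bdd, 1 ≤ m → m < 2 ^ l → m ∈ Tame (fun x => lam * ψ x) := by
    intro m hm hm1 hml i j hij
    have h4 : (1 : ℝ) ≤ (T^[i] m : ℝ) := T_iter_ge hm1 i
    have h5 : ψ 1 ≤ ψ (T^[i] m) := hψ.mono _ _ le_rfl h4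
    calc (T^[j] m : ℝ) ≤ R := by exact_mod_cast hR m hm hml j
      _ ≤ lam * ψ 1 := hlam2
      _ ≤ lam * ψ (T^[i] m) := by gcongr
      _ = 1 * (lam * ψ (T^[i] m)) := by ring
      _ ≤ (T^[i] m : ℝ) * (lam * ψ (T^[i] m)) := by
        have : 0 ≤ lam * ψ (T^[i] m) := by
          have := hψ.pos _ h4
          positivity
        gcongr
  have h4 := h lam hlam0 l hl1 h3
  have h5 : ∑' b : ℕ, (if 8 * l / 10 ≤ b then 1 / (lam * ψ (2 ^ b)) else 0) ≤ S / lam := by
    rw [hSdef, ← tsum_div_const]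
    have hS' : Summable fun b : ℕ => 1 / ψ (2 ^ b) / lam := hS.div_const lam
    have h6 : ∀ b : ℕ, (if 8 * l / 10 ≤ b then 1 / (lam * ψ (2 ^ b)) else 0) ≤ 1 / ψ (2 ^ b) / lam := by
      intro b
      have := hψpos b
      split_ifs
      · rw [div_div, mul_comm]
      · positivity
    refine Summable.tsum_le_tsum h6 ?_ hS'
    refine Summable.of_nonneg_of_le (fun b => ?_) h6 hS'
    have := hψpos b
    split_ifs <;> positivity
  have h6 : C * (S / lam) < ε / 2 := by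
    rw [← mul_div_assoc, div_lt_iff₀ hlam0]
    rw [div_le_iff₀ hε] at hlam3
    nlinarith
  rw [Real.dist_eq, abs_lt]
  have h7 := hD lam hlam0
  have h8 : C * ((l : ℝ) ^ (-(1 / 38) : ℝ) +
      ∑' b : ℕ, (if 8 * l / 10 ≤ b then 1 / (lam * ψ (2 ^ b)) else 0)) ≤
      C * (l : ℝ) ^ (-(1 / 38) : ℝ) + C * (S / lam) := by
    rw [mul_add]
    gcongr
  constructor <;> linarith

end Pool.Agent.Lib.MP_0a5adf_nt.WT
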