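import Pool.Agent.Lib.MP_0a5adf_nt.WT.Fin2

/-!
Theorem WT, parts (ii), (iii), (iv): assembly from the rows LAW and IFF (helper38).
-/

set_option autoImplicit false

namespace Pool.Agent.Lib.MP_0a5adf_nt.WT

open Finset Pool.Agent.Lib.MP_0a5adf_nt.H89 Filter

/-- Parts (ii) and (iii). -/
theorem part_ii (hL : LawStatement) (hI : IffStatement) :
    ∃ (c C D : ℝ) (F : (ℝ → ℝ) → ℝ), 0 < c ∧ 0 < D ∧ HasD Bdd D ∧ ∀ ψ : ℝ → ℝ, Gauge ψ →
      Summable (fun b : ℕ => 1 / ψ (2 ^ b)) →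
        HasD (Tame ψ) (F ψ) ∧ F ψ ≤ D ∧
        (∀ X : ℝ, 2 ≤ X → |ct (Tame ψ) X - F ψ * X| ≤ C * X * (Real.log X ^ (-(1 / 38) : ℝ) +
          ∑' b : ℕ, (if Real.log X / 4 ≤ (b : ℝ) then 1 / ψ (2 ^ b) else 0))) ∧
        Tendsto (fun lam : ℝ => F (fun x => lam * ψ x)) atTop (nhds D) ∧
        (F ψ = 1 ↔ ∀ m j : ℕ, 1 ≤ m → ¬ 3 ∣ m → (T^[j] m : ℝ) ≤ m * ψ m) ∧
        ∀ m j : ℕ, 1 ≤ m → ¬ 3 ∣ m → m * ψ m < (T^[j] m : ℝ) → F ψ ≤ 1 - c / m := by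
  obtain ⟨C, hC, D, hD, hL⟩ := hL
  obtain ⟨c, hc, hI⟩ := hI
  refine ⟨c, 7 * C + 2, D, Fd, hc, Bdd_pos hD, hD, fun ψ hψ hS => ?_⟩
  obtain ⟨F, hF1, hF2, hF3, -⟩ := hL ψ hψ hS
  have hFd : Fd ψ = F := Fd_eq hF2
  rw [hFd]
  have hlam : ∀ lam : ℝ, 0 < lam → Summable (fun b : ℕ => 1 / (lam * ψ (2 ^ b))) := by
    intro lam hl
    refine (hS.div_const lam).congr fun b => ?_
    rw [div_div, mul_comm]
  refine ⟨hF2, hF1, error_bound hC hψ hS hF2 hF3, ?_, (hI ψ hψ hS F hF2).1, (hI ψ hψ hS F hF2).2⟩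
  refine limit_lam hC hψ hS (fun lam hl => ?_) fun lam hl l hl1 h => ?_
  · obtain ⟨F', h1, h2, -⟩ := hL _ (gauge_mul hψ hl) (hlam lam hl)
    rw [Fd_eq h2]
    exact h1
  · obtain ⟨F', h1, h2, -, h4⟩ := hL _ (gauge_mul hψ hl) (hlam lam hl)
    rw [Fd_eq h2]
    exact h4 l hl1 h

/-- Every term of the trajectory of `n` is at most `n` or a term of the trajectory of some
`m ≤ 2 n` prime to `3`. -/
theorem term_dichotomy (k : ℕ) : ∀ n : ℕ, 1 ≤ n → T^[k] n ≤ n ∨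
    ∃ m j : ℕ, 1 ≤ m ∧ ¬ 3 ∣ m ∧ m ≤ 2 * n ∧ T^[k] n = T^[j] m := by
  induction k with
  | zero => exact fun n _ => Or.inl le_rfl
  | succ k ih =>
    intro n hn
    rw [Function.iterate_succ_apply]
    by_cases h : n % 2 = 0
    · have hT : T n = n / 2 := by unfold T; rw [if_pos h]
      rw [hT]
      rcases ih (n / 2) (by omega) with h1 | ⟨m, j, h1, h2, h3, h4⟩
      · exact Or.inl (h1.trans (Nat.div_le_self _ _))
      · exact Or.inr ⟨m, j, h1, h2, by omega, h4⟩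
    · have hT : T n = (3 * n + 1) / 2 := by unfold T; rw [if_neg h]
      rw [hT]
      exact Or.inr ⟨(3 * n + 1) / 2, k, by omega, by omega, by omega, rfl⟩

/-- The gauge `λ x ^ θ`. -/
theorem gauge_pow {lam θ : ℝ} (hl : 0 < lam) (hθ : 0 < θ) : Gauge (fun x => lam * x ^ θ) :=
  gauge_mul (gauge_rpow hθ) hl

theorem summable_pow {lam θ : ℝ} (hθ : 0 < θ) :
    Summable (fun b : ℕ => 1 / (lam * ((2 : ℝ) ^ b) ^ θ)) := by
  have h1 : Summable fun b : ℕ => (((2 : ℝ) ^ θ)⁻¹) ^ b :=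
    summable_geometric_of_lt_one (by positivity) (inv_lt_one_of_one_lt₀
      (Real.one_lt_rpow (by norm_num) hθ))
  refine (h1.mul_left (1 / lam)).congr fun b => ?_
  rw [← Real.rpow_natCast 2 b, ← Real.rpow_mul (by norm_num), mul_comm (b : ℝ) θ,
    Real.rpow_mul (by norm_num), Real.rpow_natCast, inv_pow, one_div, one_div, mul_inv]

/-- Part (iv): powers. -/
theorem part_iv (hL : LawStatement) (hI : IffStatement) (θ : ℝ) (hθ : 0 < θ) :
    (∃ C : ℝ, ∀ n k : ℕ, 1 ≤ n → (T^[k] n : ℝ) ≤ C * (n : ℝ) ^ (1 + θ)) ↔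
      ∃ lam : ℝ, 0 < lam ∧ HasD (Tame (fun x => lam * x ^ θ)) 1 := by
  obtain ⟨C, hC, D, hD, hL⟩ := hL
  obtain ⟨c, hc, hI⟩ := hI
  constructor
  · rintro ⟨A, hA⟩
    have hl : 0 < max A 1 := lt_max_of_lt_right one_pos
    refine ⟨max A 1, hl, ?_⟩
    obtain ⟨F, hF1, hF2, -⟩ := hL _ (gauge_pow hl hθ) (summable_pow hθ)
    have h1 := (hI _ (gauge_pow hl hθ) (summable_pow hθ) F hF2).1
    have h2 : F = 1 := by
      rw [h1]
      intro m j hm _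
      have hm0 : (0 : ℝ) < m := by exact_mod_cast hm
      calc (T^[j] m : ℝ) ≤ A * (m : ℝ) ^ (1 + θ) := hA m j hm
        _ ≤ max A 1 * (m : ℝ) ^ (1 + θ) := by gcongr; exact le_max_left _ _
        _ = m * (max A 1 * (m : ℝ) ^ θ) := by
          rw [Real.rpow_add hm0, Real.rpow_one]
          ring
    rwa [h2] at hF2
  · rintro ⟨lam, hl, h⟩
    have h1 := (hI _ (gauge_pow hl hθ) (summable_pow hθ) 1 h).1.1 rfl
    refine ⟨max 1 (lam * 2 ^ (1 + θ)), fun n k hn => ?_⟩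
    have hn1 : (1 : ℝ) ≤ n := by exact_mod_cast hn
    rcases term_dichotomy k n hn with h2 | ⟨m, j, h2, h3, h4, h5⟩
    · calc (T^[k] n : ℝ) ≤ (n : ℝ) := by exact_mod_cast h2
        _ = 1 * (n : ℝ) ^ (1 : ℝ) := by rw [Real.rpow_one, one_mul]
        _ ≤ max 1 (lam * 2 ^ (1 + θ)) * (n : ℝ) ^ (1 + θ) := by
          have h6 : (n : ℝ) ^ (1 : ℝ) ≤ (n : ℝ) ^ (1 + θ) :=
            Real.rpow_le_rpow_of_exponent_le hn1 (by linarith)
          gcongr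
          exact le_max_left _ _
    · have hm0 : (0 : ℝ) < m := by exact_mod_cast h2
      rw [h5]
      calc (T^[j] m : ℝ) ≤ m * (lam * (m : ℝ) ^ θ) := h1 m j h2 h3
        _ = lam * (m : ℝ) ^ (1 + θ) := by
          rw [Real.rpow_add hm0, Real.rpow_one]
          ring
        _ ≤ lam * (2 * n : ℝ) ^ (1 + θ) := by
          have : (m : ℝ) ≤ 2 * n := by exact_mod_cast h4
          gcongr
        _ = (lam * 2 ^ (1 + θ)) * (n : ℝ) ^ (1 + θ) := by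
          rw [Real.mul_rpow (by norm_num) (by linarith)]
          ring
        _ ≤ max 1 (lam * 2 ^ (1 + θ)) * (n : ℝ) ^ (1 + θ) := by
          gcongr
          exact le_max_right _ _

end Pool.Agent.Lib.MP_0a5adf_nt.WT
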