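import Pool.Agent.Lib.MP_0a5adf_nt.WT.Fin3
import Pool.Agent.Lib.MP_0a5adf_nt.XT.Blocks

/-!
Theorem WT with `t(n)` as an extended real; the transfer principle (helper38).
-/

set_option autoImplicit false

namespace Pool.Agent.Lib.MP_0a5adf_nt.WT

open Finset Pool.Agent.Lib.MP_0a5adf_nt.H89 Filter

/-- The maximum excursion as an extended real. -/
noncomputable def tE (n : ℕ) : EReal := ⨆ k : ℕ, ((T^[k] n : ℝ) : EReal)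

/-- `t(m) ≤ m ψ(m)` for all terms `m` of the trajectory of `n`. -/
def AE (ψ : ℝ → ℝ) : Set ℕ := {n : ℕ | ∀ i : ℕ, tE (T^[i] n) ≤ ((T^[i] n * ψ (T^[i] n) : ℝ) : EReal)}

theorem tE_le_iff {n : ℕ} {x : ℝ} : tE n ≤ (x : EReal) ↔ ∀ k : ℕ, (T^[k] n : ℝ) ≤ x := by
  unfold tE
  rw [iSup_le_iff]
  exact forall_congr' fun k => EReal.coe_le_coe_iff

theorem lt_tE_iff {n : ℕ} {x : ℝ} : (x : EReal) < tE n ↔ ∃ k : ℕ, x < (T^[k] n : ℝ) := by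
  rw [← not_le, tE_le_iff]
  push Not
  rfl

theorem AE_eq (ψ : ℝ → ℝ) : AE ψ = Tame ψ := by
  ext n
  simp only [AE, Tame, Set.mem_ofPred_eq]
  constructor
  · intro h i j hij
    have h1 := tE_le_iff.1 (h i) (j - i)
    rwa [← Function.iterate_add_apply, Nat.sub_add_cancel hij] at h1
  · intro h i
    rw [tE_le_iff]
    intro k
    rw [← Function.iterate_add_apply]
    exact h i (k + i) (by omega)

/-- Parts (ii), (iii) with `tE`, `AE`. -/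
theorem partE_ii (hL : LawStatement) (hI : IffStatement) :
    ∃ (c C D : ℝ) (F : (ℝ → ℝ) → ℝ), 0 < c ∧ 0 < D ∧ HasD Bdd D ∧ ∀ ψ : ℝ → ℝ, Gauge ψ →
      Summable (fun b : ℕ => 1 / ψ (2 ^ b)) →
        HasD (AE ψ) (F ψ) ∧ F ψ ≤ D ∧
        (∀ X : ℝ, 2 ≤ X → |ct (AE ψ) X - F ψ * X| ≤ C * X * (Real.log X ^ (-(1 / 38) : ℝ) +
          ∑' b : ℕ, (if Real.log X / 4 ≤ (b : ℝ) then 1 / ψ (2 ^ b) else 0))) ∧
        Tendsto (fun lam : ℝ => F (fun x => lam * ψ x)) atTop (nhds D) ∧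
        (F ψ = 1 ↔ ∀ m : ℕ, 1 ≤ m → ¬ 3 ∣ m → tE m ≤ ((m * ψ m : ℝ) : EReal)) ∧
        ∀ m : ℕ, 1 ≤ m → ¬ 3 ∣ m → ((m * ψ m : ℝ) : EReal) < tE m → F ψ ≤ 1 - c / m := by
  obtain ⟨c, C, D, F, hc, hD, hB, h⟩ := part_ii hL hI
  refine ⟨c, C, D, F, hc, hD, hB, fun ψ hψ hS => ?_⟩
  obtain ⟨h1, h2, h3, h4, h5, h6⟩ := h ψ hψ hS
  rw [AE_eq]
  refine ⟨h1, h2, h3, h4, h5.trans ?_, fun m hm h3 hlt => ?_⟩
  · constructor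
    · intro h m hm h3
      rw [tE_le_iff]
      exact fun k => h m k hm h3
    · intro h m j hm h3
      exact tE_le_iff.1 (h m hm h3) j
  · obtain ⟨k, hk⟩ := lt_tE_iff.1 hlt
    exact h6 m k hm h3 hk

/-- Part (iv) with `tE`, `AE`. -/
theorem partE_iv (hL : LawStatement) (hI : IffStatement) (θ : ℝ) (hθ : 0 < θ) :
    (∃ C : ℝ, ∀ n : ℕ, 1 ≤ n → tE n ≤ ((C * (n : ℝ) ^ (1 + θ) : ℝ) : EReal)) ↔
      ∃ lam : ℝ, 0 < lam ∧ HasD (AE (fun x => lam * x ^ θ)) 1 := by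
  rw [show (∃ C : ℝ, ∀ n : ℕ, 1 ≤ n → tE n ≤ ((C * (n : ℝ) ^ (1 + θ) : ℝ) : EReal)) ↔
    ∃ C : ℝ, ∀ n k : ℕ, 1 ≤ n → (T^[k] n : ℝ) ≤ C * (n : ℝ) ^ (1 + θ) from
      exists_congr fun C => ⟨fun h n k hn => tE_le_iff.1 (h n hn) k,
        fun h n hn => tE_le_iff.2 fun k => h n k hn⟩, part_iv hL hI θ hθ]
  refine exists_congr fun lam => ?_
  rw [AE_eq]

/-! ## Part (v): one large excursion forces many -/

theorem tE_le_of_le {m n : ℕ} (hm : 1 ≤ m) (h : XT.t m ≤ XT.t n) : tE m ≤ tE n := by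
  unfold tE
  refine iSup_le fun k => ?_
  have h1 : ((T^[k] m : ℕ) : ℕ∞) ≤ XT.t n := (XT.le_t m k).trans h
  have h2 : ∃ j, T^[k] m ≤ T^[j] n := by
    by_contra hcon
    push Not at hcon
    have h3 : XT.t n ≤ ((T^[k] m - 1 : ℕ) : ℕ∞) := by
      refine iSup_le fun j => ?_
      have h4 : T^[j] n < T^[k] m := hcon j
      have h5 : (XT.T^[j] n : ℕ) ≤ T^[k] m - 1 := Nat.le_sub_one_of_lt h4
      exact_mod_cast h5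
    have h6 : ((T^[k] m : ℕ) : ℕ∞) ≤ ((T^[k] m - 1 : ℕ) : ℕ∞) := h1.trans h3
    have h7 : T^[k] m ≤ T^[k] m - 1 := by exact_mod_cast h6
    have h8 := T_iterate_pos hm k
    omega
  obtain ⟨j, hj⟩ := h2
  refine le_trans ?_ (le_iSup (fun k : ℕ => ((T^[k] n : ℝ) : EReal)) j)
  exact EReal.coe_le_coe_iff.2 (by exact_mod_cast hj)

theorem part_v : ∃ c : ℝ, 0 < c ∧ ∀ (m : ℕ) (X : ℝ), 1 ≤ m → (m : ℝ) ≤ X →
    c * X / m ≤ ({n : ℕ | 1 ≤ n ∧ (n : ℝ) ≤ X ∧ tE m ≤ tE n}.ncard : ℝ) := by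
  obtain ⟨c, hc, hkey⟩ := XT.key XT.ucount
  refine ⟨c, hc, fun m X hm hX => (hkey m X hm hX).trans ?_⟩
  have hfin : {n : ℕ | 1 ≤ n ∧ (n : ℝ) ≤ X ∧ tE m ≤ tE n}.Finite :=
    (Set.finite_Iic ⌊X⌋₊).subset fun n hn => Nat.le_floor hn.2.1
  have hsub : {n : ℕ | 1 ≤ n ∧ (n : ℝ) ≤ X ∧ XT.t m ≤ XT.t n} ⊆
      {n : ℕ | 1 ≤ n ∧ (n : ℝ) ≤ X ∧ tE m ≤ tE n} :=
    fun n hn => ⟨hn.1, hn.2.1, tE_le_of_le hm hn.2.2⟩
  unfold XT.N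
  exact_mod_cast Set.ncard_le_ncard hsub hfin

/-! ## Part (vi): from most `m` to all `n` -/

theorem part_vi (θ δ C K : ℝ) (hθ : 0 < θ) (hδ : 0 < δ) (hδ1 : δ ≤ 1)
    (h : ∀ X : ℕ, 1 ≤ X → ({m : ℕ | X ≤ m ∧ m < 2 * X ∧
      ((C * (m : ℝ) ^ θ : ℝ) : EReal) < tE m}.ncard : ℝ) ≤ K * (X : ℝ) ^ (1 - δ)) :
    ∃ C' : ℝ, ∀ n : ℕ, 1 ≤ n → tE n ≤ ((C' * (n : ℝ) ^ (θ / δ) : ℝ) : EReal) := by
  obtain ⟨c, hc, hkey⟩ := XT.key XT.ucount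
  obtain ⟨C', hC'⟩ := XT.transfer_blocks hc hkey θ δ C K hθ hδ hδ1 fun X hX => by
    refine le_trans ?_ (h X hX)
    have hfin : {m : ℕ | X ≤ m ∧ m < 2 * X ∧ ((C * (m : ℝ) ^ θ : ℝ) : EReal) < tE m}.Finite :=
      (Set.finite_lt_nat (2 * X)).subset fun m hm => hm.2.1
    have hsub : XT.Exc C θ X ⊆
        {m : ℕ | X ≤ m ∧ m < 2 * X ∧ ((C * (m : ℝ) ^ θ : ℝ) : EReal) < tE m} := by
      rintro m ⟨h1, h2, h3⟩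
      refine ⟨h1, h2, lt_tE_iff.2 ?_⟩
      unfold XT.t at h3
      rw [lt_iSup_iff] at h3
      obtain ⟨k, hk⟩ := h3
      refine ⟨k, ?_⟩
      have h4 : ⌊C * (m : ℝ) ^ θ⌋₊ < T^[k] m := by exact_mod_cast hk
      exact Nat.lt_of_floor_lt h4
    exact_mod_cast Set.ncard_le_ncard hsub hfin
  refine ⟨C', fun n hn => tE_le_iff.2 fun k => ?_⟩
  have h1 : ((T^[k] n : ℕ) : ℕ∞) ≤ ((⌊C' * (n : ℝ) ^ (θ / δ)⌋₊ : ℕ) : ℕ∞) :=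
    (XT.le_t n k).trans (hC' n hn)
  have h2 : T^[k] n ≤ ⌊C' * (n : ℝ) ^ (θ / δ)⌋₊ := by exact_mod_cast h1
  have h3 := T_iterate_pos hn k
  have h4 : ⌊C' * (n : ℝ) ^ (θ / δ)⌋₊ ≠ 0 := by omega
  exact (Nat.le_floor_iff' (by omega)).1 h2

end Pool.Agent.Lib.MP_0a5adf_nt.WT
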