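import Pool.Agent.Lib.MP_0a5adf_nt.WT.Fin4

/-!
Theorem WT, parts (i) (every gauge, uniformly) and (ii) (powers) with `BE` (helper38).
-/

set_option autoImplicit false

namespace Pool.Agent.Lib.MP_0a5adf_nt.WT

open Finset Pool.Agent.Lib.MP_0a5adf_nt.H89 Filter

/-- The `n` that do not fall below `y`, or violate the gauge `ψ` before. -/
def BE (ψ : ℝ → ℝ) (y : ℝ) : Set ℕ :=
  {n : ℕ | (∀ k : ℕ, y ≤ (T^[k] n : ℝ)) ∨ ∃ i j : ℕ, i ≤ j ∧ (∀ k ≤ j, y ≤ (T^[k] n : ℝ)) ∧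
    (T^[i] n * ψ (T^[i] n) : ℝ) ≤ T^[j] n}

theorem BE_subset {ψ : ℝ → ℝ} (hψ : Gauge ψ) {l : ℕ} {y : ℝ} (h : (2 : ℝ) ^ l ≤ y) :
    BE ψ y ⊆ EvI ψ l := by
  intro n hn
  by_contra hcon
  rcases hn with hn | ⟨i, j, hij, hk, hn⟩
  · obtain ⟨k, hk⟩ := falls hcon
    have h1 : (2 : ℝ) ^ l ≤ (T^[k] n : ℝ) := h.trans (hn k)
    have h2 : 2 ^ l ≤ T^[k] n := by exact_mod_cast h1
    omega
  · have h5 := det ψ l n hψ hcon i j hij fun k hkj => by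
      have := h.trans (hk k hkj)
      exact_mod_cast this
    exact absurd hn (not_le.2 h5)

/-- The strong form of UP. -/
def UpStrongStatement : Prop :=
  ∀ A : ℕ, ∃ C : ℝ, 0 < C ∧ ∀ (ψ : ℝ → ℝ) (l L : ℕ), Gauge ψ → 1 ≤ l →
    P L (EvI ψ l) ≤ C * (∑ b ∈ Icc l L, 1 / ψ (2 ^ b) + 1 / (l : ℝ) ^ A)

/-- Part (i). -/
theorem partE_i (hU : UpStrongStatement) (hC : CtsStatement) :
    ∀ A : ℕ, ∃ C : ℝ, 0 < C ∧ ∀ (ψ : ℝ → ℝ) (l K : ℕ) (X : ℝ), Gauge ψ → 1 ≤ l → 1 ≤ X → X ≤ 2 ^ K →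
      ct (BE ψ (2 ^ l)) X ≤ C * X * (1 / (l : ℝ) ^ A + ∑ b ∈ Icc l K, 1 / ψ (2 ^ b)) := by
  intro A
  obtain ⟨C, hC0, hU⟩ := hU A
  refine ⟨2 * C, by positivity, fun ψ l K X hψ hl hX hXK => ?_⟩
  have hψpos : ∀ b : ℕ, 0 < 1 / ψ (2 ^ b) := fun b => by
    have := hψ.pos (2 ^ b) (one_le_pow₀ (by norm_num))
    positivity
  have h4 := hC.1 (EvI ψ l) (C * (∑ b ∈ Icc l K, 1 / ψ (2 ^ b) + 1 / (l : ℝ) ^ A)) X hX
    (mul_nonneg hC0.le (add_nonneg (sum_nonneg fun b _ => (hψpos b).le) (by positivity)))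
    fun L hL => by
      refine (hU ψ l L hψ hl).trans ?_
      have hLK : L ≤ K := by
        have h1 : (2 : ℝ) ^ L ≤ 2 ^ K := hL.trans hXK
        exact (pow_le_pow_iff_right₀ (by norm_num)).1 h1
      gcongr
      exact fun b _ _ => (hψpos b).le
  calc ct (BE ψ (2 ^ l)) X ≤ ct (EvI ψ l) X := ct_mono (BE_subset hψ le_rfl) X
    _ ≤ 2 * (C * (∑ b ∈ Icc l K, 1 / ψ (2 ^ b) + 1 / (l : ℝ) ^ A)) * X := h4
    _ = 2 * C * X * (1 / (l : ℝ) ^ A + ∑ b ∈ Icc l K, 1 / ψ (2 ^ b)) := by ring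

/-- Part (ii). -/
theorem partE_i' (hP : PowStatement) (hC : CtsStatement) :
    ∀ κ : ℝ, 0 < κ → ∃ c C : ℝ, 0 < c ∧ 0 < C ∧ ∀ X y : ℝ, 1 ≤ X → 1 ≤ y →
      ct (BE (fun x => x ^ κ) y) X ≤ C * X / y ^ c := by
  intro κ hκ
  obtain ⟨c, C, hc, hC0, hP⟩ := hP κ hκ
  refine ⟨c, 2 * C * 2 ^ c, hc, by positivity, fun X y hX hy => ?_⟩
  set l := Nat.log 2 ⌊y⌋₊ with hl
  have hy0 : ⌊y⌋₊ ≠ 0 := (Nat.floor_pos.2 hy).ne'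
  have h1 : (2 : ℝ) ^ l ≤ y := by
    calc (2 : ℝ) ^ l ≤ (⌊y⌋₊ : ℝ) := by exact_mod_cast Nat.pow_log_le_self 2 hy0
      _ ≤ y := Nat.floor_le (by linarith)
  have h2 : y ≤ (2 : ℝ) ^ (l + 1) := by
    have h3 : ⌊y⌋₊ + 1 ≤ 2 ^ (l + 1) := Nat.lt_pow_succ_log_self (by norm_num) _
    calc y ≤ (⌊y⌋₊ : ℝ) + 1 := (Nat.lt_floor_add_one y).le
      _ ≤ (2 : ℝ) ^ (l + 1) := by exact_mod_cast h3
  have h4 := hC.1 (EvI (fun x => x ^ κ) l) (C * (2 : ℝ) ^ (-(c * l))) X hX (by positivity)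
    fun L _ => hP l L
  have h7 : (2 : ℝ) ^ (-(c * l)) ≤ 2 ^ c / y ^ c := by
    rw [le_div_iff₀ (Real.rpow_pos_of_pos (by linarith) _)]
    have h8 : y ^ c ≤ ((2 : ℝ) ^ (l + 1)) ^ c := Real.rpow_le_rpow (by linarith) h2 hc.le
    calc (2 : ℝ) ^ (-(c * l)) * y ^ c ≤ (2 : ℝ) ^ (-(c * l)) * ((2 : ℝ) ^ (l + 1)) ^ c := by gcongr
      _ = (2 : ℝ) ^ c := by
        rw [← Real.rpow_natCast 2 (l + 1), ← Real.rpow_mul (by norm_num),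
          ← Real.rpow_add (by norm_num)]
        congr 1
        push_cast
        ring
  calc _ ≤ ct (EvI (fun x => x ^ κ) l) X := ct_mono (BE_subset (gauge_rpow hκ) h1) X
    _ ≤ 2 * (C * (2 : ℝ) ^ (-(c * l))) * X := h4
    _ ≤ 2 * (C * (2 ^ c / y ^ c)) * X := by gcongr
    _ = 2 * C * 2 ^ c * X / y ^ c := by ring

end Pool.Agent.Lib.MP_0a5adf_nt.WT
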