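import Pool.Agent.Lib.MP_0a5adf_nt.WT.Defs
import Pool.Agent.Lib.MP_0a5adf_nt.XT.Base

/-!
# The support of the limit law (row IFF of the whole trajectories, helper12)

`Tame ψ` has density `1` if and only if `t(m) ≤ m ψ(m)` for all `m` prime to `3`; a failure at such
an `m` costs the proportion `c / m`.
-/

set_option autoImplicit false

namespace Pool.Agent.Lib.MP_0a5adf_nt.WT

open Finset Filter Pool.Agent.Lib.MP_0a5adf_nt.H89 Pool.Agent.Lib.MP_edb5be_nt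

theorem T_eq_XT : (H89.T : ℕ → ℕ) = XT.T := rfl

theorem ct_finite (B : Set ℕ) (X : ℝ) : {n : ℕ | n ∈ B ∧ 1 ≤ n ∧ (n : ℝ) ≤ X}.Finite :=
  (Set.finite_Iic ⌊X⌋₊).subset fun _ hn => Nat.le_floor hn.2.2

theorem ct_add_compl (B : Set ℕ) {X : ℝ} (hX : 0 ≤ X) : ct B X + ct Bᶜ X = (⌊X⌋₊ : ℝ) := by
  unfold ct
  rw [← Nat.cast_add, ← Set.ncard_union_eq ?_ (ct_finite B X) (ct_finite Bᶜ X)]
  · have h : {n : ℕ | n ∈ B ∧ 1 ≤ n ∧ (n : ℝ) ≤ X} ∪ {n : ℕ | n ∈ Bᶜ ∧ 1 ≤ n ∧ (n : ℝ) ≤ X} =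
        ((Icc 1 ⌊X⌋₊ : Finset ℕ) : Set ℕ) := by
      ext n
      simp only [Set.mem_union, Set.mem_ofPred_eq, Set.mem_compl_iff, mem_coe, mem_Icc]
      constructor
      · rintro (⟨_, h1, h2⟩ | ⟨_, h1, h2⟩) <;> exact ⟨h1, Nat.le_floor h2⟩
      · rintro ⟨h1, h2⟩
        have h3 : (n : ℝ) ≤ X := (Nat.le_floor_iff hX).1 h2
        by_cases h : n ∈ B
        · exact Or.inl ⟨h, h1, h3⟩
        · exact Or.inr ⟨h, h1, h3⟩
    rw [h, Set.ncard_coe_finset, Nat.card_Icc]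
    simp
  · rw [Set.disjoint_left]
    rintro n ⟨h1, _⟩ ⟨h2, _⟩
    exact h2 h1

theorem T_pos {n : ℕ} (h : 1 ≤ n) : 1 ≤ T n := by
  unfold T
  split_ifs <;> omega

theorem iter_pos {n : ℕ} (h : 1 ≤ n) (k : ℕ) : 1 ≤ T^[k] n := by
  induction k with
  | zero => exact h
  | succ k ih => rw [Function.iterate_succ_apply']; exact T_pos ih

/-- A term divisible by `3` is preceded by halvings only. -/
theorem eq_of_three_dvd (i n : ℕ) (h : 3 ∣ T^[i] n) : n = 2 ^ i * T^[i] n := by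
  induction i with
  | zero => simp
  | succ i ih =>
    rw [Function.iterate_succ_apply'] at h ⊢
    set y := T^[i] n with hy
    have h1 : y = 2 * T y := by
      unfold T at h ⊢
      split_ifs at h ⊢ with h2
      · omega
      · omega
    have h3 : 3 ∣ y := by omega
    have h4 := ih h3
    rw [pow_succ, mul_assoc, ← h1]
    exact h4

/-- The numbers `2 ^ i * x`, `x < 2 ^ l`. -/
def Ex (l : ℕ) : Set ℕ := {n : ℕ | ∃ i x : ℕ, x < 2 ^ l ∧ n = 2 ^ i * x}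

theorem ct_Ex_le (l : ℕ) {X : ℝ} (hX : 1 ≤ X) :
    ct (Ex l) X ≤ 2 ^ l * (Real.log X / Real.log 2 + 1) := by
  have hX0 : 0 ≤ X := by linarith
  set N := ⌊X⌋₊ with hN
  have hN1 : 1 ≤ N := (Nat.le_floor_iff hX0).2 (by simpa using hX)
  have h1 : {n : ℕ | n ∈ Ex l ∧ 1 ≤ n ∧ (n : ℝ) ≤ X} ⊆
      (((range (Nat.log 2 N + 1)) ×ˢ (range (2 ^ l))).image (fun p : ℕ × ℕ => 2 ^ p.1 * p.2) :
        Finset ℕ) := by
    rintro n ⟨⟨i, x, hx, rfl⟩, h2, h3⟩
    rw [mem_coe, mem_image]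
    refine ⟨(i, x), ?_, rfl⟩
    rw [mem_product, mem_range, mem_range]
    refine ⟨?_, hx⟩
    have hx0 : 1 ≤ x := by
      rcases Nat.eq_zero_or_pos x with h | h
      · subst h; simp at h2
      · exact h
    have h4 : 2 ^ i * x ≤ N := Nat.le_floor h3
    have h5 : 2 ^ i ≤ N := le_trans (Nat.le_mul_of_pos_right _ hx0) h4
    have h6 : i ≤ Nat.log 2 N := Nat.le_log_of_pow_le (by norm_num) h5
    show i < Nat.log 2 N + 1
    omega
  have h2 := Set.ncard_le_ncard h1 (Finset.finite_toSet _)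
  rw [Set.ncard_coe_finset] at h2
  have h3 : (((range (Nat.log 2 N + 1)) ×ˢ (range (2 ^ l))).image
      (fun p : ℕ × ℕ => 2 ^ p.1 * p.2)).card ≤ (Nat.log 2 N + 1) * 2 ^ l := by
    refine card_image_le.trans ?_
    rw [card_product, card_range, card_range]
  have h4 : ct (Ex l) X ≤ (((Nat.log 2 N + 1) * 2 ^ l : ℕ) : ℝ) := by
    unfold ct
    exact_mod_cast h2.trans h3
  have h5 : ((Nat.log 2 N : ℕ) : ℝ) ≤ Real.log X / Real.log 2 := by
    rw [le_div_iff₀ (Real.log_pos (by norm_num)), ← Real.log_pow]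
    refine Real.log_le_log (by positivity) ?_
    have h6 : 2 ^ Nat.log 2 N ≤ N := Nat.pow_log_le_self 2 (by omega)
    have h7 : ((2 ^ Nat.log 2 N : ℕ) : ℝ) ≤ N := by exact_mod_cast h6
    have h8 : (N : ℝ) ≤ X := Nat.floor_le hX0
    push_cast at h7
    linarith
  refine h4.trans ?_
  push_cast
  have h9 : (0 : ℝ) ≤ 2 ^ l := by positivity
  nlinarith

/-- Outside `Tame ψ`: in `EvI ψ l` or in `Ex l`, if the inequality holds prime to `3`. -/
theorem compl_tame_subset (hDec : DecStatement) {ψ : ℝ → ℝ} (hψ : Gauge ψ) (l : ℕ)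
    (h : ∀ m j : ℕ, 1 ≤ m → ¬ 3 ∣ m → (T^[j] m : ℝ) ≤ m * ψ m) {n : ℕ} (hn : 1 ≤ n)
    (hT : n ∉ Tame ψ) : n ∈ EvI ψ l ∨ n ∈ Ex l := by
  by_cases h1 : n ∈ EvI ψ l
  · exact Or.inl h1
  right
  by_cases h2 : n ∈ Hs ψ l
  · obtain ⟨i, j, hij, h3, h4⟩ := h2
    refine ⟨i, T^[i] n, h3, ?_⟩
    apply eq_of_three_dvd
    by_contra h5
    have h6 := h (T^[i] n) (j - i) (iter_pos hn i) h5
    rw [← Function.iterate_add_apply, Nat.sub_add_cancel hij] at h6
    linarith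
  · exact absurd ((hDec ψ l n hψ hn).1 h1 h2) hT

/-- The bound for `EvI ψ l` in terms of the tail of the series. -/
theorem ct_EvI_le {C : ℝ} (hC : 0 < C) {ψ : ℝ → ℝ} (hψ : Gauge ψ)
    (hUp : ∀ (l L : ℕ), 1 ≤ l →
      P L (EvI ψ l) ≤ C * (∑ b ∈ Icc (8 * l / 10) L, 1 / ψ (2 ^ b) + (l : ℝ) ^ (-(1 / 38) : ℝ)))
    (hCts : CtsStatement) (hS : Summable (fun b : ℕ => 1 / ψ (2 ^ b))) {l : ℕ} (hl : 1 ≤ l)
    {X : ℝ} (hX : 1 ≤ X) :
    ct (EvI ψ l) X ≤ 2 * (C * ((∑' b : ℕ, 1 / ψ (2 ^ (b + 8 * l / 10))) +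
      (l : ℝ) ^ (-(1 / 38) : ℝ))) * X := by
  have hpos : ∀ b : ℕ, 0 ≤ 1 / ψ (2 ^ b) := fun b =>
    (one_div_pos.2 (hψ.pos _ (one_le_pow₀ (by norm_num)))).le
  have hS' : Summable (fun b : ℕ => 1 / ψ (2 ^ (b + 8 * l / 10))) :=
    (summable_nat_add_iff (8 * l / 10) (f := fun b : ℕ => 1 / ψ (2 ^ b))).2 hS
  refine hCts.1 (EvI ψ l) _ X hX ?_ ?_
  · have h1 : 0 ≤ ∑' b : ℕ, 1 / ψ (2 ^ (b + 8 * l / 10)) := tsum_nonneg fun b => hpos _
    have h2 : 0 ≤ (l : ℝ) ^ (-(1 / 38) : ℝ) := by positivity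
    positivity
  · intro L _
    refine (hUp l L hl).trans ?_
    refine mul_le_mul_of_nonneg_left ?_ hC.le
    gcongr
    have h3 : ∑ b ∈ Icc (8 * l / 10) L, 1 / ψ (2 ^ b) =
        ∑ b ∈ range (L + 1 - 8 * l / 10), 1 / ψ (2 ^ (b + 8 * l / 10)) := by
      rw [← Finset.Ico_add_one_right_eq_Icc, Finset.sum_Ico_eq_sum_range]
      refine Finset.sum_congr rfl fun b _ => ?_
      rw [add_comm]
    rw [h3]
    exact hS'.sum_le_tsum _ fun b _ => hpos _

theorem tendsto_Ex (l : ℕ) : Tendsto (fun X : ℝ => (1 + 2 ^ l * (Real.log X / Real.log 2 + 1)) / X)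
    atTop (nhds 0) := by
  have h1 : Tendsto (fun X : ℝ => Real.log X / X) atTop (nhds 0) := by
    have := Real.isLittleO_log_id_atTop.tendsto_div_nhds_zero
    simpa using this
  have h2 : Tendsto (fun X : ℝ => 1 / X) atTop (nhds 0) := by
    simpa using tendsto_inv_atTop_zero (𝕜 := ℝ)
  have h3 : Tendsto (fun X : ℝ => (1 + 2 ^ l) * (1 / X) + 2 ^ l / Real.log 2 * (Real.log X / X))
      atTop (nhds ((1 + 2 ^ l) * 0 + 2 ^ l / Real.log 2 * 0)) :=
    (h2.const_mul _).add (h1.const_mul _)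
  rw [mul_zero, mul_zero, add_zero] at h3
  refine h3.congr fun X => ?_
  ring

/-- **Row IFF**. -/
theorem iff_ (hU : PD.UCountStatement) (hDec : DecStatement) (hUp : UpStatement) (hCts : CtsStatement) : IffStatement := by
  obtain ⟨c, hc, hU⟩ := hU
  refine ⟨c, hc, fun ψ hψ hS F hF => ?_⟩
  have key : ∀ m j : ℕ, 1 ≤ m → ¬ 3 ∣ m → m * ψ m < (T^[j] m : ℝ) → F ≤ 1 - c / m := by
    intro m j hm h3 hlt
    have hm0 : (0 : ℝ) < m := by exact_mod_cast hm
    refine le_of_tendsto hF ?_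
    filter_upwards [eventually_ge_atTop (m : ℝ)] with X hX
    have hX0 : 0 < X := lt_of_lt_of_le hm0 hX
    have h1 := ct_add_compl (Tame ψ) hX0.le
    have h2 : c * X / m ≤ ct (Tame ψ)ᶜ X := by
      unfold ct
      refine XT.pre_count hU m hm h3 X hX _ ?_ ?_
      · rintro n hn1 hn2 ⟨k, hk⟩
        refine ⟨?_, hn1, hn2⟩
        intro hT
        have h4 : T^[k] n = m := hk
        have h5 := hT k (j + k) (by omega)
        rw [Function.iterate_add_apply, h4] at h5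
        linarith
      · exact fun n hn => hn.2.2
    have h6 : (⌊X⌋₊ : ℝ) ≤ X := Nat.floor_le hX0.le
    rw [div_le_iff₀ hX0]
    have h7 : (1 - c / m) * X = X - c * X / m := by ring
    rw [h7]
    linarith
  refine ⟨⟨fun h1 m j hm h3 => ?_, fun h => ?_⟩, key⟩
  · by_contra hcon
    push Not at hcon
    have h2 := key m j hm h3 hcon
    have hm0 : (0 : ℝ) < m := by exact_mod_cast hm
    have h4 : 0 < c / m := by positivity
    linarith
  · obtain ⟨C, hC, hUp⟩ := hUp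
    have hle : F ≤ 1 := by
      refine le_of_tendsto hF ?_
      filter_upwards [eventually_gt_atTop (0 : ℝ)] with X hX
      have h1 := ct_add_compl (Tame ψ) hX.le
      have h2 : 0 ≤ ct (Tame ψ)ᶜ X := Nat.cast_nonneg _
      have h6 : (⌊X⌋₊ : ℝ) ≤ X := Nat.floor_le hX.le
      rw [div_le_iff₀ hX]
      linarith
    refine le_antisymm hle ?_
    -- for every `l`
    have hl : ∀ l : ℕ, 1 ≤ l → 1 - 2 * (C * ((∑' b : ℕ, 1 / ψ (2 ^ (b + 8 * l / 10))) +
        (l : ℝ) ^ (-(1 / 38) : ℝ))) ≤ F := by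
      intro l hl
      set ε : ℝ := 2 * (C * ((∑' b : ℕ, 1 / ψ (2 ^ (b + 8 * l / 10))) +
        (l : ℝ) ^ (-(1 / 38) : ℝ))) with hε
      have hlim : Tendsto (fun X : ℝ => 1 - ε -
          (1 + 2 ^ l * (Real.log X / Real.log 2 + 1)) / X) atTop (nhds (1 - ε - 0)) :=
        tendsto_const_nhds.sub (tendsto_Ex l)
      rw [sub_zero] at hlim
      refine le_of_tendsto_of_tendsto hlim hF ?_
      filter_upwards [eventually_ge_atTop (1 : ℝ)] with X hX
      have hX0 : 0 < X := by linarith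
      have h1 := ct_add_compl (Tame ψ) hX0.le
      have h2 := ct_EvI_le hC hψ (fun l L hl => hUp ψ l L hψ hl) hCts hS hl hX
      have h3 := ct_Ex_le l hX
      have h4 : ct (Tame ψ)ᶜ X ≤ ct (EvI ψ l) X + ct (Ex l) X := by
        unfold ct
        have hsub : {n : ℕ | n ∈ (Tame ψ)ᶜ ∧ 1 ≤ n ∧ (n : ℝ) ≤ X} ⊆
            {n : ℕ | n ∈ EvI ψ l ∧ 1 ≤ n ∧ (n : ℝ) ≤ X} ∪
              {n : ℕ | n ∈ Ex l ∧ 1 ≤ n ∧ (n : ℝ) ≤ X} := by
          rintro n ⟨h5, h6, h7⟩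
          rcases compl_tame_subset hDec hψ l h h6 h5 with h8 | h8
          · exact Or.inl ⟨h8, h6, h7⟩
          · exact Or.inr ⟨h8, h6, h7⟩
        have h8 := (Set.ncard_le_ncard hsub ((ct_finite _ X).union (ct_finite _ X))).trans
          (Set.ncard_union_le _ _)
        exact_mod_cast h8
      have h6 : X - 1 ≤ (⌊X⌋₊ : ℝ) := by
        have := Nat.lt_floor_add_one X
        linarith
      have h9 : 1 - ε - (1 + 2 ^ l * (Real.log X / Real.log 2 + 1)) / X =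
          ((1 - ε) * X - (1 + 2 ^ l * (Real.log X / Real.log 2 + 1))) / X := by
        field_simp
      rw [h9]
      refine div_le_div_of_nonneg_right ?_ hX0.le
      have h10 : (1 - ε) * X = X - ε * X := by ring
      rw [h10]
      linarith
    -- the limit `l → ∞`
    have h1 : Tendsto (fun k : ℕ => ∑' b : ℕ, 1 / ψ (2 ^ (b + k))) atTop (nhds 0) :=
      tendsto_sum_nat_add (fun b : ℕ => 1 / ψ (2 ^ b))
    have h2 : Tendsto (fun l : ℕ => 8 * l / 10) atTop atTop := by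
      refine tendsto_atTop_mono (fun l => ?_) (Nat.tendsto_div_const_atTop (by norm_num : (2:ℕ) ≠ 0))
      omega
    have h3 : Tendsto (fun l : ℕ => (l : ℝ) ^ (-(1 / 38) : ℝ)) atTop (nhds 0) :=
      (tendsto_rpow_neg_atTop (by norm_num)).comp tendsto_natCast_atTop_atTop
    have h4 : Tendsto (fun l : ℕ => 1 - 2 * (C * ((∑' b : ℕ, 1 / ψ (2 ^ (b + 8 * l / 10))) +
        (l : ℝ) ^ (-(1 / 38) : ℝ)))) atTop (nhds (1 - 2 * (C * (0 + 0)))) :=
      tendsto_const_nhds.sub ((((h1.comp h2).add h3).const_mul C).const_mul 2)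
    have h5 : (1 : ℝ) - 2 * (C * (0 + 0)) = 1 := by ring
    rw [h5] at h4
    refine le_of_tendsto h4 ?_
    filter_upwards [eventually_ge_atTop 1] with l hl1
    exact hl l hl1

end Pool.Agent.Lib.MP_0a5adf_nt.WT
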