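import Pool.Agent.Lib.MP_0a5adf_nt.WT.Defs

/-!
Rows INV and HIN: invariance.
-/

set_option autoImplicit false

namespace Pool.Agent.Lib.MP_0a5adf_nt.WT

open Finset Pool.Agent.Lib.MP_0a5adf_nt.H89

theorem FP_succ_iff {n l i : ℕ} (hn : 2 ^ l ≤ n) : FP n l (i + 1) ↔ FP (T n) l i := by
  constructor
  · intro h
    refine ⟨h.1, fun j hj => ?_⟩
    exact h.2 (j + 1) (by omega)
  · intro h
    refine ⟨h.1, fun j hj => ?_⟩
    cases j with
    | zero => exact hn
    | succ j => exact h.2 j (by omega)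

theorem inv : InvStatement := by
  intro ψ l lo n hn
  constructor
  · rintro ⟨b, hlb, hb, i, hi, hS⟩
    have hn' : 2 ^ (b + 1) ≤ n := le_trans (Nat.pow_le_pow_right (by norm_num) hb) hn
    cases i with
    | zero =>
      exact absurd hi.1 (not_lt.2 hn')
    | succ i => exact ⟨b, hlb, hb, i, (FP_succ_iff hn').1 hi, hS⟩
  · rintro ⟨b, hlb, hb, i, hi, hS⟩
    have hn' : 2 ^ (b + 1) ≤ n := le_trans (Nat.pow_le_pow_right (by norm_num) hb) hn
    exact ⟨b, hlb, hb, i + 1, (FP_succ_iff hn').2 hi, hS⟩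

theorem hin : HinStatement := by
  refine ⟨fun ψ l n hn => ⟨?_, ?_⟩, fun n _ => ⟨?_, ?_⟩⟩
  · rintro ⟨i, j, hij, h1, h2⟩
    cases i with
    | zero => exact absurd h1 (not_lt.2 hn)
    | succ i =>
      cases j with
      | zero => omega
      | succ j => exact ⟨i, j, by omega, h1, h2⟩
  · rintro ⟨i, j, hij, h1, h2⟩
    exact ⟨i + 1, j + 1, by omega, h1, h2⟩
  · rintro ⟨R, hR⟩
    exact ⟨R, fun k => hR (k + 1)⟩
  · rintro ⟨R, hR⟩
    refine ⟨max n R, fun k => ?_⟩
    cases k with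
    | zero => exact le_max_left _ _
    | succ k => exact le_trans (hR k) (le_max_right _ _)

end Pool.Agent.Lib.MP_0a5adf_nt.WT
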