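import Pool.Agent.Lib.MP_0a5adf_nt.WT.Blk
import Pool.Agent.Lib.MP_0a5adf_nt.WT.Dec

/-!
# Row LAW (MP_0a5adf_nt WT): the limit law for a gauge (helper25)
-/

set_option autoImplicit false

namespace Pool.Agent.Lib.MP_0a5adf_nt.WT.LawB

open Finset Pool.Agent.Lib.MP_0a5adf_nt.H89 Filter Topology

/-- The tail. -/
noncomputable def tl (f : ℕ → ℝ) (l : ℕ) : ℝ := ∑' b : ℕ, (if 8 * l / 10 ≤ b then f b else 0)

theorem tsum_ite (f : ℕ → ℝ) (hf : Summable f) (m : ℕ) :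
    Summable (fun b : ℕ => if m ≤ b then f b else 0) ∧
      ∑' b : ℕ, (if m ≤ b then f b else 0) = ∑' k : ℕ, f (k + m) := by
  have h1 : Summable (fun b : ℕ => if m ≤ b then f b else 0) := by
    rw [← summable_nat_add_iff m]
    have : (fun k : ℕ => if m ≤ k + m then f (k + m) else 0) = fun k : ℕ => f (k + m) := by
      funext k
      rw [if_pos (by omega)]
    rw [this]
    exact (summable_nat_add_iff m).2 hf
  refine ⟨h1, ?_⟩
  rw [← h1.sum_add_tsum_nat_add m]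
  have h2 : ∑ i ∈ range m, (if m ≤ i then f i else 0) = 0 := by
    apply Finset.sum_eq_zero
    intro i hi
    rw [if_neg (by have := Finset.mem_range.1 hi; omega)]
  rw [h2, zero_add]
  apply tsum_congr
  intro k
  rw [if_pos (by omega)]

theorem tl_nonneg (f : ℕ → ℝ) (h0 : ∀ b, 0 ≤ f b) (l : ℕ) : 0 ≤ tl f l := by
  apply tsum_nonneg
  intro b
  split_ifs
  · exact h0 b
  · exact le_rfl

theorem tl_anti (f : ℕ → ℝ) (h0 : ∀ b, 0 ≤ f b) (hf : Summable f) {l l' : ℕ} (h : l ≤ l') :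
    tl f l' ≤ tl f l := by
  unfold tl
  apply (tsum_ite f hf _).1.tsum_le_tsum _ (tsum_ite f hf _).1
  intro b
  have : 8 * l / 10 ≤ 8 * l' / 10 := Nat.div_le_div_right (by omega)
  split_ifs with h1 h2
  · exact le_rfl
  · omega
  · exact h0 b
  · exact le_rfl

theorem sum_le_tl (f : ℕ → ℝ) (h0 : ∀ b, 0 ≤ f b) (hf : Summable f) (l L : ℕ) :
    ∑ b ∈ Icc (8 * l / 10) L, f b ≤ tl f l := by
  unfold tl
  calc ∑ b ∈ Icc (8 * l / 10) L, f b
      = ∑ b ∈ Icc (8 * l / 10) L, (if 8 * l / 10 ≤ b then f b else 0) := by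
        apply Finset.sum_congr rfl
        intro b hb
        rw [if_pos (Finset.mem_Icc.1 hb).1]
    _ ≤ _ := by
        apply (tsum_ite f hf _).1.sum_le_tsum
        intro b _
        split_ifs
        · exact h0 b
        · exact le_rfl

theorem tl_tendsto (f : ℕ → ℝ) (hf : Summable f) : Tendsto (fun l => tl f l) atTop (𝓝 0) := by
  have h1 : (fun l => tl f l) = fun l => ∑' k : ℕ, f (k + 8 * l / 10) := by
    funext l
    exact (tsum_ite f hf _).2
  rw [h1]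
  have h2 := tendsto_sum_nat_add f
  have h3 : Tendsto (fun l : ℕ => 8 * l / 10) atTop atTop := by
    apply tendsto_atTop.2
    intro m
    filter_upwards [eventually_ge_atTop (2 * m)] with l hl
    omega
  exact h2.comp h3

/-- The error. -/
noncomputable def er (f : ℕ → ℝ) (l : ℕ) : ℝ := tl f l + (l : ℝ) ^ (-(1 / 38) : ℝ)

theorem er_nonneg (f : ℕ → ℝ) (h0 : ∀ b, 0 ≤ f b) (l : ℕ) : 0 ≤ er f l :=
  add_nonneg (tl_nonneg f h0 l) (Real.rpow_nonneg (by positivity) _)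

theorem er_anti (f : ℕ → ℝ) (h0 : ∀ b, 0 ≤ f b) (hf : Summable f) {l l' : ℕ} (hl : 1 ≤ l)
    (h : l ≤ l') : er f l' ≤ er f l := by
  have h1 := tl_anti f h0 hf h
  have h2 : (l' : ℝ) ^ (-(1 / 38) : ℝ) ≤ (l : ℝ) ^ (-(1 / 38) : ℝ) :=
    Real.rpow_le_rpow_of_nonpos (by exact_mod_cast hl) (by exact_mod_cast h) (by norm_num)
  unfold er
  linarith

theorem er_tendsto (f : ℕ → ℝ) (hf : Summable f) : Tendsto (fun l => er f l) atTop (𝓝 0) := by
  have h1 := tl_tendsto f hf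
  have h2 : Tendsto (fun l : ℕ => (l : ℝ) ^ (-(1 / 38) : ℝ)) atTop (𝓝 0) :=
    (tendsto_rpow_neg_atTop (by norm_num : (0 : ℝ) < 1 / 38)).comp tendsto_natCast_atTop_atTop
  have h3 := h1.add h2
  rw [add_zero] at h3
  exact h3

theorem fin_ct (B : Set ℕ) (X : ℝ) : {n : ℕ | n ∈ B ∧ 1 ≤ n ∧ (n : ℝ) ≤ X}.Finite :=
  (Set.finite_Iic ⌊X⌋₊).subset fun _ hn => Nat.le_floor hn.2.2

theorem ct_mono' {A B : Set ℕ} (X : ℝ) (h : ∀ n ∈ A, 1 ≤ n → n ∈ B) : ct A X ≤ ct B X := by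
  have h1 : {n : ℕ | n ∈ A ∧ 1 ≤ n ∧ (n : ℝ) ≤ X} ⊆ {n : ℕ | n ∈ B ∧ 1 ≤ n ∧ (n : ℝ) ≤ X} :=
    fun n hn => ⟨h n hn.1 hn.2.1, hn.2⟩
  unfold ct
  exact_mod_cast Set.ncard_le_ncard h1 (fin_ct B X)

theorem ct_union (A B : Set ℕ) (X : ℝ) : ct (A ∪ B) X ≤ ct A X + ct B X := by
  have h1 : {n : ℕ | n ∈ A ∪ B ∧ 1 ≤ n ∧ (n : ℝ) ≤ X} =
      {n : ℕ | n ∈ A ∧ 1 ≤ n ∧ (n : ℝ) ≤ X} ∪ {n : ℕ | n ∈ B ∧ 1 ≤ n ∧ (n : ℝ) ≤ X} := by
    ext n
    simp only [Set.mem_ofPred_eq, Set.mem_union]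
    tauto
  have h2 := Set.ncard_union_le {n : ℕ | n ∈ A ∧ 1 ≤ n ∧ (n : ℝ) ≤ X}
    {n : ℕ | n ∈ B ∧ 1 ≤ n ∧ (n : ℝ) ≤ X}
  unfold ct
  rw [h1]
  exact_mod_cast h2

theorem ct_disj (A B : Set ℕ) (X : ℝ) (h : Disjoint A B) : ct (A ∪ B) X = ct A X + ct B X := by
  have h1 : {n : ℕ | n ∈ A ∪ B ∧ 1 ≤ n ∧ (n : ℝ) ≤ X} =
      {n : ℕ | n ∈ A ∧ 1 ≤ n ∧ (n : ℝ) ≤ X} ∪ {n : ℕ | n ∈ B ∧ 1 ≤ n ∧ (n : ℝ) ≤ X} := by
    ext n
    simp only [Set.mem_ofPred_eq, Set.mem_union]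
    tauto
  unfold ct
  rw [h1, Set.ncard_union_eq _ (fin_ct A X) (fin_ct B X)]
  · push_cast
    rfl
  · rw [Set.disjoint_left] at h ⊢
    exact fun n hn hn' => h hn.1 hn'.1

theorem ct_univ (X : ℝ) (hX : 0 ≤ X) : |ct Set.univ X - X| ≤ 1 := by
  have h1 : {n : ℕ | n ∈ (Set.univ : Set ℕ) ∧ 1 ≤ n ∧ (n : ℝ) ≤ X} =
      ((Icc 1 ⌊X⌋₊ : Finset ℕ) : Set ℕ) := by
    ext n
    simp only [Set.mem_ofPred_eq, Set.mem_univ, true_and, coe_Icc, Set.mem_Icc]
    exact and_congr_right fun _ => (Nat.le_floor_iff hX).symm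
  have h2 : ct Set.univ X = (⌊X⌋₊ : ℝ) := by
    unfold ct
    rw [h1, Set.ncard_coe_finset, Nat.card_Icc, Nat.add_sub_cancel]
  rw [h2, abs_le]
  constructor
  · linarith [Nat.lt_floor_add_one X]
  · linarith [Nat.floor_le hX]

theorem ct_nn (B : Set ℕ) (X : ℝ) : 0 ≤ ct B X := by unfold ct; positivity

/-- From an error term to a density. -/
theorem hasD_of (B : Set ℕ) (F K : ℝ) (e : ℕ → ℝ) (hK : 0 < K) (he : Tendsto e atTop (𝓝 0))
    (h : ∀ (X : ℝ) (l : ℕ), 2 ≤ X → 1 ≤ l →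
      |ct B X - F * X| ≤ K * (X * (Real.log X ^ (-(1 / 38) : ℝ) + e l) + 4 ^ l)) : HasD B F := by
  have hlog : Tendsto (fun X : ℝ => Real.log X ^ (-(1 / 38) : ℝ)) atTop (𝓝 0) :=
    (tendsto_rpow_neg_atTop (by norm_num : (0 : ℝ) < 1 / 38)).comp Real.tendsto_log_atTop
  unfold HasD
  rw [Metric.tendsto_atTop]
  intro ε hε
  have he1 : ∀ᶠ l in atTop, |e l| < ε / (4 * K) := by
    filter_upwards [Metric.tendsto_nhds.1 he (ε / (4 * K)) (by positivity)] with X hX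
    rwa [Real.dist_eq, sub_zero] at hX
  obtain ⟨l, hl1, hl⟩ := ((eventually_ge_atTop 1).and he1).exists
  have h4 : Tendsto (fun X : ℝ => (4 : ℝ) ^ l / X) atTop (𝓝 0) :=
    tendsto_const_nhds.div_atTop tendsto_id
  have e1 : ∀ᶠ X : ℝ in atTop, |Real.log X ^ (-(1 / 38) : ℝ)| < ε / (4 * K) := by
    filter_upwards [Metric.tendsto_nhds.1 hlog (ε / (4 * K)) (by positivity)] with X hX
    rwa [Real.dist_eq, sub_zero] at hX
  have e2 : ∀ᶠ X : ℝ in atTop, |(4 : ℝ) ^ l / X| < ε / (4 * K) := by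
    filter_upwards [Metric.tendsto_nhds.1 h4 (ε / (4 * K)) (by positivity)] with X hX
    rwa [Real.dist_eq, sub_zero] at hX
  have e3 : ∀ᶠ X : ℝ in atTop, dist (ct B X / X) F < ε := by
    filter_upwards [e1, e2, eventually_ge_atTop (2 : ℝ)] with X h1 h2 h3
    have hX : 0 < X := by linarith
    have h5 := h X l h3 hl1
    have h6 : dist (ct B X / X) F = |ct B X - F * X| / X := by
      rw [Real.dist_eq, show ct B X / X - F = (ct B X - F * X) / X by field_simp, abs_div,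
        abs_of_pos hX]
    rw [h6, div_lt_iff₀ hX]
    have h7 : X * (Real.log X ^ (-(1 / 38) : ℝ) + e l) + 4 ^ l <
        X * (3 * (ε / (4 * K))) := by
      have h8 : (4 : ℝ) ^ l < ε / (4 * K) * X := by
        rw [← div_lt_iff₀ hX]
        exact lt_of_le_of_lt (le_abs_self _) h2
      have h9 := lt_of_le_of_lt (le_abs_self _) h1
      have h10 := lt_of_le_of_lt (le_abs_self _) hl
      nlinarith
    have h8 : K * (X * (3 * (ε / (4 * K)))) = 3 / 4 * ε * X := by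
      field_simp
    have h9 : K * (X * (Real.log X ^ (-(1 / 38) : ℝ) + e l) + 4 ^ l) < 3 / 4 * ε * X := by
      rw [← h8]
      exact mul_lt_mul_of_pos_left h7 hK
    nlinarith
  exact Filter.eventually_atTop.1 e3

theorem tame_sub (ψ : ℝ → ℝ) (n : ℕ) (h : n ∈ Tame ψ) : n ∈ Bdd := by
  refine ⟨⌈(n : ℝ) * ψ n⌉₊, fun k => ?_⟩
  have h1 := h 0 k (Nat.zero_le _)
  simp only [Function.iterate_zero, id_eq] at h1
  have h2 : (T^[k] n : ℝ) ≤ (⌈(n : ℝ) * ψ n⌉₊ : ℝ) := le_trans h1 (Nat.le_ceil _)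
  exact_mod_cast h2

theorem bdd_iter {n : ℕ} (h : n ∈ Bdd) (i : ℕ) : T^[i] n ∈ Bdd := by
  obtain ⟨R, hR⟩ := h
  refine ⟨R, fun k => ?_⟩
  rw [← Function.iterate_add_apply]
  exact hR _

/-- Row LAW. -/
theorem law' (hDec : DecStatement) (hHin : HinStatement) (hCts : CtsStatement)
    (hUp : UpStatement) (hCount : Pool.Agent.Lib.MP_edb5be_nt.ND.CountStatement) :
    LawStatement := by
  obtain ⟨C1, hC1, hcount⟩ := hCount
  obtain ⟨C2, hC2, hup⟩ := hUp
  have hcnt : ∀ (B : Set ℕ) (lo : ℕ), Inv B lo → ∃ D : ℝ, 0 ≤ D ∧ D ≤ 1 ∧ ∀ X : ℝ, 2 ≤ X →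
      |ct B X - D * X| ≤ C1 * (X * Real.log X ^ (-(1 / 38) : ℝ) + 4 ^ lo) := by
    intro B lo hB
    have hInv : Pool.Agent.Lib.MP_edb5be_nt.ND.InvA true B lo := by
      intro n hn
      rw [T_true']
      exact hB n hn
    exact hcount true B lo hInv
  obtain ⟨D, -, -, hD⟩ := hcnt Bdd 0 hHin.2
  have hDd : HasD Bdd D := by
    apply hasD_of Bdd D C1 (fun _ => 0) hC1 tendsto_const_nhds
    intro X l hX hl
    refine le_trans (hD X hX) ?_
    apply mul_le_mul_of_nonneg_left _ hC1.le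
    have : (4 : ℝ) ^ 0 ≤ 4 ^ l := pow_le_pow_right₀ (by norm_num) (Nat.zero_le _)
    linarith
  refine ⟨C1 + 1 + 4 * C2, by linarith, D, hDd, ?_⟩
  intro ψ hψ hsum
  set f : ℕ → ℝ := fun b => 1 / ψ (2 ^ b) with hf
  have hf0 : ∀ b, 0 ≤ f b := fun b => by
    have : (1 : ℝ) ≤ 2 ^ b := one_le_pow₀ (by norm_num)
    have := hψ.pos _ this
    simp only [hf]
    positivity
  have hev : ∀ (l : ℕ) (X : ℝ), 1 ≤ l → 1 ≤ X → ct (EvI ψ l) X ≤ 2 * (C2 * er f l) * X := by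
    intro l X hl hX
    apply hCts.1 _ _ _ hX (mul_nonneg hC2.le (er_nonneg f hf0 l))
    intro L _
    refine le_trans (hup ψ l L hψ hl) ?_
    apply mul_le_mul_of_nonneg_left _ hC2.le
    have := sum_le_tl f hf0 hsum l L
    simp only [hf] at this ⊢
    unfold er
    linarith
  -- densities of `Hs`
  have hHs : ∀ l : ℕ, ∃ d : ℝ, 0 ≤ d ∧ d ≤ 1 ∧ ∀ X : ℝ, 2 ≤ X →
      |ct (Hs ψ l) X - d * X| ≤ C1 * (X * Real.log X ^ (-(1 / 38) : ℝ) + 4 ^ l) :=
    fun l => hcnt _ l (hHin.1 ψ l)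
  choose d hd0 hd1 hd using hHs
  -- the comparison
  have hcmp : ∀ (l : ℕ) (X : ℝ), 1 ≤ l → 2 ≤ X →
      |ct (Tame ψ) X - (1 - d l) * X| ≤
        (C1 + 1) * (X * Real.log X ^ (-(1 / 38) : ℝ) + 4 ^ l) + 2 * C2 * er f l * X := by
    intro l X hl hX
    have hdisj : Disjoint (Tame ψ ∩ {n | 1 ≤ n}) (Hs ψ l ∩ {n | 1 ≤ n}) := by
      rw [Set.disjoint_left]
      intro n hn hn'
      exact (hDec ψ l n hψ hn.2).2.1 hn'.1 hn.1
    have e1 : ct (Tame ψ) X = ct (Tame ψ ∩ {n | 1 ≤ n}) X :=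
      le_antisymm (ct_mono' X fun n hn hn1 => ⟨hn, hn1⟩) (ct_mono' X fun n hn _ => hn.1)
    have e2 : ct (Hs ψ l) X = ct (Hs ψ l ∩ {n | 1 ≤ n}) X :=
      le_antisymm (ct_mono' X fun n hn hn1 => ⟨hn, hn1⟩) (ct_mono' X fun n hn _ => hn.1)
    have e3 : ct (Tame ψ) X + ct (Hs ψ l) X ≤ ct Set.univ X := by
      rw [e1, e2, ← ct_disj _ _ X hdisj]
      exact ct_mono' X fun n _ _ => Set.mem_univ n
    have e4 : ct Set.univ X ≤ ct (Tame ψ) X + ct (Hs ψ l) X + ct (EvI ψ l) X := by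
      have h1 : ct Set.univ X ≤ ct ((Tame ψ ∪ Hs ψ l) ∪ EvI ψ l) X := by
        apply ct_mono' X
        intro n _ hn1
        by_cases h2 : n ∈ EvI ψ l
        · exact Or.inr h2
        by_cases h3 : n ∈ Hs ψ l
        · exact Or.inl (Or.inr h3)
        · exact Or.inl (Or.inl ((hDec ψ l n hψ hn1).1 h2 h3))
      have h2 := ct_union (Tame ψ ∪ Hs ψ l) (EvI ψ l) X
      have h3 := ct_union (Tame ψ) (Hs ψ l) X
      linarith
    have e5 := abs_le.1 (ct_univ X (by linarith))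
    have e6 := abs_le.1 (hd l X hX)
    have e7 := hev l X hl (by linarith)
    have e8 : (1 : ℝ) ≤ 4 ^ l := one_le_pow₀ (by norm_num)
    have e9 : 0 ≤ X * Real.log X ^ (-(1 / 38) : ℝ) :=
      mul_nonneg (by linarith) (Real.rpow_nonneg (Real.log_nonneg (by linarith)) _)
    have e10 : (C1 + 1) * (X * Real.log X ^ (-(1 / 38) : ℝ) + 4 ^ l) =
        C1 * (X * Real.log X ^ (-(1 / 38) : ℝ) + 4 ^ l) +
          (X * Real.log X ^ (-(1 / 38) : ℝ) + 4 ^ l) := by ring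
    have e11 : 0 ≤ 2 * C2 * er f l * X := by
      have := er_nonneg f hf0 l
      positivity
    rw [abs_le]
    constructor
    · nlinarith
    · nlinarith
  -- Cauchy
  have hlogt : Tendsto (fun X : ℝ => Real.log X ^ (-(1 / 38) : ℝ)) atTop (𝓝 0) :=
    (tendsto_rpow_neg_atTop (by norm_num : (0 : ℝ) < 1 / 38)).comp Real.tendsto_log_atTop
  have hdd : ∀ l l' : ℕ, 1 ≤ l → 1 ≤ l' → |d l - d l'| ≤ 2 * C2 * (er f l + er f l') := by
    intro l l' hl hl'
    have h1 : ∀ᶠ X : ℝ in atTop, |d l - d l'| ≤ (C1 + 1) * (2 * Real.log X ^ (-(1 / 38) : ℝ) +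
        (4 ^ l + 4 ^ l') / X) + 2 * C2 * (er f l + er f l') := by
      filter_upwards [eventually_ge_atTop (2 : ℝ)] with X hX
      have hX0 : 0 < X := by linarith
      have a1 := abs_le.1 (hcmp l X hl hX)
      have a2 := abs_le.1 (hcmp l' X hl' hX)
      have a3 : |(d l - d l') * X| ≤ (C1 + 1) * (2 * (X * Real.log X ^ (-(1 / 38) : ℝ)) +
          (4 ^ l + 4 ^ l')) + 2 * C2 * (er f l + er f l') * X := by
        rw [abs_le]
        constructor <;> nlinarith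
      rw [abs_mul, abs_of_pos hX0] at a3
      have a4 : |d l - d l'| ≤ ((C1 + 1) * (2 * (X * Real.log X ^ (-(1 / 38) : ℝ)) +
          (4 ^ l + 4 ^ l')) + 2 * C2 * (er f l + er f l') * X) / X := by
        rw [le_div_iff₀ hX0]
        exact a3
      refine le_trans a4 (le_of_eq ?_)
      field_simp
    have h2 : Tendsto (fun X : ℝ => (C1 + 1) * (2 * Real.log X ^ (-(1 / 38) : ℝ) +
        (4 ^ l + 4 ^ l') / X) + 2 * C2 * (er f l + er f l')) atTop
        (𝓝 ((C1 + 1) * (2 * 0 + 0) + 2 * C2 * (er f l + er f l'))) := by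
      apply Tendsto.add _ tendsto_const_nhds
      apply Tendsto.const_mul
      exact (hlogt.const_mul 2).add (tendsto_const_nhds.div_atTop tendsto_id)
    have h3 := ge_of_tendsto h2 h1
    simpa using h3
  have hcau : CauchySeq (fun l : ℕ => 1 - d (l + 1)) := by
    refine cauchySeq_of_le_tendsto_0 (fun N : ℕ => 4 * C2 * er f (N + 1)) ?_ ?_
    · intro n m N hn hm
      have h1 := hdd (n + 1) (m + 1) (by omega) (by omega)
      have h2 := er_anti f hf0 hsum (l := N + 1) (l' := n + 1) (by omega) (by omega)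
      have h3 := er_anti f hf0 hsum (l := N + 1) (l' := m + 1) (by omega) (by omega)
      have h4 : dist (1 - d (n + 1)) (1 - d (m + 1)) = |d (n + 1) - d (m + 1)| := by
        rw [Real.dist_eq, abs_sub_comm]
        congr 1
        ring
      rw [h4]
      nlinarith
    · have := ((tendsto_add_atTop_iff_nat 1).2 (er_tendsto f hsum)).const_mul (4 * C2)
      simpa using this
  obtain ⟨F, hF⟩ := cauchySeq_tendsto_of_complete hcau
  have hFd : ∀ l : ℕ, 1 ≤ l → |(1 - d l) - F| ≤ 2 * C2 * er f l := by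
    intro l hl
    have h1 : Tendsto (fun n : ℕ => |(1 - d l) - (1 - d (n + 1))|) atTop (𝓝 |(1 - d l) - F|) :=
      (tendsto_const_nhds.sub hF).abs
    have h2 : Tendsto (fun n : ℕ => 2 * C2 * (er f l + er f (n + 1))) atTop
        (𝓝 (2 * C2 * (er f l + 0))) :=
      (tendsto_const_nhds.add ((tendsto_add_atTop_iff_nat 1).2 (er_tendsto f hsum))).const_mul _
    have h3 := le_of_tendsto_of_tendsto' h1 h2 fun n => by
      have := hdd l (n + 1) hl (by omega)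
      rw [show (1 - d l) - (1 - d (n + 1)) = -(d l - d (n + 1)) by ring, abs_neg]
      exact this
    simpa using h3
  have herr : ∀ (X : ℝ) (l : ℕ), 2 ≤ X → 1 ≤ l → |ct (Tame ψ) X - F * X| ≤
      (C1 + 1 + 4 * C2) * (X * (Real.log X ^ (-(1 / 38) : ℝ) + er f l) + 4 ^ l) := by
    intro X l hX hl
    have a1 := abs_le.1 (hcmp l X hl hX)
    have a2 := abs_le.1 (hFd l hl)
    have a3 : 0 ≤ X * Real.log X ^ (-(1 / 38) : ℝ) :=
      mul_nonneg (by linarith) (Real.rpow_nonneg (Real.log_nonneg (by linarith)) _)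
    have a4 := er_nonneg f hf0 l
    have a5 : (0 : ℝ) < 4 ^ l := by positivity
    have a6 : 0 ≤ er f l * X := mul_nonneg a4 (by linarith)
    have a7 : |((1 - d l) - F) * X| ≤ 2 * C2 * er f l * X := by
      rw [abs_mul, abs_of_pos (by linarith : (0 : ℝ) < X)]
      exact mul_le_mul_of_nonneg_right (hFd l hl) (by linarith)
    have a8 := abs_le.1 a7
    have a9 : (C1 + 1 + 4 * C2) * (X * (Real.log X ^ (-(1 / 38) : ℝ) + er f l) + 4 ^ l) =
        (C1 + 1) * (X * Real.log X ^ (-(1 / 38) : ℝ) + 4 ^ l) + 4 * C2 * (er f l * X) +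
          4 * C2 * (X * Real.log X ^ (-(1 / 38) : ℝ) + 4 ^ l) + (C1 + 1) * (er f l * X) := by ring
    have a10 : 0 ≤ 4 * C2 * (X * Real.log X ^ (-(1 / 38) : ℝ) + 4 ^ l) := by positivity
    have a11 : 0 ≤ (C1 + 1) * (er f l * X) := by positivity
    have a12 : 2 * C2 * er f l * X + 2 * C2 * er f l * X = 4 * C2 * (er f l * X) := by ring
    rw [abs_le, a9]
    constructor
    · nlinarith
    · nlinarith
  have hHD : HasD (Tame ψ) F :=
    hasD_of (Tame ψ) F _ (er f) (by linarith) (er_tendsto f hsum) herr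
  have hFD : F ≤ D := by
    apply le_of_tendsto_of_tendsto hHD hDd
    filter_upwards [eventually_gt_atTop (0 : ℝ)] with X hX
    exact div_le_div_of_nonneg_right (ct_mono' X fun n hn _ => tame_sub ψ n hn) hX.le
  refine ⟨F, hFD, hHD, ?_, ?_⟩
  · intro X l hX hl
    refine le_trans (herr X l hX hl) (le_of_eq ?_)
    unfold er tl
    ring
  · intro l hl hall
    have h1 : ∀ᶠ X : ℝ in atTop, ct Bdd X / X ≤ ct (Tame ψ) X / X + 2 * (C2 * er f l) := by
      filter_upwards [eventually_ge_atTop (2 : ℝ)] with X hX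
      have hX0 : 0 < X := by linarith
      have h2 : ct Bdd X ≤ ct (Tame ψ ∪ EvI ψ l) X := by
        apply ct_mono' X
        intro n hn hn1
        by_contra hcon
        rw [Set.mem_union, not_or] at hcon
        have h3 : n ∈ Hs ψ l := by
          by_contra h4
          exact hcon.1 ((hDec ψ l n hψ hn1).1 hcon.2 h4)
        obtain ⟨i, j, hij, hi, hlt⟩ := h3
        have h5 := hall (T^[i] n) (bdd_iter hn i) (T_iterate_pos hn1 i) hi
        have h6 := h5 0 (j - i) (Nat.zero_le _)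
        rw [Function.iterate_zero, id_eq, ← Function.iterate_add_apply,
          Nat.sub_add_cancel hij] at h6
        linarith
      have h3 := ct_union (Tame ψ) (EvI ψ l) X
      have h4 := hev l X hl (by linarith)
      rw [div_add' _ _ _ hX0.ne']
      apply div_le_div_of_nonneg_right _ hX0.le
      linarith
    have h2 := le_of_tendsto_of_tendsto hDd (hHD.add_const (2 * (C2 * er f l))) h1
    have h3 := er_nonneg f hf0 l
    have h4 : er f l = (l : ℝ) ^ (-(1 / 38) : ℝ) +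
        ∑' b : ℕ, (if 8 * l / 10 ≤ b then 1 / ψ (2 ^ b) else 0) := by
      unfold er tl
      ring
    rw [← h4]
    have h5 : 0 ≤ (C1 + 1 + 2 * C2) * er f l := by positivity
    nlinarith

end Pool.Agent.Lib.MP_0a5adf_nt.WT.LawB
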