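import Pool.Agent.Lib.MP_0a5adf_nt.WT.Defs
import Pool.Agent.Lib.MP_0a5adf_nt.H89.Density

/-!
# Row POW: powers of `y`

For the gauge `ψ(x) = x ^ κ` the sets `St ψ b` have a power saving, so by the bound `card_Thr_le`
for the law of the first passage points the proportion of `EvI ψ l` in the block `L` is
`O((L + 1) 2 ^ (-c l))`; the factor `L + 1` is removed by invariance (`L > 2 ^ (c l / 2)`) and
the row UP.
-/

set_option autoImplicit false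

namespace Pool.Agent.Lib.MP_0a5adf_nt.WT

open Finset Pool.Agent.Lib.MP_0a5adf_nt.H89

namespace Pw

/-! ## Proportions -/

theorem blk_finite (L : ℕ) (B : Set ℕ) :
    {n : ℕ | 2 ^ L ≤ n ∧ n < 2 ^ (L + 1) ∧ n ∈ B}.Finite :=
  (Set.finite_lt_nat (2 ^ (L + 1))).subset fun _ hn => hn.2.1

theorem P_mono {L : ℕ} {B B' : Set ℕ} (h : ∀ n, 2 ^ L ≤ n → n < 2 ^ (L + 1) → n ∈ B → n ∈ B') :
    P L B ≤ P L B' := by
  unfold P
  have h1 : {n : ℕ | 2 ^ L ≤ n ∧ n < 2 ^ (L + 1) ∧ n ∈ B}.ncard ≤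
      {n : ℕ | 2 ^ L ≤ n ∧ n < 2 ^ (L + 1) ∧ n ∈ B'}.ncard :=
    Set.ncard_le_ncard (fun n hn => ⟨hn.1, hn.2.1, h n hn.1 hn.2.1 hn.2.2⟩) (blk_finite L B')
  have h2 : ({n : ℕ | 2 ^ L ≤ n ∧ n < 2 ^ (L + 1) ∧ n ∈ B}.ncard : ℝ) ≤
      ({n : ℕ | 2 ^ L ≤ n ∧ n < 2 ^ (L + 1) ∧ n ∈ B'}.ncard : ℝ) := by exact_mod_cast h1
  exact div_le_div_of_nonneg_right h2 (by positivity)

theorem P_union_le (L : ℕ) (B B' : Set ℕ) : P L (B ∪ B') ≤ P L B + P L B' := by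
  unfold P
  have h0 : {n : ℕ | 2 ^ L ≤ n ∧ n < 2 ^ (L + 1) ∧ n ∈ B ∪ B'} ⊆
      {n : ℕ | 2 ^ L ≤ n ∧ n < 2 ^ (L + 1) ∧ n ∈ B} ∪
      {n : ℕ | 2 ^ L ≤ n ∧ n < 2 ^ (L + 1) ∧ n ∈ B'} := by
    rintro n ⟨h1, h2, h3 | h3⟩
    · exact Or.inl ⟨h1, h2, h3⟩
    · exact Or.inr ⟨h1, h2, h3⟩
  have h1 := (Set.ncard_le_ncard h0 ((blk_finite L B).union (blk_finite L B'))).trans
    (Set.ncard_union_le _ _)
  have h2 : ({n : ℕ | 2 ^ L ≤ n ∧ n < 2 ^ (L + 1) ∧ n ∈ B ∪ B'}.ncard : ℝ) ≤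
      ({n : ℕ | 2 ^ L ≤ n ∧ n < 2 ^ (L + 1) ∧ n ∈ B}.ncard : ℝ) +
      ({n : ℕ | 2 ^ L ≤ n ∧ n < 2 ^ (L + 1) ∧ n ∈ B'}.ncard : ℝ) := by exact_mod_cast h1
  rw [← add_div]
  exact div_le_div_of_nonneg_right h2 (by positivity)

theorem P_le_one (L : ℕ) (B : Set ℕ) : P L B ≤ 1 := by
  unfold P
  rw [div_le_one (by positivity)]
  have h1 : {n : ℕ | 2 ^ L ≤ n ∧ n < 2 ^ (L + 1) ∧ n ∈ B} ⊆
      (Ico (2 ^ L) (2 ^ (L + 1)) : Finset ℕ) := by
    intro n hn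
    rw [coe_Ico]
    exact ⟨hn.1, hn.2.1⟩
  have h2 := Set.ncard_le_ncard h1 (Finset.finite_toSet _)
  rw [Set.ncard_coe_finset, Nat.card_Ico] at h2
  have h3 : 2 ^ (L + 1) - 2 ^ L = 2 ^ L := by rw [pow_succ]; omega
  rw [h3] at h2
  exact_mod_cast h2

theorem EvI_subset (ψ : ℝ → ℝ) (l lo : ℕ) : EvI ψ l ⊆ Ev ψ l lo ∪ EvI ψ lo := by
  rintro n ⟨b, h1, i, h2, h3⟩
  rcases Nat.lt_or_ge b lo with h | h
  · exact Or.inl ⟨b, h1, h, i, h2, h3⟩
  · exact Or.inr ⟨b, h, i, h2, h3⟩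

theorem Ev_subset (ψ : ℝ → ℝ) (l lo : ℕ) : Ev ψ l lo ⊆ EvI ψ l := by
  rintro n ⟨b, h1, _, i, h2, h3⟩
  exact ⟨b, h1, i, h2, h3⟩

/-! ## The sets `St` -/

open scoped Classical in
/-- The set `St ψ b` as a finset. -/
noncomputable def Gs (ψ : ℝ → ℝ) (b : ℕ) : Finset ℕ :=
  (Ico (2 ^ b) (2 ^ (b + 1))).filter fun m => m ∈ St ψ b

open scoped Classical in
theorem mem_Gs {ψ : ℝ → ℝ} {b m : ℕ} : m ∈ Gs ψ b ↔ m ∈ St ψ b := by
  unfold Gs
  rw [mem_filter, mem_Ico]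
  constructor
  · exact fun h => h.2
  · exact fun h => ⟨⟨h.1, h.2.1⟩, h⟩

theorem Mh_lt_two : Mh < 2 := by
  have h := two_rpow_mul_Mh_lt (δ := 0) (by have := one_twentieth_lt; linarith)
  rw [Real.rpow_zero, one_mul] at h
  exact h

/-- The count of `St ψ b`, from the row RISE. -/
theorem card_Gs_le (hR : RiseStatement) (ψ : ℝ → ℝ) (b : ℕ) (hψ : 0 < ψ (2 ^ b)) :
    ((Gs ψ b).card : ℝ) ≤ 2 * 2 ^ b * (Mh / 2) ^ (b / 100) + 4 * 2 ^ b / ψ (2 ^ b) := by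
  set A1 : Set ℕ := {N : ℕ | 2 ^ b ≤ N ∧ N < 2 ^ (b + 1) ∧ (1 / 4 : ℝ) ≤ W (b / 100) (T^[0] N)}
    with hA1
  set A2 : Set ℕ := {N : ℕ | 2 ^ b ≤ N ∧ N < 2 ^ (b + 1) ∧
    ∃ k, 0 + k ≤ b ∧ ψ (2 ^ b) / 4 ≤ W k (T^[0] N)} with hA2
  have hfin1 : A1.Finite := (Set.finite_lt_nat (2 ^ (b + 1))).subset fun _ hn => hn.2.1
  have hfin2 : A2.Finite := (Set.finite_lt_nat (2 ^ (b + 1))).subset fun _ hn => hn.2.1
  have hsub : ((Gs ψ b : Finset ℕ) : Set ℕ) ⊆ A1 ∪ A2 := by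
    intro m hm
    rw [mem_coe, mem_Gs] at hm
    obtain ⟨h1, h2, h3⟩ := hm
    have hm1 : (2 : ℝ) ^ b ≤ m := by exact_mod_cast h1
    have hm2 : (m : ℝ) < 2 * 2 ^ b := by
      have : (m : ℝ) < 2 ^ (b + 1) := by exact_mod_cast h2
      rw [pow_succ] at this
      linarith
    have hb0 : (0 : ℝ) < 2 ^ b := by positivity
    rcases h3 with h3 | ⟨k, hk, h3⟩
    · left
      refine ⟨h1, h2, ?_⟩
      have h4 := h3 (b / 100) le_rfl
      have h5 : (2 : ℝ) ^ b ≤ T^[b / 100] m := by exact_mod_cast h4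
      have h6 := le_W_mul (b / 100) m
      have h7 : (2 : ℝ) ^ (b / 100) ≤ 2 ^ b :=
        pow_le_pow_right₀ (by norm_num) (Nat.div_le_self _ _)
      have hW := W_pos (b / 100) m
      show (1 / 4 : ℝ) ≤ W (b / 100) m
      by_contra hcon
      push Not at hcon
      have h8 : W (b / 100) m * ((m : ℝ) + 2 ^ (b / 100)) ≤ 1 / 4 * (3 * 2 ^ b) :=
        mul_le_mul hcon.le (by linarith) (by positivity) (by norm_num)
      linarith
    · right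
      refine ⟨h1, h2, k, by omega, ?_⟩
      show ψ (2 ^ b) / 4 ≤ W k m
      have hkb : k ≤ b := hk.trans (Nat.div_le_self _ _)
      have h6 := le_W_mul k m
      have h7 : (2 : ℝ) ^ k ≤ 2 ^ b := pow_le_pow_right₀ (by norm_num) hkb
      have hW := W_pos k m
      have hm0 : (0 : ℝ) < m := by linarith
      by_contra hcon
      push Not at hcon
      have h8 : W k m * ((m : ℝ) + 2 ^ k) ≤ ψ (2 ^ b) / 4 * (2 * m) :=
        mul_le_mul hcon.le (by linarith) (by positivity) (by positivity)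
      have h9 : ψ (2 ^ b) / 4 * (2 * m) = ψ (2 ^ b) / 2 * m := by ring
      linarith
  have h1 : (Gs ψ b).card ≤ A1.ncard + A2.ncard := by
    rw [← Set.ncard_coe_finset]
    exact (Set.ncard_le_ncard hsub (hfin1.union hfin2)).trans (Set.ncard_union_le _ _)
  have h2 := hR.2 b 0 (b / 100) (1 / 4) (by have := Nat.div_le_self b 100; omega) (by norm_num)
  have h3 := hR.1 b 0 (ψ (2 ^ b) / 4) (Nat.zero_le _) (by positivity)
  have h4 : ((Gs ψ b).card : ℝ) ≤ (A1.ncard : ℝ) + (A2.ncard : ℝ) := by exact_mod_cast h1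
  have h5 : ((1 / 4 : ℝ)) ^ (1 / 2 : ℝ) = 1 / 2 := by
    rw [show (1 / 4 : ℝ) = (1 / 2) ^ (2 : ℝ) by norm_num, ← Real.rpow_mul (by norm_num)]
    norm_num
  rw [h5] at h2
  have h6 : (2 : ℝ) ^ b / (1 / 2) * (Mh / 2) ^ (b / 100) = 2 * 2 ^ b * (Mh / 2) ^ (b / 100) := by
    ring
  have h7 : (2 : ℝ) ^ b / (ψ (2 ^ b) / 4) = 4 * 2 ^ b / ψ (2 ^ b) := by
    field_simp
  rw [h6] at h2
  rw [h7] at h3
  have h8 : (A1.ncard : ℝ) ≤ 2 * 2 ^ b * (Mh / 2) ^ (b / 100) := h2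
  have h9 : (A2.ncard : ℝ) ≤ 4 * 2 ^ b / ψ (2 ^ b) := h3
  linarith

/-- Power saving for `St`. -/
theorem exists_Gs_bound (hR : RiseStatement) {κ : ℝ} (hκ : 0 < κ) :
    ∃ c C : ℝ, 0 < c ∧ 0 < C ∧ ∀ b : ℕ,
      ((Gs (fun x => x ^ κ) b).card : ℝ) ≤ C * 2 ^ b * (2 : ℝ) ^ (-(c * b)) := by
  set r : ℝ := Mh / 2 with hr
  have hr0 : 0 < r := by have := Mh_pos; positivity
  have hr1 : r < 1 := by have := Mh_lt_two; rw [hr]; linarith
  set c0 : ℝ := -Real.logb 2 r with hc0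
  have hc0p : 0 < c0 := by
    have := Real.logb_neg (b := 2) (by norm_num) hr0 hr1
    rw [hc0]; linarith
  have hrr : r = (2 : ℝ) ^ (-c0) := by
    rw [hc0, neg_neg, Real.rpow_logb (by norm_num) (by norm_num) hr0]
  refine ⟨min (c0 / 100) κ, 2 / r + 4, lt_min (by positivity) hκ, by positivity, fun b => ?_⟩
  have hb : (0 : ℝ) < 2 ^ b := by positivity
  have hψ : (0 : ℝ) < (fun x : ℝ => x ^ κ) (2 ^ b) := by
    show (0 : ℝ) < ((2 : ℝ) ^ b) ^ κ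
    positivity
  have h1 := card_Gs_le hR (fun x => x ^ κ) b hψ
  have hb0 : (0 : ℝ) ≤ b := Nat.cast_nonneg b
  have h2 : r ^ (b / 100) ≤ 1 / r * (2 : ℝ) ^ (-(min (c0 / 100) κ * b)) := by
    have h3 : r ^ (b / 100) * r ≤ (2 : ℝ) ^ (-(min (c0 / 100) κ * b)) := by
      rw [← pow_succ, hrr, ← Real.rpow_natCast, ← Real.rpow_mul (by norm_num)]
      apply Real.rpow_le_rpow_of_exponent_le (by norm_num)
      have h4 : (b : ℝ) / 100 ≤ ((b / 100 + 1 : ℕ) : ℝ) := by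
        rw [div_le_iff₀ (by norm_num)]
        have : b ≤ (b / 100 + 1) * 100 := by omega
        exact_mod_cast this
      have h5 : min (c0 / 100) κ * b ≤ c0 / 100 * b :=
        mul_le_mul_of_nonneg_right (min_le_left _ _) hb0
      have h6 : c0 * ((b : ℝ) / 100) ≤ c0 * ((b / 100 + 1 : ℕ) : ℝ) :=
        mul_le_mul_of_nonneg_left h4 hc0p.le
      have h7 : c0 / 100 * b = c0 * ((b : ℝ) / 100) := by ring
      linarith
    rw [one_div, ← div_eq_inv_mul, le_div_iff₀ hr0]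
    exact h3
  have h3 : 1 / ((2 : ℝ) ^ b) ^ κ ≤ (2 : ℝ) ^ (-(min (c0 / 100) κ * b)) := by
    rw [one_div, ← Real.rpow_natCast, ← Real.rpow_mul (by norm_num), ← Real.rpow_neg (by norm_num)]
    apply Real.rpow_le_rpow_of_exponent_le (by norm_num)
    have h5 : min (c0 / 100) κ * b ≤ κ * b := mul_le_mul_of_nonneg_right (min_le_right _ _) hb0
    linarith
  calc ((Gs (fun x => x ^ κ) b).card : ℝ)
      ≤ 2 * 2 ^ b * r ^ (b / 100) + 4 * 2 ^ b / ((2 : ℝ) ^ b) ^ κ := h1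
    _ = 2 * 2 ^ b * r ^ (b / 100) + 4 * 2 ^ b * (1 / ((2 : ℝ) ^ b) ^ κ) := by ring
    _ ≤ 2 * 2 ^ b * (1 / r * (2 : ℝ) ^ (-(min (c0 / 100) κ * b))) +
        4 * 2 ^ b * (2 : ℝ) ^ (-(min (c0 / 100) κ * b)) := by gcongr
    _ = (2 / r + 4) * 2 ^ b * (2 : ℝ) ^ (-(min (c0 / 100) κ * b)) := by ring

/-! ## The direct bound -/

/-- The proportion of `EvI` in the block `L`, with a factor `L + 1`. -/
theorem direct (hR : RiseStatement) {κ : ℝ} (hκ : 0 < κ) :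
    ∃ c C : ℝ, 0 < c ∧ 0 < C ∧ ∀ l L : ℕ, 1 ≤ l →
      P L (EvI (fun x => x ^ κ) l) ≤ C * ((L : ℝ) + 1) * (2 : ℝ) ^ (-(c * l)) := by
  classical
  obtain ⟨c1, C1, hc1, hC1, hG⟩ := exists_Gs_bound hR hκ
  obtain ⟨Q, hQ, hr1⟩ := exists_Q one_twentieth_lt
  set δ : ℝ := 1 / 20 with hδ
  set r1 : ℝ := (2 : ℝ) ^ (1 / (2 * Q) : ℝ) * Mh * 2 ^ δ / 2 with hr1d
  have hr10 : 0 ≤ r1 := by rw [hr1d]; have := Mh_pos; positivity
  obtain ⟨K1, hK1, hK1s⟩ := exists_sum_le hr10 hr1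
  set r2 : ℝ := (2 : ℝ) ^ (-(c1 / 2)) with hr2d
  have hr20 : 0 ≤ r2 := by rw [hr2d]; positivity
  have hr21 : r2 < 1 := by
    rw [hr2d]
    exact Real.rpow_lt_one_of_one_lt_of_neg (by norm_num) (by linarith)
  obtain ⟨K2, hK2, hK2s⟩ := exists_sum_le hr20 hr21
  set c : ℝ := min δ (c1 / 2) with hc
  have hcp : 0 < c := lt_min (by rw [hδ]; norm_num) (by positivity)
  refine ⟨c, 8 * ((Q : ℝ) + 3) * K1 + 4 * ((Q : ℝ) + 3) * C1 * K2, hcp, by positivity,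
    fun l L hl => ?_⟩
  set ψ : ℝ → ℝ := fun x => x ^ κ with hψ
  have hsub : {n : ℕ | 2 ^ L ≤ n ∧ n < 2 ^ (L + 1) ∧ n ∈ EvI ψ l} ⊆
      ((Exc Q L l ∪ (Icc l L).biUnion fun b => Thr Q L b (Gs ψ b) : Finset ℕ) : Set ℕ) := by
    rintro n ⟨h1, h2, b, hb, i, hFP, hSt⟩
    rw [mem_coe, mem_union]
    by_cases hgood : Good Q L n l
    · right
      have hbL : b ≤ L := by
        by_contra hcon
        push Not at hcon
        have h3 : n < 2 ^ (b + 1) :=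
          lt_of_lt_of_le h2 (Nat.pow_le_pow_right (by norm_num) (by omega))
        have h4 : i ≤ 0 := hFP.le_of_lt (j := 0) h3
        have h5 : i = 0 := by omega
        subst h5
        have h6 : 2 ^ b ≤ n := hSt.1
        have h7 : 2 ^ (L + 1) ≤ 2 ^ b := Nat.pow_le_pow_right (by norm_num) (by omega)
        omega
      rw [mem_biUnion]
      refine ⟨b, mem_Icc.2 ⟨hb, hbL⟩, ?_⟩
      rw [mem_Thr]
      exact ⟨⟨h1, h2⟩, hgood.mono (by omega), i, hFP, mem_Gs.2 hSt⟩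
    · left
      rw [mem_Exc]
      exact ⟨⟨h1, h2⟩, hgood⟩
  have hcard : ({n : ℕ | 2 ^ L ≤ n ∧ n < 2 ^ (L + 1) ∧ n ∈ EvI ψ l}.ncard : ℝ) ≤
      ((Exc Q L l).card : ℝ) + ∑ b ∈ Icc l L, ((Thr Q L b (Gs ψ b)).card : ℝ) := by
    have h1 := Set.ncard_le_ncard hsub (Finset.finite_toSet _)
    rw [Set.ncard_coe_finset] at h1
    have h2 := h1.trans (card_union_le _ _)
    have h3 : ((Icc l L).biUnion fun b => Thr Q L b (Gs ψ b)).card ≤
        ∑ b ∈ Icc l L, (Thr Q L b (Gs ψ b)).card := card_biUnion_le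
    have h4 := h2.trans (Nat.add_le_add_left h3 _)
    exact_mod_cast h4
  have hl0 : (0 : ℝ) ≤ l := Nat.cast_nonneg l
  have hL0 : (0 : ℝ) ≤ L := Nat.cast_nonneg L
  have hQ0 : (0 : ℝ) ≤ Q := Nat.cast_nonneg Q
  have hQL : ((Q : ℝ) + 2) * L + 1 ≤ ((Q : ℝ) + 3) * ((L : ℝ) + 1) := by nlinarith
  have hQL0 : 0 ≤ ((Q : ℝ) + 2) * L + 1 := by positivity
  -- the exceptional set
  have hE : ((Exc Q L l).card : ℝ) ≤
      8 * (((Q : ℝ) + 3) * ((L : ℝ) + 1)) * 2 ^ L * (K1 * (2 : ℝ) ^ (-(c * l))) := by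
    refine (card_Exc_le hQ hl).trans ?_
    have h1 : ∑ b ∈ Icc l L, ((b : ℝ) + 2) * ((2 : ℝ) ^ (1 / (2 * Q) : ℝ) * Mh / 2) ^ b ≤
        K1 * (2 : ℝ) ^ (-(c * l)) := by
      calc ∑ b ∈ Icc l L, ((b : ℝ) + 2) * ((2 : ℝ) ^ (1 / (2 * Q) : ℝ) * Mh / 2) ^ b
          ≤ ∑ b ∈ Icc l L, (2 : ℝ) ^ (-(c * l)) * (((b : ℝ) + 2) * r1 ^ b) := by
            refine sum_le_sum fun b hb => ?_
            rw [mem_Icc] at hb
            have h2 : ((2 : ℝ) ^ (1 / (2 * Q) : ℝ) * Mh / 2) = r1 * (2 : ℝ) ^ (-δ) := by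
              rw [hr1d, Real.rpow_neg (by norm_num)]
              field_simp
            rw [h2, mul_pow, ← Real.rpow_natCast ((2 : ℝ) ^ (-δ)) b, ← Real.rpow_mul (by norm_num)]
            have h3 : (2 : ℝ) ^ (-δ * (b : ℝ)) ≤ (2 : ℝ) ^ (-(c * l)) := by
              apply Real.rpow_le_rpow_of_exponent_le (by norm_num)
              have h4 : (l : ℝ) ≤ b := by exact_mod_cast hb.1
              have h5 : c * l ≤ δ * b := mul_le_mul (min_le_left _ _) h4 hl0 (by rw [hδ]; norm_num)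
              linarith
            have h4 : (0 : ℝ) ≤ ((b : ℝ) + 2) * r1 ^ b := by positivity
            have h5 := mul_le_mul_of_nonneg_right h3 h4
            calc ((b : ℝ) + 2) * (r1 ^ b * (2 : ℝ) ^ (-δ * (b : ℝ)))
                = (2 : ℝ) ^ (-δ * (b : ℝ)) * (((b : ℝ) + 2) * r1 ^ b) := by ring
              _ ≤ _ := h5
        _ = (2 : ℝ) ^ (-(c * l)) * ∑ b ∈ Icc l L, (((b : ℝ) + 2) * r1 ^ b) := by rw [mul_sum]
        _ ≤ (2 : ℝ) ^ (-(c * l)) * K1 := mul_le_mul_of_nonneg_left (hK1s _) (by positivity)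
        _ = _ := mul_comm _ _
    have h2 : 0 ≤ K1 * (2 : ℝ) ^ (-(c * l)) := by positivity
    calc 8 * (((Q : ℝ) + 2) * L + 1) * 2 ^ L *
        ∑ b ∈ Icc l L, ((b : ℝ) + 2) * ((2 : ℝ) ^ (1 / (2 * Q) : ℝ) * Mh / 2) ^ b
        ≤ 8 * (((Q : ℝ) + 2) * L + 1) * 2 ^ L * (K1 * (2 : ℝ) ^ (-(c * l))) :=
          mul_le_mul_of_nonneg_left h1 (by positivity)
      _ ≤ _ := by gcongr
  -- the first passages in `St`
  have hT : ∑ b ∈ Icc l L, ((Thr Q L b (Gs ψ b)).card : ℝ) ≤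
      4 * (((Q : ℝ) + 3) * ((L : ℝ) + 1)) * 2 ^ L * C1 * (K2 * (2 : ℝ) ^ (-(c * l))) := by
    have h1 : ∀ b ∈ Icc l L, ((Thr Q L b (Gs ψ b)).card : ℝ) ≤
        4 * (((Q : ℝ) + 3) * ((L : ℝ) + 1)) * 2 ^ L * C1 *
          ((2 : ℝ) ^ (-(c * l)) * (((b : ℝ) + 2) * r2 ^ b)) := by
      intro b hb
      rw [mem_Icc] at hb
      have h2 := card_Thr_le hQ (by omega) hb.2 (Gs ψ b)
      have h3 := hG b
      have hb0 : (0 : ℝ) ≤ b := Nat.cast_nonneg b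
      have h2b : (0 : ℝ) < 2 ^ b := by positivity
      have h4 : (2 : ℝ) ^ (-(c1 * b)) ≤ (2 : ℝ) ^ (-(c * l)) * r2 ^ b := by
        rw [hr2d, ← Real.rpow_natCast _ b, ← Real.rpow_mul (by norm_num),
          ← Real.rpow_add (by norm_num)]
        apply Real.rpow_le_rpow_of_exponent_le (by norm_num)
        have h5 : (l : ℝ) ≤ b := by exact_mod_cast hb.1
        have h6 : c * l ≤ c1 / 2 * b := mul_le_mul (min_le_right _ _) h5 hl0 (by positivity)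
        linarith
      calc ((Thr Q L b (Gs ψ b)).card : ℝ)
          ≤ (((Q : ℝ) + 2) * L + 1) * (4 * ((b : ℝ) + 2) * (2 ^ L / 2 ^ b)) *
              (Gs ψ b).card := h2
        _ ≤ (((Q : ℝ) + 3) * ((L : ℝ) + 1)) * (4 * ((b : ℝ) + 2) * (2 ^ L / 2 ^ b)) *
              (C1 * 2 ^ b * (2 : ℝ) ^ (-(c1 * b))) := by gcongr
        _ = 4 * (((Q : ℝ) + 3) * ((L : ℝ) + 1)) * 2 ^ L * C1 * (((b : ℝ) + 2) *
              (2 : ℝ) ^ (-(c1 * b))) := by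
            field_simp
        _ ≤ 4 * (((Q : ℝ) + 3) * ((L : ℝ) + 1)) * 2 ^ L * C1 * (((b : ℝ) + 2) *
              ((2 : ℝ) ^ (-(c * l)) * r2 ^ b)) := by gcongr
        _ = _ := by ring
    refine (sum_le_sum h1).trans ?_
    rw [← mul_sum, ← mul_sum]
    have h2 := hK2s (Icc l L)
    have h3 : (2 : ℝ) ^ (-(c * l)) * ∑ b ∈ Icc l L, ((b : ℝ) + 2) * r2 ^ b ≤
        K2 * (2 : ℝ) ^ (-(c * l)) := by
      rw [mul_comm K2]
      exact mul_le_mul_of_nonneg_left h2 (by positivity)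
    exact mul_le_mul_of_nonneg_left h3 (by positivity)
  unfold P
  rw [div_le_iff₀ (by positivity)]
  refine hcard.trans ((add_le_add hE hT).trans (le_of_eq ?_))
  ring

end Pw

/-- **ROW POW.** -/
theorem pow (hR : RiseStatement) (hI : InvStatement) (hB : BlkStatement) (hU : UpStatement) :
    PowStatement := by
  intro κ hκ
  obtain ⟨c, C, hc, hC, hD⟩ := Pw.direct hR hκ
  obtain ⟨C3, L0, hC3, hL0, hB⟩ := hB
  obtain ⟨C4, hC4, hU⟩ := hU
  set ψ : ℝ → ℝ := fun x => x ^ κ with hψ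
  have hgauge : Gauge ψ :=
    ⟨fun x y hx hxy => Real.rpow_le_rpow (by linarith) hxy hκ.le,
      fun x hx => Real.rpow_pos_of_pos (by linarith) κ⟩
  -- the base of the scale
  set ρ : ℝ := (2 : ℝ) ^ (c / 2) with hρ
  have hρ1 : 1 < ρ := Real.one_lt_rpow (by norm_num) (by positivity)
  have hρ0 : 0 < ρ := by linarith
  obtain ⟨l0, hl0⟩ : ∃ l0 : ℕ, ∀ l : ℕ, l0 ≤ l → (l : ℝ) + (L0 + 8) ≤ ρ ^ l / 4 := by
    have h1 : Filter.Tendsto (fun l : ℕ => ((l : ℝ) + (L0 + 8)) / ρ ^ l) Filter.atTop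
        (nhds 0) := by
      have h2 := tendsto_pow_const_div_const_pow_of_one_lt 1 hρ1
      have h3 : Filter.Tendsto (fun l : ℕ => (L0 + 8 : ℝ) / ρ ^ l) Filter.atTop (nhds 0) := by
        have h4 := (tendsto_pow_atTop_atTop_of_one_lt hρ1)
        exact h4.const_div_atTop _
      have h4 := h2.add h3
      rw [add_zero] at h4
      refine h4.congr fun l => ?_
      rw [pow_one, ← add_div]
    have h2 := h1.eventually (gt_mem_nhds (show (0 : ℝ) < 1 / 4 by norm_num))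
    obtain ⟨l0, h3⟩ := Filter.eventually_atTop.1 h2
    refine ⟨l0, fun l hl => ?_⟩
    have h4 := h3 l hl
    rw [div_lt_iff₀ (by positivity)] at h4
    linarith
  -- the geometric series
  set q : ℝ := (2 : ℝ) ^ (-κ) with hq
  have hq0 : 0 < q := by positivity
  have hq1 : q < 1 := Real.rpow_lt_one_of_one_lt_of_neg (by norm_num) (by linarith)
  -- constants
  set c' : ℝ := min (c / 76) (8 * κ / 10) with hc'
  have hc'p : 0 < c' := lt_min (by positivity) (by positivity)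
  have hc'1 : c' ≤ c / 76 := min_le_left _ _
  have hc'2 : c' ≤ 8 * κ / 10 := min_le_right _ _
  set K : ℝ := 4 * C + 4 * C3 + C4 * (1 / (q * (1 - q)) + 4) + (2 : ℝ) ^ (c' * l0) with hK
  have h1q : 0 < 1 - q := by linarith
  refine ⟨c', K, hc'p, by positivity, fun l L => ?_⟩
  rcases Nat.lt_or_ge l l0 with hl | hl
  · -- small `l`
    have h1 : (2 : ℝ) ^ (c' * l0) ≤ K := by
      rw [hK]
      have : 0 ≤ 4 * C + 4 * C3 + C4 * (1 / (q * (1 - q)) + 4) := by positivity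
      linarith
    have h2 : 1 ≤ (2 : ℝ) ^ (c' * l0) * (2 : ℝ) ^ (-(c' * l)) := by
      rw [← Real.rpow_add (by norm_num)]
      apply Real.one_le_rpow (by norm_num)
      have : (l : ℝ) ≤ l0 := by exact_mod_cast hl.le
      nlinarith
    calc P L (EvI ψ l) ≤ 1 := Pw.P_le_one _ _
      _ ≤ (2 : ℝ) ^ (c' * l0) * (2 : ℝ) ^ (-(c' * l)) := h2
      _ ≤ K * (2 : ℝ) ^ (-(c' * l)) := by gcongr
  have hbig := hl0 l hl
  have hL0r : (1 : ℝ) ≤ L0 := by exact_mod_cast hL0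
  have hlr : (0 : ℝ) ≤ l := Nat.cast_nonneg l
  have hρl : (2 : ℝ) ^ (c / 2 * l) = ρ ^ l := by
    rw [hρ, ← Real.rpow_natCast _ l, ← Real.rpow_mul (by norm_num)]
  have hρl1 : 36 ≤ ρ ^ l := by linarith
  -- the intermediate block
  obtain ⟨R, hRdef⟩ : ∃ R : ℕ, R = ⌊ρ ^ l⌋₊ := ⟨_, rfl⟩
  have hR1 : (R : ℝ) ≤ ρ ^ l := by rw [hRdef]; exact Nat.floor_le (by positivity)
  have hR2 : ρ ^ l < R + 1 := by rw [hRdef]; exact Nat.lt_floor_add_one _
  obtain ⟨lo, hlodef⟩ : ∃ lo : ℕ, lo = 83 * R / 100 := ⟨_, rfl⟩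
  have hlo1 : 100 * lo ≤ 83 * R := by rw [hlodef]; exact Nat.mul_div_le _ _
  have hlo2 : 83 * R < 100 * lo + 100 := by
    rw [hlodef]
    have := Nat.div_add_mod (83 * R) 100
    have := Nat.mod_lt (83 * R) (show 0 < 100 by norm_num)
    omega
  have hlo2r : 83 * (R : ℝ) < 100 * lo + 100 := by exact_mod_cast hlo2
  have hlo3 : ρ ^ l / 4 ≤ lo := by linarith
  have hlol : l ≤ lo := by
    have : (l : ℝ) ≤ lo := by linarith
    exact_mod_cast this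
  have hR0 : L0 ≤ R := by
    have : (L0 : ℝ) ≤ R := by linarith
    exact_mod_cast this
  have hl1 : 1 ≤ l ∨ l = 0 := by omega
  have hexp1 : (2 : ℝ) ^ (c / 2 * l) * (2 : ℝ) ^ (-(c * l)) ≤ (2 : ℝ) ^ (-(c' * l)) := by
    rw [← Real.rpow_add (by norm_num)]
    apply Real.rpow_le_rpow_of_exponent_le (by norm_num)
    nlinarith
  have hexp2 : (ρ ^ l) ^ (-(1 / 38) : ℝ) ≤ (2 : ℝ) ^ (-(c' * l)) := by
    rw [← hρl, ← Real.rpow_mul (by norm_num)]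
    apply Real.rpow_le_rpow_of_exponent_le (by norm_num)
    have h1 : c / 2 * l * (-(1 / 38)) = -(c / 76 * l) := by ring
    rw [h1]
    have := mul_le_mul_of_nonneg_right hc'1 hlr
    linarith
  rcases hl1 with hl1 | hl1
  swap
  · subst hl1
    have h1 : (1 : ℝ) ≤ K := by
      rw [hK]
      have h2 : 0 ≤ 4 * C + 4 * C3 + C4 * (1 / (q * (1 - q)) + 4) := by positivity
      have h3 : (1 : ℝ) ≤ (2 : ℝ) ^ (c' * l0) := Real.one_le_rpow (by norm_num) (by positivity)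
      linarith
    have h2 := Pw.P_le_one L (EvI ψ 0)
    simp only [Nat.cast_zero, mul_zero, neg_zero, Real.rpow_zero, mul_one]
    linarith
  set E : ℝ := (2 : ℝ) ^ (-(c' * l)) with hE
  have hE0 : 0 < E := by positivity
  have hdir : ∀ M : ℕ, M ≤ R → P M (EvI ψ l) ≤ 2 * C * E := by
    intro M hM
    refine (hD l M hl1).trans ?_
    have h1 : (M : ℝ) + 1 ≤ 2 * ρ ^ l := by
      have : (M : ℝ) ≤ R := by exact_mod_cast hM
      linarith
    calc C * ((M : ℝ) + 1) * (2 : ℝ) ^ (-(c * l))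
        ≤ C * (2 * ρ ^ l) * (2 : ℝ) ^ (-(c * l)) := by gcongr
      _ = 2 * C * ((2 : ℝ) ^ (c / 2 * l) * (2 : ℝ) ^ (-(c * l))) := by rw [hρl]; ring
      _ ≤ 2 * C * E := by gcongr
  have hfin : ∀ x : ℝ, x ≤ (4 * C + 4 * C3 + C4 * (1 / (q * (1 - q)) + 4)) * E → x ≤ K * E := by
    intro x hx
    refine hx.trans ?_
    have h3 : (0 : ℝ) < (2 : ℝ) ^ (c' * l0) := by positivity
    rw [hK]
    have h4 : 0 ≤ (2 : ℝ) ^ (c' * l0) * E := by positivity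
    rw [add_mul _ ((2 : ℝ) ^ (c' * l0)) E]
    linarith
  apply hfin
  have hpos3 : 0 ≤ 4 * C3 * E := by positivity
  have hpos4 : 0 ≤ C4 * (1 / (q * (1 - q)) + 4) * E := by positivity
  have hpos1 : 0 ≤ 4 * C * E := by positivity
  rcases Nat.lt_or_ge R L with hLR | hLR
  swap
  · have h1 := hdir L hLR
    nlinarith
  -- large `L`
  have h1 : P L (EvI ψ l) ≤ P L (Ev ψ l lo) + P L (EvI ψ lo) :=
    (Pw.P_mono fun n _ _ hn => Pw.EvI_subset ψ l lo hn).trans (Pw.P_union_le _ _ _)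
  have h2 := hB (Ev ψ l lo) lo R L (hI ψ l lo) hR0 hLR.le hlo1
  have h3 : P R (Ev ψ l lo) ≤ 2 * C * E :=
    (Pw.P_mono fun n _ _ hn => Pw.Ev_subset ψ l lo hn).trans (hdir R le_rfl)
  have h4 : (R : ℝ) ^ (-(1 / 38) : ℝ) ≤ 4 * E := by
    have h5 : ρ ^ l / 4 ≤ R := by linarith
    have h6 : (R : ℝ) ^ (-(1 / 38) : ℝ) ≤ (ρ ^ l / 4) ^ (-(1 / 38) : ℝ) :=
      Real.rpow_le_rpow_of_nonpos (by positivity) h5 (by norm_num)
    refine h6.trans ?_
    rw [Real.div_rpow (by positivity) (by norm_num), div_eq_mul_inv, ← Real.rpow_neg (by norm_num)]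
    have h7 : (4 : ℝ) ^ (-(-(1 / 38)) : ℝ) ≤ 4 := by
      calc (4 : ℝ) ^ (-(-(1 / 38)) : ℝ) ≤ (4 : ℝ) ^ (1 : ℝ) :=
            Real.rpow_le_rpow_of_exponent_le (by norm_num) (by norm_num)
        _ = 4 := Real.rpow_one 4
    calc (ρ ^ l) ^ (-(1 / 38) : ℝ) * (4 : ℝ) ^ (-(-(1 / 38)) : ℝ) ≤ E * 4 := by
          apply mul_le_mul hexp2 h7 (by positivity) hE0.le
      _ = 4 * E := by ring
  have h5 : P L (Ev ψ l lo) ≤ 2 * C * E + C3 * (4 * E) := by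
    have h6 := (abs_le.1 h2).2
    have h7 : C3 * (R : ℝ) ^ (-(1 / 38) : ℝ) ≤ C3 * (4 * E) := by gcongr
    linarith
  have hlo4 : 1 ≤ lo := hl1.trans hlol
  have h6 := hU ψ lo L hgauge hlo4
  have h7 : (lo : ℝ) ^ (-(1 / 38) : ℝ) ≤ 4 * E := by
    have h6 : (lo : ℝ) ^ (-(1 / 38) : ℝ) ≤ (ρ ^ l / 4) ^ (-(1 / 38) : ℝ) :=
      Real.rpow_le_rpow_of_nonpos (by positivity) hlo3 (by norm_num)
    refine h6.trans ?_
    rw [Real.div_rpow (by positivity) (by norm_num), div_eq_mul_inv, ← Real.rpow_neg (by norm_num)]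
    have h7 : (4 : ℝ) ^ (-(-(1 / 38)) : ℝ) ≤ 4 := by
      calc (4 : ℝ) ^ (-(-(1 / 38)) : ℝ) ≤ (4 : ℝ) ^ (1 : ℝ) :=
            Real.rpow_le_rpow_of_exponent_le (by norm_num) (by norm_num)
        _ = 4 := Real.rpow_one 4
    calc (ρ ^ l) ^ (-(1 / 38) : ℝ) * (4 : ℝ) ^ (-(-(1 / 38)) : ℝ) ≤ E * 4 := by
          apply mul_le_mul hexp2 h7 (by positivity) hE0.le
      _ = 4 * E := by ring
  have h8 : ∑ b ∈ Icc (8 * lo / 10) L, 1 / ψ (2 ^ b) ≤ 1 / (q * (1 - q)) * E := by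
    have h9 : ∀ b : ℕ, 1 / ψ (2 ^ b) = q ^ b := by
      intro b
      show 1 / ((2 : ℝ) ^ b) ^ κ = q ^ b
      rw [hq, ← Real.rpow_natCast _ b, ← Real.rpow_natCast _ b, ← Real.rpow_mul (by norm_num),
        ← Real.rpow_mul (by norm_num), one_div, ← Real.rpow_neg (by norm_num)]
      congr 1
      ring
    have h10 : ∑ b ∈ Icc (8 * lo / 10) L, 1 / ψ (2 ^ b) ≤ q ^ (8 * lo / 10) / (1 - q) := by
      rw [sum_congr rfl fun b _ => h9 b]
      have h11 : ∑ b ∈ Icc (8 * lo / 10) L, q ^ b ≤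
          q ^ (8 * lo / 10) * ∑ b ∈ range (L + 1), q ^ b := by
        rw [mul_sum]
        have h12 : ∑ b ∈ Icc (8 * lo / 10) L, q ^ b ≤
            ∑ b ∈ (range (L + 1)).image (fun b => 8 * lo / 10 + b), q ^ b := by
          apply sum_le_sum_of_subset_of_nonneg
          · intro b hb
            rw [mem_Icc] at hb
            rw [mem_image]
            exact ⟨b - 8 * lo / 10, mem_range.2 (by omega), by omega⟩
          · intro b _ _
            positivity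
        refine h12.trans (le_of_eq ?_)
        rw [sum_image (fun a _ b _ hab => by omega)]
        exact sum_congr rfl fun b _ => pow_add _ _ _
      refine h11.trans ?_
      rw [div_eq_mul_inv]
      apply mul_le_mul_of_nonneg_left _ (by positivity)
      rw [← tsum_geometric_of_lt_one hq0.le hq1]
      exact (summable_geometric_of_lt_one hq0.le hq1).sum_le_tsum _ (fun b _ => by positivity)
    refine h10.trans ?_
    have h11 : q ^ (8 * lo / 10) * q ≤ E := by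
      rw [← pow_succ, hq, ← Real.rpow_natCast _ (8 * lo / 10 + 1), ← Real.rpow_mul (by norm_num),
        hE]
      apply Real.rpow_le_rpow_of_exponent_le (by norm_num)
      have h12 : 8 * (l : ℝ) / 10 ≤ ((8 * lo / 10 + 1 : ℕ) : ℝ) := by
        rw [div_le_iff₀ (by norm_num)]
        have : 8 * l ≤ (8 * lo / 10 + 1) * 10 := by omega
        exact_mod_cast this
      have h13 : κ * (8 * (l : ℝ) / 10) ≤ κ * ((8 * lo / 10 + 1 : ℕ) : ℝ) :=
        mul_le_mul_of_nonneg_left h12 hκ.le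
      have h14 : c' * l ≤ 8 * κ / 10 * l := mul_le_mul_of_nonneg_right hc'2 hlr
      have h15 : 8 * κ / 10 * l = κ * (8 * (l : ℝ) / 10) := by ring
      linarith
    have h12 : q ^ (8 * lo / 10) / (1 - q) = 1 / (q * (1 - q)) * (q ^ (8 * lo / 10) * q) := by
      field_simp
    rw [h12]
    exact mul_le_mul_of_nonneg_left h11 (by positivity)
  have h9 : P L (EvI ψ lo) ≤ C4 * (1 / (q * (1 - q)) * E + 4 * E) := by
    refine h6.trans ?_
    exact mul_le_mul_of_nonneg_left (add_le_add h8 h7) hC4.le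
  have h10 : C4 * (1 / (q * (1 - q)) * E + 4 * E) = C4 * (1 / (q * (1 - q)) + 4) * E := by ring
  have h11 : C3 * (4 * E) = 4 * C3 * E := by ring
  rw [h10] at h9
  rw [h11] at h5
  have h12 : 2 * C * E ≤ 4 * C * E := by nlinarith [mul_pos hC hE0]
  calc P L (EvI ψ l) ≤ 2 * C * E + 4 * C3 * E + C4 * (1 / (q * (1 - q)) + 4) * E := by linarith
    _ ≤ (4 * C + 4 * C3 + C4 * (1 / (q * (1 - q)) + 4)) * E := by
        rw [add_mul, add_mul]
        linarith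

end Pool.Agent.Lib.MP_0a5adf_nt.WT
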