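import Pool.Agent.Lib.MP_0a5adf_nt.WT.Blk
import Pool.Agent.Lib.MP_0a5adf_nt.WT.Pow
import Pool.Agent.Lib.MP_edb5be_nt.TS.H58.Bcs

/-!
# Row UP (helper19)

All levels, in every block: the first passage points below `2 ^ (b + 1)` avoid the sets `St ψ b`,
which are contained in sets `EE ψ b` of residue classes modulo `2 ^ (b / 100)`. From the sharp form
`TS.BCSStatement` of the equidistribution of the first passage points.
-/

set_option autoImplicit false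

namespace Pool.Agent.Lib.MP_0a5adf_nt.WT

open Finset Pool.Agent.Lib.MP_0a5adf_nt.H89
open Pool.Agent.Lib.MP_edb5be_nt.ND (Gd)
open Pool.Agent.Lib.MP_edb5be_nt.TS (HB BCSStatement)

namespace Up

/-- `W` depends on the residue class only. -/
theorem W_mod {j k : ℕ} (h : j ≤ k) (n : ℕ) : W j (n % 2 ^ k) = W j n := by
  obtain ⟨d, rfl⟩ := Nat.exists_eq_add_of_le h
  have h1 := (shift j (n % 2 ^ (j + d)) (2 ^ d * (n / 2 ^ (j + d)))).2
  have h2 : n % 2 ^ (j + d) + 2 ^ j * (2 ^ d * (n / 2 ^ (j + d))) = n := by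
    rw [← mul_assoc, ← pow_add]
    exact Nat.mod_add_div n _
  rw [h2] at h1
  unfold W
  rw [h1]

theorem W_congr {j k m n : ℕ} (h : j ≤ k) (hmn : m ≡ n [MOD 2 ^ k]) : W j m = W j n := by
  rw [← W_mod h m, ← W_mod h n, hmn]

/-- The moments of `W K` over the residues modulo `2 ^ L`. -/
theorem moment_le (s : ℝ) {K L : ℕ} (h : K ≤ L) :
    ∑ n ∈ range (2 ^ L), (W K n) ^ s =
      2 ^ (L - K) * ((3 / 2 : ℝ) ^ s + (1 / 2 : ℝ) ^ s) ^ K := by
  induction L, h using Nat.le_induction with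
  | base => rw [moment]; simp
  | succ L hL ih =>
    rw [sum_split]
    have h1 : ∀ n ∈ range (2 ^ L), (W K n) ^ s + (W K (2 ^ L + n)) ^ s = 2 * (W K n) ^ s := by
      intro n _
      rw [W_shift' K L n hL]
      ring
    rw [sum_congr rfl h1, ← mul_sum, ih, Nat.succ_sub hL, pow_succ]
    ring

open Classical in
/-- The upper tail of `W K`. -/
theorem card_tail {K L : ℕ} (h : K ≤ L) :
    (((range (2 ^ L)).filter fun n => (1 / 4 : ℝ) ≤ W K n).card : ℝ) ≤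
      2 * (Mh / 2) ^ K * 2 ^ L := by
  have h1 : ∀ n ∈ (range (2 ^ L)).filter (fun n => (1 / 4 : ℝ) ≤ W K n),
      (1 : ℝ) ≤ 2 * (W K n) ^ (1 / 2 : ℝ) := by
    intro n hn
    rw [mem_filter] at hn
    have h2 : ((1 / 4 : ℝ)) ^ (1 / 2 : ℝ) ≤ (W K n) ^ (1 / 2 : ℝ) :=
      Real.rpow_le_rpow (by norm_num) hn.2 (by norm_num)
    have h3 : ((1 / 4 : ℝ)) ^ (1 / 2 : ℝ) = 1 / 2 := by
      rw [← Real.sqrt_eq_rpow, show (1 / 4 : ℝ) = (1 / 2) ^ 2 by norm_num,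
        Real.sqrt_sq (by norm_num)]
    rw [h3] at h2
    linarith
  have h4 : ∀ n ∈ range (2 ^ L), n ∉ (range (2 ^ L)).filter (fun n => (1 / 4 : ℝ) ≤ W K n) →
      0 ≤ 2 * (W K n) ^ (1 / 2 : ℝ) := fun n _ _ => by
    have := (W_pos K n).le
    positivity
  calc (((range (2 ^ L)).filter fun n => (1 / 4 : ℝ) ≤ W K n).card : ℝ)
      = ∑ n ∈ (range (2 ^ L)).filter (fun n => (1 / 4 : ℝ) ≤ W K n), (1 : ℝ) := by simp
    _ ≤ ∑ n ∈ (range (2 ^ L)).filter (fun n => (1 / 4 : ℝ) ≤ W K n),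
        2 * (W K n) ^ (1 / 2 : ℝ) := sum_le_sum h1
    _ ≤ ∑ n ∈ range (2 ^ L), 2 * (W K n) ^ (1 / 2 : ℝ) :=
        sum_le_sum_of_subset_of_nonneg (filter_subset _ _) h4
    _ = 2 * (2 ^ (L - K) * Mh ^ K) := by
        rw [← mul_sum, moment_le _ h]
        rfl
    _ = 2 * (Mh / 2) ^ K * 2 ^ L := by
        rw [div_pow]
        have h5 : (2 : ℝ) ^ L = 2 ^ (L - K) * 2 ^ K := by
          rw [← pow_add, Nat.sub_add_cancel h]
        rw [h5]
        field_simp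

open Classical in
/-- Ville's inequality. -/
theorem card_hit (μ : ℝ) (hμ : 0 < μ) (L : ℕ) :
    (((range (2 ^ L)).filter fun n => Hit μ L n).card : ℝ) ≤ 1 / μ * 2 ^ L := by
  have h1 := ville μ L
  have h2 : (∑ n ∈ range (2 ^ L), if Hit μ L n then W L n else 0) ≤ 2 ^ L := by
    rw [← total L]
    refine sum_le_sum fun n _ => ?_
    have := (W_pos L n).le
    split_ifs
    · exact le_rfl
    · exact this
  have h3 : ∑ n ∈ range (2 ^ L), (if Hit μ L n then (1 : ℝ) else 0) =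
      (((range (2 ^ L)).filter fun n => Hit μ L n).card : ℝ) := by
    rw [sum_ite, sum_const_zero, add_zero]
    simp
  rw [h3] at h1
  rw [div_mul_eq_mul_div, one_mul, le_div_iff₀ hμ, mul_comm]
  exact h1.trans h2

/-- The residue classes that contain `St ψ b`. -/
def EE (ψ : ℝ → ℝ) (b : ℕ) : Set ℕ :=
  {m : ℕ | (1 / 4 : ℝ) ≤ W (b / 100) m ∨ ∃ k ≤ b / 100, ψ (2 ^ b) / 4 ≤ W k m}

theorem EE_periodic (ψ : ℝ → ℝ) (b m n : ℕ) (h : m ≡ n [MOD 2 ^ (b / 100)]) :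
    m ∈ EE ψ b ↔ n ∈ EE ψ b := by
  unfold EE
  rw [Set.mem_setOf_eq, Set.mem_setOf_eq, W_congr le_rfl h]
  refine or_congr_right (exists_congr fun k => and_congr_right fun hk => ?_)
  rw [W_congr hk h]

theorem St_subset (ψ : ℝ → ℝ) (b : ℕ) (hψ : 0 < ψ (2 ^ b)) : St ψ b ⊆ EE ψ b := by
  intro m hm
  obtain ⟨h1, h2, h3⟩ := hm
  have hm1 : (2 : ℝ) ^ b ≤ m := by exact_mod_cast h1
  have hm2 : (m : ℝ) < 2 * 2 ^ b := by
    have : (m : ℝ) < 2 ^ (b + 1) := by exact_mod_cast h2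
    rw [pow_succ] at this
    linarith
  have hb0 : (0 : ℝ) < 2 ^ b := by positivity
  rcases h3 with h3 | ⟨k, hk, h3⟩
  · left
    have h4 := h3 (b / 100) le_rfl
    have h5 : (2 : ℝ) ^ b ≤ T^[b / 100] m := by exact_mod_cast h4
    have h6 := le_W_mul (b / 100) m
    have h7 : (2 : ℝ) ^ (b / 100) ≤ 2 ^ b :=
      pow_le_pow_right₀ (by norm_num) (Nat.div_le_self _ _)
    have hW := W_pos (b / 100) m
    by_contra hcon
    push Not at hcon
    have h8 : W (b / 100) m * ((m : ℝ) + 2 ^ (b / 100)) ≤ 1 / 4 * (3 * 2 ^ b) :=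
      mul_le_mul hcon.le (by linarith) (by positivity) (by norm_num)
    linarith
  · right
    refine ⟨k, hk, ?_⟩
    have hkb : k ≤ b := hk.trans (Nat.div_le_self _ _)
    have h6 := le_W_mul k m
    have h7 : (2 : ℝ) ^ k ≤ 2 ^ b := pow_le_pow_right₀ (by norm_num) hkb
    have hW := W_pos k m
    have hm0 : (0 : ℝ) < m := by linarith
    by_contra hcon
    push Not at hcon
    have h8 : W k m * ((m : ℝ) + 2 ^ k) ≤ ψ (2 ^ b) / 4 * (2 * m) :=
      mul_le_mul hcon.le (by linarith) (by positivity) (by positivity)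
    have h9 : ψ (2 ^ b) / 4 * (2 * m) = ψ (2 ^ b) / 2 * m := by ring
    linarith

open Classical in
/-- The number of the classes, for every modulus `2 ^ L`, `L ≥ b / 100`. -/
theorem EE_card (ψ : ℝ → ℝ) (b L : ℕ) (hψ : 0 < ψ (2 ^ b)) (hL : b / 100 ≤ L) :
    (((range (2 ^ L)).filter fun r => r ∈ EE ψ b).card : ℝ) ≤
      (4 / ψ (2 ^ b) + 2 * (Mh / 2) ^ (b / 100)) * 2 ^ L := by
  have h1 : ((range (2 ^ L)).filter fun r => r ∈ EE ψ b) ⊆
      ((range (2 ^ L)).filter fun n => (1 / 4 : ℝ) ≤ W (b / 100) n) ∪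
      ((range (2 ^ L)).filter fun n => Hit (ψ (2 ^ b) / 4) L n) := by
    intro r hr
    rw [mem_filter] at hr
    rw [mem_union, mem_filter, mem_filter]
    rcases hr.2 with h | ⟨k, hk, h⟩
    · exact Or.inl ⟨hr.1, h⟩
    · exact Or.inr ⟨hr.1, k, hk.trans hL, h⟩
  have h2 := (card_le_card h1).trans (card_union_le _ _)
  have h3 : (((range (2 ^ L)).filter fun r => r ∈ EE ψ b).card : ℝ) ≤
      (((range (2 ^ L)).filter fun n => (1 / 4 : ℝ) ≤ W (b / 100) n).card : ℝ) +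
      (((range (2 ^ L)).filter fun n => Hit (ψ (2 ^ b) / 4) L n).card : ℝ) := by
    exact_mod_cast h2
  have h4 := card_tail hL
  have h5 := card_hit (ψ (2 ^ b) / 4) (by positivity) L
  have h6 : 1 / (ψ (2 ^ b) / 4) = 4 / ψ (2 ^ b) := by
    rw [one_div_div]
  rw [h6] at h5
  linarith

/-- The top block. -/
theorem top (ψ : ℝ → ℝ) (L : ℕ) (hψ : 0 < ψ (2 ^ L)) :
    P L (St ψ L) ≤ 4 / ψ (2 ^ L) + 2 * (Mh / 2) ^ (L / 100) := by
  classical
  unfold P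
  rw [div_le_iff₀ (by positivity)]
  refine le_trans ?_ (EE_card ψ L L hψ (Nat.div_le_self _ _))
  rw [← Set.ncard_coe_finset]
  have h1 : {n : ℕ | 2 ^ L ≤ n ∧ n < 2 ^ (L + 1) ∧ n ∈ St ψ L} ⊆
      (fun r => 2 ^ L + r) '' (((range (2 ^ L)).filter fun r => r ∈ EE ψ L : Finset ℕ) : Set ℕ) := by
    rintro n ⟨h1, h2, h3⟩
    refine ⟨n - 2 ^ L, ?_, by simp only; omega⟩
    rw [mem_coe, mem_filter, mem_range]
    refine ⟨by rw [pow_succ] at h2; omega, ?_⟩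
    refine (EE_periodic ψ L (n - 2 ^ L) n ?_).2 (St_subset ψ L hψ h3)
    have h5 : 2 ^ (L / 100) ∣ 2 ^ L := pow_dvd_pow 2 (Nat.div_le_self _ _)
    rw [Nat.modEq_iff_dvd' (Nat.sub_le _ _)]
    have h6 : n - (n - 2 ^ L) = 2 ^ L := by omega
    rw [h6]
    exact h5
  have h2 := Set.ncard_le_ncard h1 ((Finset.finite_toSet _).image _)
  have h3 := Set.ncard_image_le (f := fun r => 2 ^ L + r)
    (Finset.finite_toSet ((range (2 ^ L)).filter fun r => r ∈ EE ψ L))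
  exact_mod_cast h2.trans h3

/-- The numbers whose first passage below `2 ^ (b + 1)` is in `St ψ b`. -/
def Eb (ψ : ℝ → ℝ) (b : ℕ) : Set ℕ := {n : ℕ | ∃ i, FP n (b + 1) i ∧ T^[i] n ∈ St ψ b}

theorem Eb_subset (ψ : ℝ → ℝ) (b : ℕ) (hψ : 0 < ψ (2 ^ b)) : Eb ψ b ⊆ HB true (b + 1) (EE ψ b) := by
  rintro n ⟨i, h1, h2⟩
  refine ⟨i, ?_⟩
  rw [T_true']
  exact ⟨h1.1, h1.2, St_subset ψ b hψ h2⟩

theorem EvI_block (ψ : ℝ → ℝ) (l L : ℕ) :
    P L (EvI ψ l) ≤ ∑ b ∈ Icc l L, P L (Eb ψ b) := by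
  classical
  have h1 : {n : ℕ | 2 ^ L ≤ n ∧ n < 2 ^ (L + 1) ∧ n ∈ EvI ψ l} ⊆
      ⋃ b ∈ Icc l L, {n : ℕ | 2 ^ L ≤ n ∧ n < 2 ^ (L + 1) ∧ n ∈ Eb ψ b} := by
    rintro n ⟨h1, h2, b, h3, i, h4, h5⟩
    rw [Set.mem_iUnion₂]
    refine ⟨b, ?_, h1, h2, i, h4, h5⟩
    rw [mem_Icc]
    refine ⟨h3, ?_⟩
    by_contra hcon
    push Not at hcon
    have h6 : n < 2 ^ (b + 1) :=
      h2.trans_le (Nat.pow_le_pow_right (by norm_num) (by omega))
    have h7 : i ≤ 0 := h4.le_of_lt (j := 0) h6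
    have h8 : i = 0 := by omega
    subst h8
    have h9 : 2 ^ b ≤ n := h5.1
    have h10 : 2 ^ (L + 1) ≤ 2 ^ b := Nat.pow_le_pow_right (by norm_num) (by omega)
    omega
  have hfin : (⋃ b ∈ Icc l L, {n : ℕ | 2 ^ L ≤ n ∧ n < 2 ^ (L + 1) ∧ n ∈ Eb ψ b}).Finite :=
    (Set.finite_lt_nat (2 ^ (L + 1))).subset fun n hn => by
      rw [Set.mem_iUnion₂] at hn
      obtain ⟨b, -, hn⟩ := hn
      exact hn.2.1
  have h2 := Set.ncard_le_ncard h1 hfin
  have h3 : (⋃ b ∈ Icc l L, {n : ℕ | 2 ^ L ≤ n ∧ n < 2 ^ (L + 1) ∧ n ∈ Eb ψ b}).ncard ≤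
      ∑ b ∈ Icc l L, {n : ℕ | 2 ^ L ≤ n ∧ n < 2 ^ (L + 1) ∧ n ∈ Eb ψ b}.ncard :=
    Finset.set_ncard_biUnion_le _ _
  unfold P
  rw [← sum_div]
  refine div_le_div_of_nonneg_right ?_ (by positivity)
  exact_mod_cast h2.trans h3

theorem Mh_half_lt : Mh / 2 < 1 := by
  have := Pw.Mh_lt_two
  linarith

theorem Mh_nonneg : 0 ≤ Mh := by unfold Mh; positivity

/-- Exponential against a power. -/
theorem exp_pow (A : ℕ) : ∃ M : ℝ, 0 < M ∧ ∀ b : ℕ, 1 ≤ b →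
    (Mh / 2) ^ (b / 100) ≤ M / (b : ℝ) ^ A := by
  have h0 : 0 ≤ Mh / 2 := by have := Mh_nonneg; positivity
  have h1 : Filter.Tendsto (fun n : ℕ => (n : ℝ) ^ A * (Mh / 2) ^ n) Filter.atTop (nhds 0) :=
    tendsto_pow_const_mul_const_pow_of_abs_lt_one A (by rw [abs_of_nonneg h0]; exact Mh_half_lt)
  have h2 : Filter.Tendsto (fun n : ℕ => ((n + 1 : ℕ) : ℝ) ^ A * (Mh / 2) ^ (n + 1))
      Filter.atTop (nhds 0) := h1.comp (Filter.tendsto_add_atTop_nat 1)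
  obtain ⟨M, hM⟩ := h2.bddAbove_range
  have hM' : ∀ n : ℕ, ((n + 1 : ℕ) : ℝ) ^ A * (Mh / 2) ^ (n + 1) ≤ M :=
    fun n => hM ⟨n, rfl⟩
  have hq : 0 < Mh / 2 := by unfold Mh; positivity
  have hM0 : 0 < M := lt_of_lt_of_le (by positivity) (hM' 0)
  refine ⟨M / (Mh / 2) * 100 ^ A, by positivity, fun b hb => ?_⟩
  have hb0 : (0 : ℝ) < b := by exact_mod_cast hb
  have h3 := hM' (b / 100)
  have h4 : (b : ℝ) ≤ 100 * ((b / 100 + 1 : ℕ) : ℝ) := by
    have : b ≤ 100 * (b / 100 + 1) := by omega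
    exact_mod_cast this
  have h5 : (b : ℝ) ^ A ≤ 100 ^ A * ((b / 100 + 1 : ℕ) : ℝ) ^ A := by
    rw [← mul_pow]
    exact pow_le_pow_left₀ hb0.le h4 A
  rw [le_div_iff₀ (by positivity)]
  rw [pow_succ] at h3
  calc (Mh / 2) ^ (b / 100) * (b : ℝ) ^ A
      ≤ (Mh / 2) ^ (b / 100) * (100 ^ A * ((b / 100 + 1 : ℕ) : ℝ) ^ A) :=
        mul_le_mul_of_nonneg_left h5 (by positivity)
    _ = (((b / 100 + 1 : ℕ) : ℝ) ^ A * ((Mh / 2) ^ (b / 100) * (Mh / 2))) * (100 ^ A / (Mh / 2)) := by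
        have hM1 : Mh / 2 * (100 ^ A / (Mh / 2)) = 100 ^ A := mul_div_cancel₀ _ hq.ne'
        rw [mul_assoc, mul_assoc, hM1]
        ring
    _ ≤ M * (100 ^ A / (Mh / 2)) := mul_le_mul_of_nonneg_right h3 (by positivity)
    _ = M / (Mh / 2) * 100 ^ A := by ring

end Up

open Up in
/-- **UP**, strong form, with any power of `l`. -/
theorem up_strong (A : ℕ) : ∃ C : ℝ, 0 < C ∧ ∀ (ψ : ℝ → ℝ) (l L : ℕ), Gauge ψ → 1 ≤ l →
    P L (EvI ψ l) ≤ C * (∑ b ∈ Icc l L, 1 / ψ (2 ^ b) + 1 / (l : ℝ) ^ A) := by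
  obtain ⟨C1, a₀, hC1, hbcs⟩ := Pool.Agent.Lib.MP_edb5be_nt.TS.H58.bcsT (A + 2)
  obtain ⟨M, hM, hexp⟩ := exp_pow (A + 2)
  set C2 : ℝ := C1 + 1 with hC2
  refine ⟨4 * C2 + 2 * (2 * C2 * M + C2) + (a₀ : ℝ) ^ A + 1, by positivity, ?_⟩
  intro ψ l L hψ hl
  have hl0 : (0 : ℝ) < l := by exact_mod_cast hl
  have hψb : ∀ b : ℕ, 0 < ψ (2 ^ b) := fun b => hψ.pos _ (one_le_pow₀ (by norm_num))
  set S : ℝ := ∑ b ∈ Icc l L, 1 / ψ (2 ^ b) with hS
  have hS0 : 0 ≤ S := sum_nonneg fun b _ => by have := hψb b; positivity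
  have hlA : 0 < 1 / (l : ℝ) ^ A := by positivity
  rcases lt_or_ge l a₀ with hsmall | hbig
  · have h1 := Pw.P_le_one L (EvI ψ l)
    have h2 : (l : ℝ) ^ A ≤ (a₀ : ℝ) ^ A :=
      pow_le_pow_left₀ hl0.le (by exact_mod_cast hsmall.le) A
    have h3 : 1 ≤ (a₀ : ℝ) ^ A * (1 / (l : ℝ) ^ A) := by
      rw [mul_one_div, le_div_iff₀ (by positivity), one_mul]
      exact h2
    have h4 : (a₀ : ℝ) ^ A * (1 / (l : ℝ) ^ A) ≤
        (4 * C2 + 2 * (2 * C2 * M + C2) + (a₀ : ℝ) ^ A + 1) * (S + 1 / (l : ℝ) ^ A) := by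
      refine mul_le_mul ?_ (by linarith) hlA.le (by positivity)
      have : 0 ≤ 4 * C2 + 2 * (2 * C2 * M + C2) := by positivity
      linarith
    linarith
  · -- one level
    have hlev : ∀ b ∈ Icc l L, P L (Eb ψ b) ≤
        4 * C2 * (1 / ψ (2 ^ b)) + (2 * C2 * M + C2) * (1 / (b : ℝ) ^ (A + 2)) := by
      intro b hb
      rw [mem_Icc] at hb
      have hb1 : 1 ≤ b := le_trans hl hb.1
      have hb0 : (0 : ℝ) < b := by exact_mod_cast hb1
      have he := hexp b hb1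
      have hψ0 := hψb b
      have hq0 : 0 ≤ (Mh / 2) ^ (b / 100) := by have := Mh_nonneg; positivity
      have e1 : 4 / ψ (2 ^ b) + 2 * (Mh / 2) ^ (b / 100) ≤
          4 * (1 / ψ (2 ^ b)) + 2 * M * (1 / (b : ℝ) ^ (A + 2)) := by
        have : 4 / ψ (2 ^ b) = 4 * (1 / ψ (2 ^ b)) := by ring
        have h2 : M / (b : ℝ) ^ (A + 2) = M * (1 / (b : ℝ) ^ (A + 2)) := by ring
        rw [h2] at he
        linarith
      have hpos1 : 0 < 1 / ψ (2 ^ b) := by positivity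
      have hpos2 : 0 < 1 / (b : ℝ) ^ (A + 2) := by positivity
      rcases Nat.lt_or_ge b L with hbL | hbL
      · have h1 := hbcs true (b + 1) (b / 100) (EE ψ b)
          (4 / ψ (2 ^ b) + 2 * (Mh / 2) ^ (b / 100)) (by omega) (by omega)
          (EE_periodic ψ b) (by
            have := EE_card ψ b (b / 100) hψ0 le_rfl
            convert this) (L : ℝ) (by
            have : b + 1 ≤ L := hbL
            exact_mod_cast this)
        rw [Gd_eq_P] at h1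
        have h2 : P L (Eb ψ b) ≤ P L (HB true (b + 1) (EE ψ b)) :=
          Pw.P_mono fun n _ _ hn => Eb_subset ψ b hψ0 hn
        have h3 : 1 / (((b + 1 : ℕ) : ℝ)) ^ (A + 2) ≤ 1 / (b : ℝ) ^ (A + 2) := by
          refine one_div_le_one_div_of_le (by positivity) (pow_le_pow_left₀ hb0.le ?_ _)
          push_cast
          linarith
        have h4 : C1 * (4 / ψ (2 ^ b) + 2 * (Mh / 2) ^ (b / 100) +
            1 / (((b + 1 : ℕ) : ℝ)) ^ (A + 2)) ≤
            C1 * (4 * (1 / ψ (2 ^ b)) + 2 * M * (1 / (b : ℝ) ^ (A + 2)) +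
              1 / (b : ℝ) ^ (A + 2)) :=
          mul_le_mul_of_nonneg_left (by linarith) hC1.le
        have h5 : C1 * (4 * (1 / ψ (2 ^ b)) + 2 * M * (1 / (b : ℝ) ^ (A + 2)) +
              1 / (b : ℝ) ^ (A + 2)) ≤
            C2 * (4 * (1 / ψ (2 ^ b)) + 2 * M * (1 / (b : ℝ) ^ (A + 2)) +
              1 / (b : ℝ) ^ (A + 2)) :=
          mul_le_mul_of_nonneg_right (by linarith) (by positivity)
        refine h2.trans (h1.trans (h4.trans (h5.trans (le_of_eq ?_))))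
        ring
      · have hbL' : b = L := by omega
        subst hbL'
        have h2 : P b (Eb ψ b) ≤ P b (St ψ b) := Pw.P_mono fun n _ hn2 hn => by
          obtain ⟨i, h1, h2⟩ := hn
          have h7 : i ≤ 0 := h1.le_of_lt (j := 0) hn2
          have h8 : i = 0 := by omega
          subst h8
          exact h2
        have h3 := top ψ b hψ0
        have h4 : 4 * (1 / ψ (2 ^ b)) + 2 * M * (1 / (b : ℝ) ^ (A + 2)) ≤
            4 * C2 * (1 / ψ (2 ^ b)) + (2 * C2 * M + C2) * (1 / (b : ℝ) ^ (A + 2)) := by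
          have hC21 : 1 ≤ C2 := by linarith
          have e2 : 4 * (1 / ψ (2 ^ b)) ≤ 4 * C2 * (1 / ψ (2 ^ b)) :=
            mul_le_mul_of_nonneg_right (by linarith) hpos1.le
          have e3 : 2 * M * (1 / (b : ℝ) ^ (A + 2)) ≤
              (2 * C2 * M + C2) * (1 / (b : ℝ) ^ (A + 2)) := by
            refine mul_le_mul_of_nonneg_right ?_ hpos2.le
            nlinarith
          linarith
        linarith
    have h1 := (EvI_block ψ l L).trans (sum_le_sum hlev)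
    rw [sum_add_distrib, ← mul_sum, ← mul_sum, ← hS] at h1
    have h2 : ∑ b ∈ Icc l L, 1 / (b : ℝ) ^ (A + 2) ≤ 2 * (1 / (l : ℝ) ^ A) := by
      have h3 : ∀ b ∈ Icc l L, 1 / (b : ℝ) ^ (A + 2) ≤ 1 / (l : ℝ) ^ A * ((b : ℝ) ^ 2)⁻¹ := by
        intro b hb
        rw [mem_Icc] at hb
        have hb0 : (0 : ℝ) < b := lt_of_lt_of_le hl0 (by exact_mod_cast hb.1)
        rw [pow_add, one_div, mul_inv, one_div]
        refine mul_le_mul_of_nonneg_right ?_ (by positivity)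
        exact inv_anti₀ (by positivity) (pow_le_pow_left₀ hl0.le (by exact_mod_cast hb.1) A)
      refine (sum_le_sum h3).trans ?_
      rw [← mul_sum, mul_comm]
      refine mul_le_mul_of_nonneg_right ?_ hlA.le
      have h4 := sum_Ioo_inv_sq_le (α := ℝ) (l - 1) (L + 1)
      have h5 : Icc l L = Ioo (l - 1) (L + 1) := by
        ext b
        rw [mem_Icc, mem_Ioo]
        omega
      rw [h5]
      refine h4.trans ?_
      have h6 : ((l - 1 : ℕ) : ℝ) + 1 = l := by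
        rw [Nat.cast_sub hl]
        push_cast
        ring
      rw [h6, div_le_iff₀ hl0]
      have : (1 : ℝ) ≤ l := by exact_mod_cast hl
      linarith
    have h3 : (2 * C2 * M + C2) * ∑ b ∈ Icc l L, 1 / (b : ℝ) ^ (A + 2) ≤
        (2 * C2 * M + C2) * (2 * (1 / (l : ℝ) ^ A)) :=
      mul_le_mul_of_nonneg_left h2 (by positivity)
    have ha0 : 0 ≤ (a₀ : ℝ) ^ A := by positivity
    have h4 : 0 ≤ (2 * (2 * C2 * M + C2) + (a₀ : ℝ) ^ A + 1) * S := by positivity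
    have h5 : 0 ≤ (4 * C2 + (a₀ : ℝ) ^ A + 1) * (1 / (l : ℝ) ^ A) := by positivity
    nlinarith

/-- **Row UP.** -/
theorem up : UpStatement := by
  obtain ⟨C, hC, h⟩ := up_strong 1
  refine ⟨C, hC, fun ψ l L hψ hl => (h ψ l L hψ hl).trans ?_⟩
  have hl1 : (1 : ℝ) ≤ l := by exact_mod_cast hl
  refine mul_le_mul_of_nonneg_left (add_le_add ?_ ?_) hC.le
  · refine sum_le_sum_of_subset_of_nonneg ?_ fun b _ _ => ?_
    · intro b hb
      rw [mem_Icc] at hb ⊢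
      omega
    · have := hψ.pos (2 ^ b) (one_le_pow₀ (by norm_num))
      positivity
  · rw [pow_one, one_div, ← Real.rpow_neg_one]
    exact Real.rpow_le_rpow_of_exponent_le hl1 (by norm_num)

end Pool.Agent.Lib.MP_0a5adf_nt.WT
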