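import Pool.Agent.Lib.MP_0a5adf_nt.WT.Fin5
import Pool.Agent.Lib.MP_0a5adf_nt.WT.Up
import Pool.Agent.Lib.MP_0a5adf_nt.WT.Rise
import Pool.Agent.Lib.MP_0a5adf_nt.WT.Inv
import Pool.Agent.Lib.MP_0a5adf_nt.WT.Iff
import Pool.Agent.Lib.MP_0a5adf_nt.WT.Cts
import Pool.Agent.Lib.MP_0a5adf_nt.WT.LawB
import Pool.Agent.Lib.MP_edb5be_nt.ND.H26.Main

/-!
Theorem WT: the rows (helper38).
-/

set_option autoImplicit false

namespace Pool.Agent.Lib.MP_0a5adf_nt.WT

open Pool.Agent.Lib.MP_edb5be_nt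

theorem upStrongT : UpStrongStatement := up_strong

theorem powT : PowStatement := pow rise inv (blk ND.convT) up

theorem lawT : LawStatement := LawB.law' dec hin cts up ND.countT

theorem iffT : IffStatement := iff_ XT.ucount dec up cts

end Pool.Agent.Lib.MP_0a5adf_nt.WT
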